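import Pool.Agent.T6.H28.EG.Defs

/-! Project EG, module ADD: additivity of the local length. -/

open MvPolynomial

namespace H28.EG

lemma add_aux (P : Ideal S) [hP : P.IsPrime] (b h : S) (hb : Prime b) (hbP : b ∈ P)
    (hbh : ¬ b ∣ h) (q z : Localization.AtPrime P)
    (he : algebraMap S (Localization.AtPrime P) h * q =
      algebraMap S (Localization.AtPrime P) b * z) :
    ∃ q', q = algebraMap S (Localization.AtPrime P) b * q' := by
  obtain ⟨q', s, rfl⟩ := IsLocalization.exists_mk'_eq P.primeCompl q
  obtain ⟨z', t, rfl⟩ := IsLocalization.exists_mk'_eq P.primeCompl z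
  have h1 : algebraMap S (Localization.AtPrime P) (h * q' * t) =
      algebraMap S (Localization.AtPrime P) (b * z' * s) := by
    have e1 := IsLocalization.mk'_spec (Localization.AtPrime P) q' s
    have e2 := IsLocalization.mk'_spec (Localization.AtPrime P) z' t
    simp only [map_mul]
    rw [← e1, ← e2]
    linear_combination (algebraMap S (Localization.AtPrime P) (s : S)) *
      (algebraMap S (Localization.AtPrime P) (t : S)) * he
  have h2 : h * q' * t = b * z' * s :=
    IsLocalization.injective (Localization.AtPrime P) P.primeCompl_le_nonZeroDivisors h1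
  have h3 : b ∣ h * q' * t := by rw [h2, mul_assoc]; exact dvd_mul_right _ _
  have h4 : b ∣ q' := by
    rcases hb.dvd_or_dvd h3 with h5 | h5
    · rcases hb.dvd_or_dvd h5 with h6 | h6
      · exact absurd h6 hbh
      · exact h6
    · exact absurd (P.mem_of_dvd h5 hbP) t.2
  obtain ⟨c, rfl⟩ := h4
  exact ⟨IsLocalization.mk' _ c s, by rw [← IsLocalization.mul_mk'_eq_mk'_of_mul]⟩

lemma add_len {R : Type*} [CommRing R] [IsDomain R] (A B H : R) (hB : B ≠ 0)
    (hd : ∀ q z : R, H * q = B * z → ∃ q', q = B * q') :
    Module.length R (R ⧸ Ideal.span {A * B, H}) =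
      Module.length R (R ⧸ Ideal.span {A, H}) + Module.length R (R ⧸ Ideal.span {B, H}) := by
  have hf0 : (Ideal.span {A, H} : Ideal R) ≤
      Submodule.comap (LinearMap.lsmul R R B) (Ideal.span {A * B, H} : Ideal R) := by
    intro x hx
    rw [Submodule.mem_comap]
    obtain ⟨p, q, hpq⟩ := Ideal.mem_span_pair.1 hx
    exact Ideal.mem_span_pair.2 ⟨p, B * q, by
      rw [LinearMap.lsmul_apply, smul_eq_mul]; linear_combination B * hpq⟩
  have hg0 : (Ideal.span {A * B, H} : Ideal R) ≤ Ideal.span {B, H} := by
    intro x hx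
    obtain ⟨p, q, hpq⟩ := Ideal.mem_span_pair.1 hx
    exact Ideal.mem_span_pair.2 ⟨p * A, q, by linear_combination hpq⟩
  let f : (R ⧸ Ideal.span {A, H}) →ₗ[R] (R ⧸ Ideal.span {A * B, H}) :=
    Submodule.mapQ _ _ (LinearMap.lsmul R R B) hf0
  let g : (R ⧸ Ideal.span {A * B, H}) →ₗ[R] (R ⧸ Ideal.span {B, H}) := Submodule.factor hg0
  have hf : Function.Injective f := by
    rw [injective_iff_map_eq_zero]
    intro x hx
    obtain ⟨x, rfl⟩ := Submodule.Quotient.mk_surjective _ x
    have h1 : f (Submodule.Quotient.mk x) = Submodule.Quotient.mk (B * x) := rfl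
    rw [h1, Submodule.Quotient.mk_eq_zero, Ideal.mem_span_pair] at hx
    obtain ⟨p, q, hpq⟩ := hx
    obtain ⟨q', rfl⟩ := hd q (x - p * A) (by linear_combination hpq)
    rw [Submodule.Quotient.mk_eq_zero, Ideal.mem_span_pair]
    refine ⟨p, q', ?_⟩
    apply mul_left_cancel₀ hB
    linear_combination hpq
  have hg : Function.Surjective g := by
    intro y
    obtain ⟨y, rfl⟩ := Submodule.Quotient.mk_surjective _ y
    exact ⟨Submodule.Quotient.mk y, rfl⟩
  refine Module.length_eq_add_of_exact f g hf hg ?_
  intro y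
  obtain ⟨y, rfl⟩ := Submodule.Quotient.mk_surjective _ y
  constructor
  · intro hy
    have h1 : g (Submodule.Quotient.mk y) = Submodule.Quotient.mk y := rfl
    rw [h1, Submodule.Quotient.mk_eq_zero, Ideal.mem_span_pair] at hy
    obtain ⟨p, q, hpq⟩ := hy
    refine ⟨Submodule.Quotient.mk p, ?_⟩
    have h2 : f (Submodule.Quotient.mk p) = Submodule.Quotient.mk (B * p) := rfl
    rw [h2, Submodule.Quotient.eq, Ideal.mem_span_pair]
    exact ⟨0, -q, by linear_combination -hpq⟩
  · rintro ⟨x, hx⟩
    obtain ⟨x, rfl⟩ := Submodule.Quotient.mk_surjective _ x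
    have h2 : f (Submodule.Quotient.mk x) = Submodule.Quotient.mk (B * x) := rfl
    rw [← hx, h2]
    have h1 : g (Submodule.Quotient.mk (B * x)) = Submodule.Quotient.mk (B * x) := rfl
    rw [h1, Submodule.Quotient.mk_eq_zero]
    exact Ideal.mul_mem_right _ _ (Ideal.subset_span (by simp))

theorem add : StmADD := by
  intro P hP a b h hb hbP hbh
  unfold locLength
  have hinj : Function.Injective (algebraMap S (Localization.AtPrime P)) :=
    IsLocalization.injective (Localization.AtPrime P) P.primeCompl_le_nonZeroDivisors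
  have hB : algebraMap S (Localization.AtPrime P) b ≠ 0 := by
    intro h0
    exact hb.ne_zero (hinj (by rw [h0, map_zero]))
  rw [Ideal.map_span, Ideal.map_span, Ideal.map_span, Set.image_pair, Set.image_pair,
    Set.image_pair, map_mul]
  have : IsDomain (Localization.AtPrime P) := IsLocalization.isDomain_localization
    P.primeCompl_le_nonZeroDivisors
  exact add_len _ _ _ hB (fun q z he => add_aux P b h hb hbP hbh q z he)

end H28.EG
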