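import Pool.Agent.T6.H28.EG.Defs

/-! Project EG, module CVB: the covering for `18 ≤ e < 100`, by a kernel computation.
For fixed `g` the values `m` with the same quotient `s = (g e - m) / a` form an interval. -/

namespace H28.EG

/-- the value of `m` after the interval given by `g` at `m`, or `0` if `g` is not admissible -/
def cvbStep (e m g : ℕ) : ℕ :=
  bif Nat.ble g e && (Nat.ble m (g * e) && !(Nat.beq (e + 1 - g) g)) then
    match (g * e - m) / (e + 1 - g), (g * e - m) % (e + 1 - g) with
    | 0, _ => 0
    | s + 1, K =>
      bif Nat.ble (s + 2) g && (Nat.ble (2 * K) e && (!(Nat.beq (g - (s + 2)) 1) &&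
        !(Nat.beq (g - (s + 2)) (e + 1 - g)))) then m + K + 1
      else bif Nat.beq K 0 && Nat.ble (s + 1) g then m + 1 else 0
  else 0

/-- search for `g` -/
def cvbTry (e m : ℕ) : ℕ → ℕ → ℕ
  | 0, _ => 0
  | f + 1, g =>
    match cvbStep e m g with
    | 0 => cvbTry e m f (g + 1)
    | k + 1 => k + 1

/-- all values from `m` on are covered -/
def cvbWalk (e ex : ℕ) : ℕ → ℕ → Bool
  | 0, _ => false
  | f + 1, m =>
    bif Nat.ble (e ^ 2) m then true
    else bif Nat.beq (m + e + 1) (e ^ 2) || Nat.beq m ex then cvbWalk e ex f (m + 1)
    else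
      match cvbTry e m e (m / (e + 1) + 1) with
      | 0 => false
      | k + 1 => cvbWalk e ex f (k + 1)

lemma cvb_beqf {a b : ℕ} (h : Nat.beq a b = false) : a ≠ b := by
  rintro rfl
  simp [Nat.beq_refl] at h

lemma cvbStep_sound {e m g n : ℕ} (h : cvbStep e m g = n + 1) :
    m < n + 1 ∧ ∀ x, m ≤ x → x < n + 1 → Fam e x := by
  unfold cvbStep at h
  cases h1 : (Nat.ble g e && (Nat.ble m (g * e) && !(Nat.beq (e + 1 - g) g))) with
  | false => rw [h1] at h; simp at h
  | true =>
    rw [h1] at h
    simp only [Bool.and_eq_true, Nat.ble_eq, Bool.not_eq_true', cond_true] at h1 h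
    obtain ⟨hge, hm, hag⟩ := h1
    have hag' : e + 1 - g ≠ g := cvb_beqf hag
    have hapos : 0 < e + 1 - g := by omega
    have hdm := Nat.div_add_mod (g * e - m) (e + 1 - g)
    have hmod := Nat.mod_lt (g * e - m) hapos
    generalize (g * e - m) / (e + 1 - g) = s0 at h hdm
    generalize (g * e - m) % (e + 1 - g) = K at h hdm hmod
    cases s0 with
    | zero => simp at h
    | succ s =>
      simp only at h
      have hdm' : (s + 1) * (e + 1 - g) + K + m = g * e := by
        rw [mul_comm]
        omega
      cases h2 : (Nat.ble (s + 2) g && (Nat.ble (2 * K) e && (!(Nat.beq (g - (s + 2)) 1) &&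
        !(Nat.beq (g - (s + 2)) (e + 1 - g))))) with
      | true =>
        rw [h2] at h
        simp only [Bool.and_eq_true, Nat.ble_eq, Bool.not_eq_true', cond_true] at h2 h
        obtain ⟨hsg, hKe, hb1, hba⟩ := h2
        have hb1' := cvb_beqf hb1
        have hba' := cvb_beqf hba
        refine ⟨by omega, fun x hx hxn => ?_⟩
        refine ⟨g, e + 1 - g, g - (s + 2), 1, s + 1, K - (x - m), by omega, by omega, by omega,
          by omega, hb1', hba', hag', by omega, by omega, ?_⟩
        rw [max_eq_left (by omega)]
        omega
      | false =>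
        rw [h2] at h
        simp only [cond_false] at h
        cases h3 : (Nat.beq K 0 && Nat.ble (s + 1) g) with
        | false => rw [h3] at h; simp at h
        | true =>
          rw [h3] at h
          simp only [Bool.and_eq_true, Nat.ble_eq, cond_true, Nat.beq_eq] at h3 h
          obtain ⟨hK0, hsg⟩ := h3
          subst hK0
          refine ⟨by omega, fun x hx hxn => ?_⟩
          obtain rfl : x = m := by omega
          refine ⟨g, e + 1 - g, 0, g - (s + 1), s + 1, 0, by omega, by omega, by omega,
            by omega, by omega, by omega, hag', by omega, by omega, ?_⟩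
          rw [max_eq_left (by omega)]
          omega

lemma cvbTry_sound {e m n : ℕ} : ∀ (f g : ℕ), cvbTry e m f g = n + 1 →
    m < n + 1 ∧ ∀ x, m ≤ x → x < n + 1 → Fam e x
  | 0, _, h => by simp [cvbTry] at h
  | f + 1, g, h => by
    rw [cvbTry] at h
    cases h1 : cvbStep e m g with
    | zero =>
      rw [h1] at h
      exact cvbTry_sound f (g + 1) h
    | succ k =>
      rw [h1] at h
      simp only at h
      rw [← h]
      exact cvbStep_sound h1

lemma cvbWalk_sound {e ex : ℕ} : ∀ (f m : ℕ), cvbWalk e ex f m = true →
    ∀ x, m ≤ x → x < e ^ 2 → x + e + 1 ≠ e ^ 2 → x ≠ ex → Fam e x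
  | 0, _, h => by simp [cvbWalk] at h
  | f + 1, m, h => by
    intro x hx hxe hx1 hx2
    rw [cvbWalk] at h
    cases h1 : Nat.ble (e ^ 2) m with
    | true =>
      rw [Nat.ble_eq] at h1
      omega
    | false =>
      rw [h1] at h
      simp only [cond_false] at h
      cases h2 : (Nat.beq (m + e + 1) (e ^ 2) || Nat.beq m ex) with
      | true =>
        rw [h2] at h
        simp only [cond_true] at h
        simp only [Bool.or_eq_true, Nat.beq_eq] at h2
        have hxm : x ≠ m := by
          rintro rfl
          rcases h2 with h2 | h2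
          · exact hx1 h2
          · exact hx2 h2
        exact cvbWalk_sound f (m + 1) h x (by omega) hxe hx1 hx2
      | false =>
        rw [h2] at h
        simp only [cond_false] at h
        cases h3 : cvbTry e m e (m / (e + 1) + 1) with
        | zero => rw [h3] at h; simp at h
        | succ k =>
          rw [h3] at h
          simp only at h
          obtain ⟨_, h5⟩ := cvbTry_sound e _ h3
          rcases Nat.lt_or_ge x (k + 1) with hlt | hge
          · exact h5 x hx hlt
          · exact cvbWalk_sound f (k + 1) h x hge hxe hx1 hx2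

/-- the value that needs a special treatment -/
def cvbEx (e : ℕ) : ℕ := bif Nat.beq e 18 then 44 else bif Nat.beq e 19 then 45 else
  bif Nat.beq e 23 then 60 else 0

/-- all `e` -/
def cvbAll : ℕ → ℕ → Bool
  | 0, _ => true
  | f + 1, e => cvbWalk e (cvbEx e) (e * e) (e + 2) && cvbAll f (e + 1)

lemma cvbAll_sound : ∀ (f e0 : ℕ), cvbAll f e0 = true → ∀ e, e0 ≤ e → e < e0 + f →
    cvbWalk e (cvbEx e) (e * e) (e + 2) = true
  | 0, e0, _ => fun e h1 h2 => by omega
  | f + 1, e0, h => fun e h1 h2 => by
    rw [cvbAll, Bool.and_eq_true] at h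
    rcases Nat.eq_or_lt_of_le h1 with rfl | hlt
    · exact h.1
    · exact cvbAll_sound f (e0 + 1) h.2 e hlt (by omega)

lemma cvb_c1 : cvbAll 82 18 = true := by decide +kernel

theorem cvb : StmCVB := by
  intro e m h1 h2 h3 h4 h5
  by_cases hex : m = cvbEx e
  · by_cases e1 : e = 18
    · subst e1
      obtain rfl : m = 44 := hex
      exact ⟨5, 14, 0, 4, 1, 8, by norm_num⟩
    · by_cases e2 : e = 19
      · subst e2
        obtain rfl : m = 45 := hex
        exact ⟨4, 16, 0, 3, 1, 5, by norm_num⟩
      · by_cases e3 : e = 23
        · subst e3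
          obtain rfl : m = 60 := hex
          exact ⟨4, 20, 0, 3, 1, 4, by norm_num⟩
        · have : cvbEx e = 0 := by
            have f1 : Nat.beq e 18 = false := by
              cases hh : Nat.beq e 18 with
              | false => rfl
              | true => exact absurd (Nat.eq_of_beq_eq_true hh) e1
            have f2 : Nat.beq e 19 = false := by
              cases hh : Nat.beq e 19 with
              | false => rfl
              | true => exact absurd (Nat.eq_of_beq_eq_true hh) e2
            have f3 : Nat.beq e 23 = false := by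
              cases hh : Nat.beq e 23 with
              | false => rfl
              | true => exact absurd (Nat.eq_of_beq_eq_true hh) e3
            rw [cvbEx, f1, f2, f3]
            rfl
          omega
  · exact cvbWalk_sound _ _ (cvbAll_sound 82 18 cvb_c1 e h1 (by omega)) m h3 h4 h5 hex

end H28.EG
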