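import Pool.Agent.T6.H28.EG.Defs

/-! Project EG (helper28), module CVL: the covering, low range. -/

namespace H28.EG

namespace CVL

/-- from `j`, `s`, `K` to the parameters -/
theorem fam_of {e m j s K : ℕ} (he : 100 ≤ e) (hj : 1 ≤ j) (hj2 : j ≠ 2) (hs : 1 ≤ s)
    (hg : 2 * (j + s) ≤ e) (hK : 2 * K ≤ e) (h : m + K + s = j * e + s * (j + s)) : Fam e m := by
  obtain ⟨a, ha⟩ : ∃ a, a + (j + s) = e + 1 := ⟨e + 1 - (j + s), by omega⟩
  have haK : K < a := by omega
  have hmax : max a K = a := max_eq_left haK.le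
  have hsa : s * a + s * (j + s) = s * e + s := by
    rw [← Nat.mul_add, ha]; ring
  rcases Nat.eq_zero_or_pos K with h0 | h0
  · subst h0
    refine ⟨j + s, a, 0, j, s, 0, ha, by omega, hs, by omega, by omega, by omega, by omega,
      by omega, by omega, ?_⟩
    rw [hmax]
    nlinarith
  · obtain ⟨i, rfl⟩ : ∃ i, j = i + 1 := ⟨j - 1, by omega⟩
    refine ⟨i + 1 + s, a, i, 1, s, K, ha, by omega, hs, by omega, by omega, by omega, by omega,
      by omega, hK, ?_⟩
    rw [hmax]
    nlinarith

theorem core {e m : ℕ} (he : 100 ≤ e) (hm : e + 2 ≤ m) (hm2 : 2 * m + 5 * e ≤ e * e) :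
    Fam e m := by
  obtain ⟨h, hh1, hh2⟩ : ∃ h, 2 * h ≤ e ∧ e ≤ 2 * h + 1 := ⟨e / 2, by omega, by omega⟩
  by_cases hA : m + h < 3 * (e + 1)
  · -- j = 1
    have hex : ∃ t, m ≤ e + (t + 1) ^ 2 := ⟨m, by nlinarith⟩
    classical
    set t := Nat.find hex with ht
    have hspec : m ≤ e + (t + 1) ^ 2 := Nat.find_spec hex
    have hlow : e + t ^ 2 < m := by
      rcases Nat.eq_zero_or_pos t with h0 | h0
      · rw [h0]; omega
      · obtain ⟨u, hu⟩ : ∃ u, t = u + 1 := ⟨t - 1, by omega⟩
        have := Nat.find_min hex (m := u) (by omega)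
        rw [hu]
        omega
    obtain ⟨K, hK⟩ : ∃ K, m + K = e + (t + 1) ^ 2 := ⟨e + (t + 1) ^ 2 - m, by omega⟩
    have hK2 : K ≤ 2 * t := by nlinarith
    have ht2 : 2 * t ^ 2 ≤ 3 * e + 3 := by omega
    have ht4 : 4 * t ≤ e := by
      by_contra hc
      push Not at hc
      have h1 : (e + 1) * (e + 1) ≤ (4 * t) * (4 * t) := Nat.mul_le_mul hc hc
      nlinarith
    refine fam_of (j := 1) (s := t + 1) (K := K) he le_rfl (by omega) (by omega) (by omega)
      (by omega) ?_
    nlinarith
  · push Not at hA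
    obtain ⟨j, r, hjr, hr⟩ : ∃ j r, m + h = j * (e + 1) + r ∧ r < e + 1 :=
      ⟨(m + h) / (e + 1), (m + h) % (e + 1), by
        rw [mul_comm]; exact (Nat.div_add_mod _ _).symm, Nat.mod_lt _ (by omega)⟩
    have hj3 : 3 ≤ j := by
      by_contra hc
      push Not at hc
      have : j * (e + 1) ≤ 2 * (e + 1) := Nat.mul_le_mul_right _ (by omega)
      omega
    by_cases hrh : r ≤ h
    · -- s = 1
      have hj4 : 2 * j + 4 < e := by
        by_contra hc
        push Not at hc
        have h1 : e * (e + 1) ≤ (2 * j + 4) * (e + 1) := Nat.mul_le_mul_right _ hc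
        nlinarith
      refine fam_of (j := j) (s := 1) (K := h - r) he (by omega) (by omega) le_rfl (by omega)
        (by omega) ?_
      have e1 : m + (h - r) = j * (e + 1) := by omega
      rw [e1]
      ring
    · push Not at hrh
      obtain ⟨x, hx⟩ : ∃ x, r = h + x := ⟨r - h, by omega⟩
      have hx1 : 1 ≤ x := by omega
      have hx2 : x ≤ h + 1 := by omega
      have hmx : m = j * (e + 1) + x := by omega
      have hj6 : 2 * j + 6 ≤ e := by
        by_contra hc
        push Not at hc
        have h1 : (e + 1) * (e + 1) ≤ (2 * j + 6) * (e + 1) := Nat.mul_le_mul_right _ hc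
        nlinarith
      have hex : ∃ t, x ≤ (t + 1) * (j + t + 2) := ⟨x, by nlinarith⟩
      classical
      set t := Nat.find hex with ht
      have hspec : x ≤ (t + 1) * (j + t + 2) := Nat.find_spec hex
      have hlow : t * (j + t + 1) < x := by
        rcases Nat.eq_zero_or_pos t with h0 | h0
        · rw [h0]; omega
        · obtain ⟨u, hu⟩ : ∃ u, t = u + 1 := ⟨t - 1, by omega⟩
          have h1 := Nat.find_min hex (m := u) (by omega)
          rw [hu]
          have e2 : (u + 1) * (j + (u + 1) + 1) = (u + 1) * (j + u + 2) := by ring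
          rw [e2]
          omega
      obtain ⟨K, hK⟩ : ∃ K, x + K = (t + 1) * (j + t + 2) := ⟨(t + 1) * (j + t + 2) - x, by omega⟩
      have hK2 : K ≤ j + 2 * t + 1 := by nlinarith
      have hb : K ≤ h ∧ j + t + 2 ≤ h := by
        rcases Nat.lt_or_ge t 2 with h2 | h2
        · constructor <;> omega
        · have h3 : 2 * (j + t + 1) ≤ t * (j + t + 1) := Nat.mul_le_mul_right _ h2
          constructor <;> omega
      refine fam_of (j := j) (s := t + 2) (K := K) he (by omega) (by omega) (by omega) (by omega)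
        (by omega) ?_
      rw [hmx]
      have e3 : j * (e + 1) + x + K + (t + 2) = j * (e + 1) + (x + K) + (t + 2) := by ring
      rw [e3, hK]
      ring

end CVL

theorem cvl : StmCVL := fun _ _ h1 h2 h3 => CVL.core h1 h2 h3

end H28.EG
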