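import Pool.Agent.T6.H28.EG.Defs

/-! Project EG, module CVM: the covering, middle range. -/

namespace H28.EG

theorem cvm : StmCVM := by
  intro e m he h1 h2
  obtain ⟨q, p, hp, rfl⟩ : ∃ q p : ℕ, p ≤ 1 ∧ e = 2 * q + p :=
    ⟨e / 2, e % 2, by omega, by omega⟩
  obtain ⟨t, ht1, ht2⟩ : ∃ t : ℕ, 6 * t ≤ 2 * q + p ∧ 2 * q + p ≤ 6 * t + 5 :=
    ⟨(2 * q + p) / 6, by omega, by omega⟩
  have ht : 16 ≤ t := by omega
  obtain ⟨a, ha⟩ : ∃ a : ℕ, q = a + t := ⟨q - t, by omega⟩
  subst ha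
  -- g = a + p + 2 t + 1
  have ha1 : 2 * t ≤ a + 1 := by omega
  obtain ⟨D, hD⟩ : ∃ D : ℕ, m + D = (a + p + 2 * t + 1) * (2 * (a + t) + p) := by
    refine ⟨(a + p + 2 * t + 1) * (2 * (a + t) + p) - m, ?_⟩
    have : m ≤ (a + p + 2 * t + 1) * (2 * (a + t) + p) := by nlinarith
    omega
  have hapos : 0 < a := by omega
  have hdm := Nat.div_add_mod D a
  have hml := Nat.mod_lt D hapos
  have hs1 : 2 * t + 3 ≤ D / a := by
    rw [Nat.le_div_iff_mul_le hapos]
    nlinarith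
  have hs2 : D / a < a + p + 2 * t - 1 := by
    rw [Nat.div_lt_iff_lt_mul hapos]
    obtain ⟨x, hx⟩ : ∃ x : ℕ, a + p + 2 * t = x + 1 := ⟨a + p + 2 * t - 1, by omega⟩
    have hx2 : a + p + 2 * t - 1 = x := by omega
    rw [hx2]
    nlinarith
  generalize D / a = s at *
  generalize D % a = K at *
  rcases Nat.eq_zero_or_pos K with hK | hK
  · subst hK
    refine ⟨a + p + 2 * t + 1, a, a + p + 2 * t + 1 - s, 0, s, 0, by omega, by omega, by omega,
      by omega, by omega, by omega, by omega, by omega, by omega, ?_⟩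
    rw [Nat.max_eq_left (Nat.zero_le a)]
    linarith
  · refine ⟨a + p + 2 * t + 1, a, a + p + 2 * t - s, 1, s, K, by omega, by omega, by omega,
      by omega, by omega, by omega, by omega, by omega, by omega, ?_⟩
    rw [Nat.max_eq_left hml.le]
    linarith

end H28.EG
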