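import Pool.Agent.T6.H28.EG.Defs3

/-! Project EG, module CVS: the covering for `10 ≤ e < 18`, from a table of witnesses. -/

namespace H28.EG

namespace ModCVS

/-- check of one witness `(t, g, r, s, K)` -/
def chk (e m : ℕ) : ℕ × ℕ × ℕ × ℕ × ℕ → Bool
  | (0, g, r, s, K) => decide (g ≤ e ∧ 1 ≤ s ∧ r + s ≤ g ∧ g - r - s ≠ 1 ∧ g - r - s ≠ e + 1 - g ∧
      e + 1 - g ≠ g ∧ K ≠ e + 1 - g ∧ 2 * K ≤ e ∧ m + r * K + s * max (e + 1 - g) K = g * e)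
  | (1, g, r, s, K) => decide (g + 1 ≤ e ∧ 1 ≤ s ∧ 1 + r + s = g ∧
      e + 1 - g ≠ g ∧ K ≠ e + 1 - g ∧ 2 * K ≤ e ∧
      m + r * K + s * max (e + 1 - g) K + (e + 1 - g - 1) = g * e)
  | _ => decide (m + e + 1 = e ^ 2 ∨ (e = 11 ∧ m = 49))

/-- check of a list of witnesses for `m, m + 1, ...` up to `e ^ 2 - 1` -/
def chkAll (e : ℕ) : ℕ → List (ℕ × ℕ × ℕ × ℕ × ℕ) → Bool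
  | m, [] => Nat.ble (e ^ 2) m
  | m, x :: xs => chk e m x && chkAll e (m + 1) xs

def Concl (e m : ℕ) : Prop := m + e + 1 ≠ e ^ 2 → Fam e m ∨ FamB e m ∨ (e = 11 ∧ m = 49)

lemma chk_sound {e m : ℕ} {x : ℕ × ℕ × ℕ × ℕ × ℕ} (h : chk e m x = true) : Concl e m := by
  intro hne
  unfold chk at h
  split at h
  · obtain ⟨h1, h2, h3, h4, h5, h6, h7, h8, h9⟩ := of_decide_eq_true h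
    exact Or.inl ⟨_, _, _, _, _, _, by omega, by omega, h2, by omega, h4, h5, h6, h7, h8, h9⟩
  · obtain ⟨h1, h2, h3, h6, h7, h8, h9⟩ := of_decide_eq_true h
    exact Or.inr (Or.inl ⟨_, _, _, _, _, by omega, by omega, h2, h3, h6, h7, h8, h9⟩)
  · rcases of_decide_eq_true h with h | h
    · exact absurd h hne
    · exact Or.inr (Or.inr h)

lemma chkAll_sound (e : ℕ) : ∀ (l : List (ℕ × ℕ × ℕ × ℕ × ℕ)) (m0 : ℕ), chkAll e m0 l = true →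
    ∀ m, m0 ≤ m → m < e ^ 2 → Concl e m
  | [], m0, h, m, h1, h2 => by
    have := Nat.le_of_ble_eq_true h
    omega
  | x :: xs, m0, h, m, h1, h2 => by
    rw [chkAll, Bool.and_eq_true] at h
    rcases Nat.eq_or_lt_of_le h1 with h3 | h3
    · subst h3
      exact chk_sound h.1
    · exact chkAll_sound e xs (m0 + 1) h.2 m h3 h2

def T10 : List (ℕ × ℕ × ℕ × ℕ × ℕ) := [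
  (0, 3, 2, 1, 5), (0, 3, 1, 2, 1), (0, 3, 2, 1, 4), (0, 4, 1, 3, 4), (0, 3, 2, 1, 3),
  (0, 4, 1, 3, 2), (0, 3, 2, 1, 2), (0, 4, 1, 3, 0), (0, 3, 2, 1, 1), (0, 4, 3, 1, 4),
  (0, 3, 0, 1, 0), (0, 5, 3, 2, 5), (0, 4, 3, 1, 3), (0, 5, 1, 4, 1), (0, 4, 0, 2, 0),
  (0, 4, 3, 1, 2), (0, 4, 1, 1, 5), (0, 4, 1, 1, 4), (0, 4, 1, 1, 3), (0, 4, 1, 1, 2),
  (0, 4, 1, 1, 1), (0, 4, 0, 1, 0), (0, 5, 2, 1, 5), (0, 5, 1, 2, 3), (0, 5, 2, 1, 4),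
  (0, 5, 1, 2, 1), (0, 5, 2, 1, 3), (0, 5, 1, 1, 5), (0, 5, 1, 1, 4), (0, 5, 1, 1, 3),
  (0, 5, 1, 1, 2), (0, 5, 1, 1, 1), (0, 5, 0, 1, 0), (0, 6, 5, 1, 2), (0, 6, 3, 1, 3),
  (0, 6, 2, 1, 4), (0, 6, 1, 2, 2), (0, 6, 2, 1, 3), (0, 6, 5, 1, 1), (0, 6, 1, 1, 4),
  (0, 6, 1, 1, 3), (0, 6, 1, 1, 2), (0, 6, 1, 1, 1), (0, 6, 1, 1, 0), (0, 7, 2, 2, 3),
  (0, 7, 3, 1, 3), (0, 7, 4, 1, 2), (0, 7, 3, 2, 1), (0, 7, 1, 1, 5), (0, 8, 5, 3, 2),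
  (0, 7, 4, 1, 1), (0, 7, 1, 1, 3), (0, 7, 1, 1, 2), (0, 7, 0, 1, 5), (0, 7, 0, 1, 0),
  (0, 8, 5, 1, 2), (0, 8, 2, 1, 4), (0, 8, 1, 3, 2), (0, 8, 1, 1, 5), (0, 8, 3, 1, 2),
  (0, 8, 1, 1, 4), (0, 8, 2, 1, 2), (0, 8, 3, 1, 1), (0, 8, 0, 1, 5), (0, 8, 0, 1, 4),
  (0, 8, 0, 1, 0), (0, 9, 2, 1, 4), (0, 9, 7, 2, 1), (0, 9, 1, 1, 5), (0, 9, 2, 1, 3),
  (0, 9, 1, 1, 4), (0, 9, 5, 1, 1), (0, 9, 1, 1, 3), (0, 9, 0, 1, 5), (0, 9, 0, 1, 4),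
  (0, 9, 0, 1, 3), (0, 9, 0, 1, 0), (2, 0, 0, 0, 0), (0, 10, 1, 1, 5), (0, 10, 2, 1, 3),
  (0, 10, 1, 1, 4), (0, 10, 0, 7, 0), (0, 10, 1, 1, 3), (0, 10, 0, 1, 5), (0, 10, 0, 1, 4),
  (0, 10, 0, 1, 3), (0, 10, 0, 1, 2), (0, 10, 0, 1, 0)]

def T11 : List (ℕ × ℕ × ℕ × ℕ × ℕ) := [
  (0, 3, 1, 2, 2), (0, 3, 2, 1, 5), (0, 3, 1, 2, 0), (0, 3, 2, 1, 4), (0, 4, 1, 3, 3),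
  (0, 3, 2, 1, 3), (0, 4, 1, 3, 1), (0, 3, 2, 1, 2), (0, 4, 3, 1, 5), (0, 3, 2, 1, 1),
  (0, 5, 1, 4, 4), (0, 3, 0, 1, 0), (0, 5, 1, 4, 2), (0, 4, 2, 2, 1), (0, 4, 3, 1, 3),
  (0, 4, 0, 2, 0), (0, 5, 3, 2, 4), (0, 4, 3, 1, 2), (0, 4, 1, 1, 5), (0, 4, 1, 1, 4),
  (0, 4, 1, 1, 3), (0, 4, 1, 1, 2), (0, 4, 1, 1, 1), (0, 4, 0, 1, 0), (0, 5, 1, 2, 4),
  (0, 5, 2, 1, 5), (0, 5, 1, 2, 2), (0, 5, 2, 1, 4), (0, 5, 0, 2, 0), (0, 5, 2, 1, 3),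
  (0, 5, 1, 1, 5), (0, 5, 1, 1, 4), (0, 5, 1, 1, 3), (0, 5, 1, 1, 2), (0, 5, 1, 1, 1),
  (0, 5, 0, 1, 0), (2, 0, 0, 0, 0), (0, 7, 4, 3, 3), (0, 7, 3, 4, 2), (0, 7, 5, 2, 3),
  (0, 7, 1, 4, 4), (0, 7, 6, 1, 3), (0, 7, 3, 2, 4), (0, 7, 4, 1, 4), (0, 7, 5, 2, 2),
  (0, 7, 3, 2, 3), (0, 7, 2, 2, 4), (0, 7, 3, 1, 4), (0, 7, 2, 2, 3), (0, 7, 5, 2, 1),
  (0, 7, 3, 1, 3), (0, 7, 2, 1, 4), (0, 7, 1, 2, 2), (0, 7, 2, 1, 3), (0, 7, 1, 2, 0),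
  (0, 7, 2, 1, 2), (0, 7, 3, 1, 1), (0, 7, 2, 1, 1), (0, 8, 3, 2, 3), (0, 7, 0, 1, 0),
  (0, 8, 2, 1, 5), (0, 8, 5, 1, 2), (0, 9, 3, 6, 2), (0, 8, 4, 1, 2), (0, 8, 7, 1, 1),
  (0, 8, 1, 1, 5), (0, 8, 5, 1, 1), (0, 8, 2, 1, 2), (0, 8, 1, 1, 3), (0, 8, 1, 1, 2),
  (0, 8, 0, 1, 5), (0, 8, 0, 1, 0), (0, 9, 1, 4, 2), (0, 9, 7, 2, 1), (0, 9, 2, 1, 4),
  (0, 9, 4, 1, 2), (0, 9, 1, 1, 5), (0, 9, 3, 1, 2), (0, 9, 1, 1, 4), (0, 9, 2, 1, 2),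
  (0, 9, 3, 1, 1), (0, 9, 0, 1, 5), (0, 9, 0, 1, 4), (0, 9, 0, 1, 0), (0, 10, 7, 3, 1),
  (0, 10, 2, 1, 4), (0, 10, 9, 1, 1), (0, 10, 1, 1, 5), (0, 10, 2, 1, 3), (0, 10, 1, 1, 4),
  (0, 10, 5, 1, 1), (0, 10, 1, 1, 3), (0, 10, 0, 1, 5), (0, 10, 0, 1, 4), (0, 10, 0, 1, 3),
  (0, 10, 0, 1, 0), (2, 0, 0, 0, 0), (0, 11, 0, 11, 0), (0, 11, 1, 1, 5), (0, 11, 2, 1, 3),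
  (0, 11, 1, 1, 4), (0, 11, 0, 7, 0), (0, 11, 1, 1, 3), (0, 11, 0, 1, 5), (0, 11, 0, 1, 4),
  (0, 11, 0, 1, 3), (0, 11, 0, 1, 2), (0, 11, 0, 1, 0)]

def T12 : List (ℕ × ℕ × ℕ × ℕ × ℕ) := [
  (0, 3, 2, 1, 6), (0, 3, 1, 2, 1), (0, 3, 2, 1, 5), (0, 4, 1, 3, 4), (0, 3, 2, 1, 4),
  (0, 4, 1, 3, 2), (0, 3, 2, 1, 3), (0, 4, 3, 1, 6), (0, 3, 2, 1, 2), (0, 5, 1, 4, 5),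
  (0, 3, 2, 1, 1), (0, 5, 1, 4, 3), (0, 3, 0, 1, 0), (0, 4, 3, 1, 4), (0, 4, 2, 2, 1),
  (0, 5, 3, 2, 5), (0, 4, 3, 1, 3), (0, 6, 1, 5, 6), (0, 5, 4, 1, 5), (0, 4, 1, 1, 6),
  (0, 4, 1, 1, 5), (0, 4, 1, 1, 4), (0, 4, 1, 1, 3), (0, 4, 1, 1, 2), (0, 4, 1, 1, 1),
  (0, 4, 0, 1, 0), (0, 5, 2, 1, 6), (0, 5, 1, 2, 3), (0, 5, 2, 1, 5), (0, 5, 1, 2, 1),
  (0, 5, 2, 1, 4), (0, 6, 5, 1, 4), (0, 5, 1, 1, 6), (0, 5, 1, 1, 5), (0, 5, 1, 1, 4),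
  (0, 5, 1, 1, 3), (0, 5, 1, 1, 2), (0, 5, 1, 1, 1), (0, 5, 0, 1, 0), (0, 6, 2, 1, 6),
  (0, 6, 1, 2, 4), (0, 6, 2, 1, 5), (0, 6, 3, 1, 3), (0, 6, 2, 1, 4), (0, 6, 0, 2, 0),
  (0, 6, 1, 1, 6), (0, 6, 1, 1, 5), (0, 6, 1, 1, 4), (0, 6, 1, 1, 3), (0, 6, 1, 1, 2),
  (0, 6, 1, 1, 1), (0, 6, 0, 1, 0), (0, 7, 3, 1, 4), (0, 7, 1, 2, 5), (0, 7, 2, 1, 5),
  (0, 7, 3, 1, 3), (0, 7, 2, 1, 4), (0, 7, 1, 2, 1), (0, 7, 2, 1, 3), (0, 7, 1, 1, 5),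
  (0, 7, 1, 1, 4), (0, 7, 1, 1, 3), (0, 7, 1, 1, 2), (0, 7, 1, 1, 1), (0, 7, 1, 1, 0),
  (0, 8, 3, 1, 4), (0, 8, 2, 2, 3), (0, 8, 5, 1, 2), (0, 8, 3, 1, 3), (0, 8, 4, 1, 2),
  (0, 8, 1, 1, 6), (0, 8, 3, 1, 2), (0, 8, 5, 1, 1), (0, 8, 1, 1, 4), (0, 8, 1, 1, 3),
  (0, 8, 1, 1, 2), (0, 8, 0, 1, 6), (0, 8, 0, 1, 0), (0, 9, 6, 1, 2), (0, 9, 2, 1, 5),
  (0, 9, 5, 1, 2), (0, 9, 3, 1, 3), (0, 9, 1, 1, 6), (0, 9, 1, 2, 3), (0, 9, 1, 1, 5),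
  (0, 9, 5, 1, 1), (0, 9, 2, 1, 2), (0, 9, 1, 1, 3), (0, 9, 0, 1, 6), (0, 9, 0, 1, 5),
  (0, 9, 0, 1, 0), (0, 10, 2, 1, 5), (0, 10, 4, 2, 2), (0, 10, 5, 1, 2), (0, 10, 1, 1, 6),
  (0, 10, 4, 1, 2), (0, 10, 1, 1, 5), (0, 10, 3, 1, 2), (0, 10, 1, 1, 4), (0, 10, 2, 1, 2),
  (0, 10, 0, 1, 6), (0, 10, 0, 1, 5), (0, 10, 0, 1, 4), (0, 10, 0, 1, 0), (0, 11, 8, 3, 1),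
  (0, 11, 9, 2, 1), (0, 11, 1, 1, 6), (0, 11, 5, 3, 1), (0, 11, 1, 1, 5), (0, 11, 2, 1, 3),
  (0, 11, 1, 1, 4), (0, 11, 5, 1, 1), (0, 11, 0, 1, 6), (0, 11, 0, 1, 5), (0, 11, 0, 1, 4),
  (0, 11, 0, 1, 3), (0, 11, 0, 1, 0), (2, 0, 0, 0, 0), (0, 12, 1, 1, 6), (0, 12, 1, 11, 0),
  (0, 12, 1, 1, 5), (0, 12, 2, 1, 3), (0, 12, 1, 1, 4), (0, 12, 0, 7, 0), (0, 12, 0, 1, 6),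
  (0, 12, 0, 1, 5), (0, 12, 0, 1, 4), (0, 12, 0, 1, 3), (0, 12, 0, 1, 2), (0, 12, 0, 1, 0)]

def T13 : List (ℕ × ℕ × ℕ × ℕ × ℕ) := [
  (0, 3, 1, 2, 2), (0, 3, 2, 1, 6), (0, 3, 1, 2, 0), (0, 3, 2, 1, 5), (0, 4, 1, 3, 3),
  (0, 3, 2, 1, 4), (0, 4, 1, 3, 1), (0, 3, 2, 1, 3), (0, 5, 1, 4, 6), (0, 3, 2, 1, 2),
  (0, 5, 1, 4, 4), (0, 3, 2, 1, 1), (0, 4, 3, 1, 5), (0, 3, 0, 1, 0), (0, 5, 3, 2, 6),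
  (0, 4, 3, 1, 4), (1, 4, 2, 1, 1), (0, 4, 0, 2, 0), (0, 4, 3, 1, 3), (0, 5, 2, 3, 2),
  (0, 5, 3, 2, 4), (0, 4, 1, 1, 6), (0, 4, 1, 1, 5), (0, 4, 1, 1, 4), (0, 4, 1, 1, 3),
  (0, 4, 1, 1, 2), (0, 4, 1, 1, 1), (0, 4, 0, 1, 0), (0, 5, 1, 2, 4), (0, 5, 2, 1, 6),
  (0, 5, 1, 2, 2), (0, 5, 2, 1, 5), (0, 5, 0, 2, 0), (0, 5, 2, 1, 4), (0, 6, 1, 3, 5),
  (0, 5, 1, 1, 6), (0, 5, 1, 1, 5), (0, 5, 1, 1, 4), (0, 5, 1, 1, 3), (0, 5, 1, 1, 2),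
  (0, 5, 1, 1, 1), (0, 5, 0, 1, 0), (0, 6, 1, 2, 5), (0, 6, 2, 1, 6), (0, 6, 1, 2, 3),
  (0, 6, 2, 1, 5), (0, 6, 3, 1, 3), (0, 6, 2, 1, 4), (0, 8, 7, 1, 5), (0, 6, 1, 1, 6),
  (0, 6, 1, 1, 5), (0, 6, 1, 1, 4), (0, 6, 1, 1, 3), (0, 6, 1, 1, 2), (0, 6, 1, 1, 1),
  (0, 6, 0, 1, 0), (0, 8, 3, 3, 5), (0, 8, 4, 2, 5), (0, 8, 5, 1, 5), (0, 8, 6, 2, 3),
  (0, 8, 1, 4, 5), (0, 8, 4, 2, 4), (0, 8, 7, 1, 3), (0, 8, 4, 1, 5), (0, 8, 1, 4, 1),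
  (0, 8, 3, 2, 4), (0, 8, 1, 3, 5), (0, 8, 4, 1, 4), (0, 8, 3, 1, 5), (0, 8, 7, 1, 2),
  (0, 8, 1, 3, 1), (0, 8, 3, 1, 4), (0, 8, 1, 2, 5), (0, 8, 2, 1, 5), (0, 8, 3, 1, 3),
  (0, 8, 2, 1, 4), (0, 8, 7, 1, 1), (0, 8, 2, 1, 3), (0, 8, 5, 1, 1), (0, 8, 2, 1, 2),
  (0, 8, 3, 1, 1), (0, 8, 2, 1, 1), (0, 9, 5, 1, 3), (0, 8, 0, 1, 0), (0, 9, 2, 1, 6),
  (0, 9, 4, 1, 3), (0, 9, 3, 2, 2), (0, 9, 5, 1, 2), (0, 9, 1, 2, 4), (0, 9, 2, 1, 4),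
  (0, 9, 1, 1, 6), (0, 9, 2, 1, 3), (0, 9, 5, 1, 1), (0, 9, 1, 1, 4), (0, 9, 1, 1, 3),
  (0, 9, 1, 1, 2), (0, 9, 0, 1, 6), (0, 9, 0, 1, 0), (0, 10, 3, 2, 3), (0, 10, 4, 1, 3),
  (0, 10, 2, 1, 5), (0, 10, 2, 2, 3), (0, 10, 3, 1, 3), (0, 10, 1, 1, 6), (0, 10, 7, 1, 1),
  (0, 10, 1, 1, 5), (0, 10, 1, 2, 1), (0, 10, 2, 1, 2), (0, 10, 1, 1, 3), (0, 10, 0, 1, 6),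
  (0, 10, 0, 1, 5), (0, 10, 0, 1, 0), (0, 11, 3, 1, 4), (0, 11, 2, 1, 5), (0, 11, 4, 2, 2),
  (0, 11, 5, 1, 2), (0, 11, 1, 1, 6), (0, 11, 4, 1, 2), (0, 11, 1, 1, 5), (0, 11, 3, 1, 2),
  (0, 11, 1, 1, 4), (0, 11, 2, 1, 2), (0, 11, 0, 1, 6), (0, 11, 0, 1, 5), (0, 11, 0, 1, 4),
  (0, 11, 0, 1, 0), (0, 12, 2, 1, 5), (0, 12, 10, 2, 1), (0, 12, 11, 1, 1), (0, 12, 1, 1, 6),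
  (0, 12, 7, 2, 1), (0, 12, 1, 1, 5), (0, 12, 2, 1, 3), (0, 12, 1, 1, 4), (0, 12, 5, 1, 1),
  (0, 12, 0, 1, 6), (0, 12, 0, 1, 5), (0, 12, 0, 1, 4), (0, 12, 0, 1, 3), (0, 12, 0, 1, 0),
  (2, 0, 0, 0, 0), (0, 13, 0, 13, 0), (0, 13, 1, 1, 6), (0, 13, 0, 11, 0), (0, 13, 1, 1, 5),
  (0, 13, 2, 1, 3), (0, 13, 1, 1, 4), (0, 13, 0, 7, 0), (0, 13, 0, 1, 6), (0, 13, 0, 1, 5),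
  (0, 13, 0, 1, 4), (0, 13, 0, 1, 3), (0, 13, 0, 1, 2), (0, 13, 0, 1, 0)]

def T14 : List (ℕ × ℕ × ℕ × ℕ × ℕ) := [
  (0, 3, 2, 1, 7), (0, 3, 1, 2, 1), (0, 3, 2, 1, 6), (0, 4, 1, 3, 4), (0, 3, 2, 1, 5),
  (0, 4, 1, 3, 2), (0, 3, 2, 1, 4), (0, 4, 1, 3, 0), (0, 3, 2, 1, 3), (0, 5, 1, 4, 5),
  (0, 3, 2, 1, 2), (0, 4, 3, 1, 6), (0, 3, 2, 1, 1), (0, 5, 3, 2, 7), (0, 3, 0, 1, 0),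
  (1, 4, 2, 1, 2), (0, 4, 2, 2, 1), (0, 4, 3, 1, 4), (0, 4, 0, 2, 0), (0, 5, 3, 2, 5),
  (0, 4, 3, 1, 3), (0, 6, 1, 5, 2), (0, 4, 1, 1, 7), (0, 4, 1, 1, 6), (0, 4, 1, 1, 5),
  (0, 4, 1, 1, 4), (0, 4, 1, 1, 3), (0, 4, 1, 1, 2), (0, 4, 1, 1, 1), (0, 4, 0, 1, 0),
  (0, 5, 2, 1, 7), (0, 5, 1, 2, 3), (0, 5, 2, 1, 6), (0, 5, 1, 2, 1), (0, 5, 2, 1, 5),
  (0, 6, 1, 3, 6), (0, 5, 2, 1, 4), (0, 5, 1, 1, 7), (0, 5, 1, 1, 6), (0, 5, 1, 1, 5),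
  (0, 5, 1, 1, 4), (0, 5, 1, 1, 3), (0, 5, 1, 1, 2), (0, 5, 1, 1, 1), (0, 5, 0, 1, 0),
  (0, 6, 2, 1, 7), (0, 6, 1, 2, 4), (0, 6, 2, 1, 6), (0, 6, 1, 2, 2), (0, 6, 2, 1, 5),
  (0, 6, 3, 1, 3), (0, 6, 2, 1, 4), (0, 6, 1, 1, 7), (0, 6, 1, 1, 6), (0, 6, 1, 1, 5),
  (0, 6, 1, 1, 4), (0, 6, 1, 1, 3), (0, 6, 1, 1, 2), (0, 6, 1, 1, 1), (0, 6, 0, 1, 0),
  (0, 7, 2, 1, 7), (0, 7, 1, 2, 5), (0, 7, 2, 1, 6), (0, 7, 1, 2, 3), (0, 7, 2, 1, 5),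
  (0, 7, 3, 1, 3), (0, 7, 2, 1, 4), (0, 7, 1, 1, 7), (0, 7, 1, 1, 6), (0, 7, 1, 1, 5),
  (0, 7, 1, 1, 4), (0, 7, 1, 1, 3), (0, 7, 1, 1, 2), (0, 7, 1, 1, 1), (0, 7, 0, 1, 0),
  (0, 8, 7, 1, 2), (0, 8, 1, 2, 6), (0, 8, 2, 1, 6), (0, 8, 1, 2, 4), (0, 8, 2, 1, 5),
  (0, 8, 3, 1, 3), (0, 8, 2, 1, 4), (0, 8, 7, 1, 1), (0, 8, 1, 1, 6), (0, 8, 1, 1, 5),
  (0, 8, 1, 1, 4), (0, 8, 1, 1, 3), (0, 8, 1, 1, 2), (0, 8, 1, 1, 1), (0, 8, 1, 1, 0),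
  (0, 9, 2, 2, 4), (0, 9, 7, 2, 1), (0, 9, 3, 1, 4), (0, 9, 5, 2, 1), (0, 9, 5, 1, 2),
  (0, 9, 3, 1, 3), (0, 9, 1, 1, 7), (0, 10, 3, 3, 4), (0, 9, 3, 1, 2), (0, 9, 1, 1, 5),
  (0, 9, 1, 1, 4), (0, 9, 1, 1, 3), (0, 9, 1, 1, 2), (0, 9, 0, 1, 7), (0, 9, 0, 1, 0),
  (0, 10, 7, 1, 2), (0, 10, 2, 1, 6), (0, 10, 3, 1, 4), (0, 10, 2, 2, 3), (0, 10, 5, 1, 2),
  (0, 10, 1, 1, 7), (0, 10, 2, 1, 4), (0, 10, 1, 1, 6), (0, 10, 2, 1, 3), (0, 10, 5, 1, 1),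
  (0, 10, 1, 1, 4), (0, 10, 1, 1, 3), (0, 10, 0, 1, 7), (0, 10, 0, 1, 6), (0, 10, 0, 1, 0),
  (0, 11, 2, 1, 6), (0, 11, 3, 2, 3), (0, 11, 4, 1, 3), (0, 11, 2, 1, 5), (0, 11, 1, 1, 7),
  (0, 11, 3, 1, 3), (0, 11, 1, 1, 6), (0, 11, 7, 1, 1), (0, 11, 1, 1, 5), (0, 11, 5, 1, 1),
  (0, 11, 2, 1, 2), (0, 11, 0, 1, 7), (0, 11, 0, 1, 6), (0, 11, 0, 1, 5), (0, 11, 0, 1, 0),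
  (0, 12, 7, 1, 2), (0, 12, 3, 1, 4), (0, 12, 2, 1, 5), (0, 12, 1, 1, 7), (0, 12, 5, 1, 2),
  (0, 12, 1, 1, 6), (0, 12, 4, 1, 2), (0, 12, 1, 1, 5), (0, 12, 3, 1, 2), (0, 12, 1, 1, 4),
  (0, 12, 0, 1, 7), (0, 12, 0, 1, 6), (0, 12, 0, 1, 5), (0, 12, 0, 1, 4), (0, 12, 0, 1, 0),
  (0, 13, 3, 1, 4), (0, 13, 2, 1, 5), (0, 13, 1, 1, 7), (0, 13, 7, 3, 1), (0, 13, 1, 1, 6),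
  (0, 13, 9, 1, 1), (0, 13, 1, 1, 5), (0, 13, 2, 1, 3), (0, 13, 1, 1, 4), (0, 13, 0, 1, 7),
  (0, 13, 0, 1, 6), (0, 13, 0, 1, 5), (0, 13, 0, 1, 4), (0, 13, 0, 1, 3), (0, 13, 0, 1, 0),
  (2, 0, 0, 0, 0), (0, 14, 1, 1, 7), (0, 14, 1, 13, 0), (0, 14, 1, 1, 6), (0, 14, 0, 11, 0),
  (0, 14, 1, 1, 5), (0, 14, 2, 1, 3), (0, 14, 1, 1, 4), (0, 14, 0, 1, 7), (0, 14, 0, 1, 6),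
  (0, 14, 0, 1, 5), (0, 14, 0, 1, 4), (0, 14, 0, 1, 3), (0, 14, 0, 1, 2), (0, 14, 0, 1, 0)]

def T15 : List (ℕ × ℕ × ℕ × ℕ × ℕ) := [
  (0, 3, 1, 2, 2), (0, 3, 2, 1, 7), (0, 3, 1, 2, 0), (0, 3, 2, 1, 6), (0, 4, 1, 3, 3),
  (0, 3, 2, 1, 5), (0, 4, 1, 3, 1), (0, 3, 2, 1, 4), (0, 5, 1, 4, 6), (0, 3, 2, 1, 3),
  (0, 4, 3, 1, 7), (0, 3, 2, 1, 2), (0, 5, 1, 4, 2), (0, 3, 2, 1, 1), (0, 5, 1, 4, 0),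
  (0, 3, 0, 1, 0), (0, 4, 3, 1, 5), (0, 4, 2, 2, 1), (0, 5, 3, 2, 6), (0, 4, 3, 1, 4),
  (0, 6, 1, 5, 3), (0, 5, 3, 2, 5), (0, 4, 3, 1, 3), (0, 5, 4, 1, 6), (0, 4, 1, 1, 7),
  (0, 4, 1, 1, 6), (0, 4, 1, 1, 5), (0, 4, 1, 1, 4), (0, 4, 1, 1, 3), (0, 4, 1, 1, 2),
  (0, 4, 1, 1, 1), (0, 4, 0, 1, 0), (0, 5, 1, 2, 4), (0, 5, 2, 1, 7), (0, 5, 1, 2, 2),
  (0, 5, 2, 1, 6), (0, 5, 0, 2, 0), (0, 5, 2, 1, 5), (0, 6, 5, 1, 5), (0, 5, 2, 1, 4),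
  (0, 5, 1, 1, 7), (0, 5, 1, 1, 6), (0, 5, 1, 1, 5), (0, 5, 1, 1, 4), (0, 5, 1, 1, 3),
  (0, 5, 1, 1, 2), (0, 5, 1, 1, 1), (0, 5, 0, 1, 0), (0, 6, 3, 1, 5), (0, 6, 2, 1, 7),
  (0, 6, 1, 2, 3), (0, 6, 2, 1, 6), (0, 6, 1, 2, 1), (0, 6, 2, 1, 5), (0, 6, 3, 1, 3),
  (0, 6, 2, 1, 4), (0, 6, 1, 1, 7), (0, 6, 1, 1, 6), (0, 6, 1, 1, 5), (0, 6, 1, 1, 4),
  (0, 6, 1, 1, 3), (0, 6, 1, 1, 2), (0, 6, 1, 1, 1), (0, 6, 0, 1, 0), (0, 7, 3, 1, 5),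
  (0, 7, 2, 1, 7), (0, 7, 1, 2, 4), (0, 7, 2, 1, 6), (0, 7, 1, 2, 2), (0, 7, 2, 1, 5),
  (0, 7, 3, 1, 3), (0, 7, 2, 1, 4), (0, 7, 1, 1, 7), (0, 7, 1, 1, 6), (0, 7, 1, 1, 5),
  (0, 7, 1, 1, 4), (0, 7, 1, 1, 3), (0, 7, 1, 1, 2), (0, 7, 1, 1, 1), (0, 7, 0, 1, 0),
  (0, 9, 4, 2, 6), (0, 9, 5, 1, 6), (0, 9, 3, 3, 5), (0, 9, 7, 2, 3), (0, 9, 4, 2, 5),
  (0, 9, 2, 3, 6), (0, 9, 5, 1, 5), (0, 9, 4, 1, 6), (0, 9, 4, 2, 4), (0, 9, 3, 2, 5),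
  (0, 9, 7, 2, 2), (0, 9, 4, 1, 5), (0, 9, 2, 2, 6), (0, 9, 3, 1, 6), (0, 9, 2, 2, 5),
  (0, 9, 4, 1, 4), (0, 9, 3, 1, 5), (0, 9, 7, 2, 1), (0, 9, 1, 2, 6), (0, 9, 2, 1, 6),
  (0, 9, 1, 2, 4), (0, 9, 2, 1, 5), (0, 9, 3, 1, 3), (0, 9, 2, 1, 4), (0, 9, 1, 2, 0),
  (0, 9, 2, 1, 3), (0, 9, 5, 1, 1), (0, 9, 2, 1, 2), (0, 9, 3, 1, 1), (0, 9, 2, 1, 1),
  (0, 10, 5, 3, 1), (0, 9, 0, 1, 0), (0, 10, 2, 1, 7), (0, 10, 7, 1, 2), (0, 11, 6, 2, 4),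
  (0, 10, 4, 1, 3), (0, 10, 1, 2, 5), (0, 10, 2, 1, 5), (0, 10, 9, 1, 1), (0, 10, 1, 1, 7),
  (0, 10, 7, 1, 1), (0, 10, 2, 1, 3), (0, 10, 1, 1, 5), (0, 10, 1, 1, 4), (0, 10, 1, 1, 3),
  (0, 10, 1, 1, 2), (0, 10, 0, 1, 7), (0, 10, 0, 1, 0), (0, 11, 5, 2, 2), (0, 11, 7, 1, 2),
  (0, 11, 2, 1, 6), (0, 11, 3, 1, 4), (0, 11, 2, 2, 3), (0, 11, 10, 1, 1), (0, 11, 1, 1, 7),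
  (0, 11, 2, 1, 4), (0, 11, 1, 1, 6), (0, 11, 2, 1, 3), (0, 11, 0, 2, 0), (0, 11, 1, 1, 4),
  (0, 11, 1, 1, 3), (0, 11, 0, 1, 7), (0, 11, 0, 1, 6), (0, 11, 0, 1, 0), (0, 12, 5, 1, 3),
  (0, 12, 2, 1, 6), (0, 12, 3, 2, 3), (0, 12, 4, 1, 3), (0, 12, 2, 1, 5), (0, 12, 1, 1, 7),
  (0, 12, 3, 1, 3), (0, 12, 1, 1, 6), (0, 12, 1, 2, 3), (0, 12, 1, 1, 5), (0, 12, 5, 1, 1),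
  (0, 12, 2, 1, 2), (0, 12, 0, 1, 7), (0, 12, 0, 1, 6), (0, 12, 0, 1, 5), (0, 12, 0, 1, 0),
  (0, 13, 2, 1, 6), (0, 13, 7, 1, 2), (0, 13, 3, 1, 4), (0, 13, 2, 1, 5), (0, 13, 1, 1, 7),
  (0, 13, 5, 1, 2), (0, 13, 1, 1, 6), (0, 13, 4, 1, 2), (0, 13, 1, 1, 5), (0, 13, 3, 1, 2),
  (0, 13, 1, 1, 4), (0, 13, 0, 1, 7), (0, 13, 0, 1, 6), (0, 13, 0, 1, 5), (0, 13, 0, 1, 4),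
  (0, 13, 0, 1, 0), (0, 14, 11, 3, 1), (0, 14, 3, 1, 4), (0, 14, 2, 1, 5), (0, 14, 1, 1, 7),
  (0, 14, 9, 2, 1), (0, 14, 1, 1, 6), (0, 14, 9, 1, 1), (0, 14, 1, 1, 5), (0, 14, 2, 1, 3),
  (0, 14, 1, 1, 4), (0, 14, 0, 1, 7), (0, 14, 0, 1, 6), (0, 14, 0, 1, 5), (0, 14, 0, 1, 4),
  (0, 14, 0, 1, 3), (0, 14, 0, 1, 0), (2, 0, 0, 0, 0), (0, 15, 2, 1, 5), (0, 15, 1, 1, 7),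
  (0, 15, 0, 13, 0), (0, 15, 1, 1, 6), (0, 15, 0, 11, 0), (0, 15, 1, 1, 5), (0, 15, 2, 1, 3),
  (0, 15, 1, 1, 4), (0, 15, 0, 1, 7), (0, 15, 0, 1, 6), (0, 15, 0, 1, 5), (0, 15, 0, 1, 4),
  (0, 15, 0, 1, 3), (0, 15, 0, 1, 2), (0, 15, 0, 1, 0)]

def T16 : List (ℕ × ℕ × ℕ × ℕ × ℕ) := [
  (0, 3, 2, 1, 8), (0, 3, 1, 2, 1), (0, 3, 2, 1, 7), (0, 4, 1, 3, 4), (0, 3, 2, 1, 6),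
  (0, 4, 1, 3, 2), (0, 3, 2, 1, 5), (0, 4, 1, 3, 0), (0, 3, 2, 1, 4), (0, 4, 3, 1, 8),
  (0, 3, 2, 1, 3), (0, 5, 1, 4, 3), (0, 3, 2, 1, 2), (0, 5, 1, 4, 1), (0, 3, 2, 1, 1),
  (0, 4, 3, 1, 6), (0, 3, 0, 1, 0), (0, 5, 3, 2, 7), (0, 4, 3, 1, 5), (0, 6, 1, 5, 4),
  (0, 4, 0, 2, 0), (0, 4, 3, 1, 4), (0, 5, 4, 1, 7), (0, 5, 3, 2, 5), (0, 4, 3, 1, 3),
  (0, 4, 1, 1, 8), (0, 4, 1, 1, 7), (0, 4, 1, 1, 6), (0, 4, 1, 1, 5), (0, 4, 1, 1, 4),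
  (0, 4, 1, 1, 3), (0, 4, 1, 1, 2), (0, 4, 1, 1, 1), (0, 4, 0, 1, 0), (0, 5, 2, 1, 8),
  (0, 5, 1, 2, 3), (0, 5, 2, 1, 7), (0, 5, 1, 2, 1), (0, 5, 2, 1, 6), (0, 6, 1, 3, 6),
  (0, 5, 2, 1, 5), (0, 6, 1, 3, 4), (0, 5, 1, 1, 8), (0, 5, 1, 1, 7), (0, 5, 1, 1, 6),
  (0, 5, 1, 1, 5), (0, 5, 1, 1, 4), (0, 5, 1, 1, 3), (0, 5, 1, 1, 2), (0, 5, 1, 1, 1),
  (0, 5, 0, 1, 0), (0, 6, 2, 1, 8), (0, 6, 3, 1, 5), (0, 6, 2, 1, 7), (0, 6, 1, 2, 2),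
  (0, 6, 2, 1, 6), (0, 6, 0, 2, 0), (0, 6, 2, 1, 5), (0, 6, 3, 1, 3), (0, 6, 1, 1, 8),
  (0, 6, 1, 1, 7), (0, 6, 1, 1, 6), (0, 6, 1, 1, 5), (0, 6, 1, 1, 4), (0, 6, 1, 1, 3),
  (0, 6, 1, 1, 2), (0, 6, 1, 1, 1), (0, 6, 0, 1, 0), (0, 7, 2, 1, 8), (0, 7, 3, 1, 5),
  (0, 7, 2, 1, 7), (0, 7, 1, 2, 3), (0, 7, 2, 1, 6), (0, 7, 1, 2, 1), (0, 7, 2, 1, 5),
  (0, 7, 3, 1, 3), (0, 7, 1, 1, 8), (0, 7, 1, 1, 7), (0, 7, 1, 1, 6), (0, 7, 1, 1, 5),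
  (0, 7, 1, 1, 4), (0, 7, 1, 1, 3), (0, 7, 1, 1, 2), (0, 7, 1, 1, 1), (0, 7, 0, 1, 0),
  (0, 8, 2, 1, 8), (0, 8, 3, 1, 5), (0, 8, 2, 1, 7), (0, 8, 1, 2, 4), (0, 8, 2, 1, 6),
  (0, 8, 1, 2, 2), (0, 8, 2, 1, 5), (0, 8, 3, 1, 3), (0, 8, 1, 1, 8), (0, 8, 1, 1, 7),
  (0, 8, 1, 1, 6), (0, 8, 1, 1, 5), (0, 8, 1, 1, 4), (0, 8, 1, 1, 3), (0, 8, 1, 1, 2),
  (0, 8, 1, 1, 1), (0, 8, 0, 1, 0), (0, 9, 4, 1, 4), (0, 9, 3, 1, 5), (0, 9, 2, 1, 7),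
  (0, 9, 1, 2, 5), (0, 9, 2, 1, 6), (0, 9, 1, 2, 3), (0, 9, 2, 1, 5), (0, 9, 3, 1, 3),
  (0, 9, 2, 1, 4), (0, 9, 1, 1, 7), (0, 9, 1, 1, 6), (0, 9, 1, 1, 5), (0, 9, 1, 1, 4),
  (0, 9, 1, 1, 3), (0, 9, 1, 1, 2), (0, 9, 1, 1, 1), (0, 9, 1, 1, 0), (0, 10, 4, 1, 4),
  (0, 10, 3, 1, 5), (0, 10, 7, 1, 2), (0, 10, 2, 2, 3), (0, 10, 3, 1, 4), (0, 10, 2, 2, 2),
  (0, 10, 5, 1, 2), (0, 10, 1, 1, 8), (0, 10, 4, 1, 2), (0, 10, 7, 1, 1), (0, 10, 1, 1, 6),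
  (0, 10, 1, 1, 5), (0, 10, 1, 1, 4), (0, 10, 1, 1, 3), (0, 10, 1, 1, 2), (0, 10, 0, 1, 8),
  (0, 10, 0, 1, 0), (0, 11, 8, 1, 2), (0, 11, 2, 1, 7), (0, 11, 7, 1, 2), (0, 11, 7, 2, 1),
  (0, 11, 3, 1, 4), (0, 11, 1, 2, 5), (0, 11, 1, 1, 8), (0, 11, 3, 1, 3), (0, 11, 1, 1, 7),
  (0, 11, 7, 1, 1), (0, 11, 2, 1, 3), (0, 11, 1, 1, 5), (0, 11, 1, 1, 4), (0, 11, 1, 1, 3),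
  (0, 11, 0, 1, 8), (0, 11, 0, 1, 7), (0, 11, 0, 1, 0), (0, 12, 2, 1, 7), (0, 12, 5, 1, 3),
  (0, 12, 7, 1, 2), (0, 12, 2, 1, 6), (0, 12, 3, 1, 4), (0, 12, 1, 1, 8), (0, 12, 5, 1, 2),
  (0, 12, 1, 1, 7), (0, 12, 2, 1, 4), (0, 12, 1, 1, 6), (0, 12, 2, 1, 3), (0, 12, 5, 1, 1),
  (0, 12, 1, 1, 4), (0, 12, 0, 1, 8), (0, 12, 0, 1, 7), (0, 12, 0, 1, 6), (0, 12, 0, 1, 0),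
  (0, 13, 3, 1, 5), (0, 13, 5, 1, 3), (0, 13, 2, 1, 6), (0, 13, 3, 2, 3), (0, 13, 1, 1, 8),
  (0, 13, 2, 1, 5), (0, 13, 1, 1, 7), (0, 13, 3, 1, 3), (0, 13, 1, 1, 6), (0, 13, 7, 1, 1),
  (0, 13, 1, 1, 5), (0, 13, 5, 1, 1), (0, 13, 0, 1, 8), (0, 13, 0, 1, 7), (0, 13, 0, 1, 6),
  (0, 13, 0, 1, 5), (0, 13, 0, 1, 0), (0, 14, 8, 1, 2), (0, 14, 2, 1, 6), (0, 14, 7, 1, 2),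
  (0, 14, 1, 1, 8), (0, 14, 2, 1, 5), (0, 14, 1, 1, 7), (0, 14, 5, 1, 2), (0, 14, 1, 1, 6),
  (0, 14, 4, 1, 2), (0, 14, 1, 1, 5), (0, 14, 3, 1, 2), (0, 14, 0, 1, 8), (0, 14, 0, 1, 7),
  (0, 14, 0, 1, 6), (0, 14, 0, 1, 5), (0, 14, 0, 1, 4), (0, 14, 0, 1, 0), (0, 15, 2, 1, 6),
  (0, 15, 13, 2, 1), (0, 15, 1, 1, 8), (0, 15, 2, 1, 5), (0, 15, 1, 1, 7), (0, 15, 11, 1, 1),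
  (0, 15, 1, 1, 6), (0, 15, 9, 1, 1), (0, 15, 1, 1, 5), (0, 15, 2, 1, 3), (0, 15, 0, 1, 8),
  (0, 15, 0, 1, 7), (0, 15, 0, 1, 6), (0, 15, 0, 1, 5), (0, 15, 0, 1, 4), (0, 15, 0, 1, 3),
  (0, 15, 0, 1, 0), (2, 0, 0, 0, 0), (0, 16, 1, 1, 8), (0, 16, 2, 1, 5), (0, 16, 1, 1, 7),
  (0, 16, 0, 13, 0), (0, 16, 1, 1, 6), (0, 16, 0, 11, 0), (0, 16, 1, 1, 5), (0, 16, 2, 1, 3),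
  (0, 16, 0, 1, 8), (0, 16, 0, 1, 7), (0, 16, 0, 1, 6), (0, 16, 0, 1, 5), (0, 16, 0, 1, 4),
  (0, 16, 0, 1, 3), (0, 16, 0, 1, 2), (0, 16, 0, 1, 0)]

def T17 : List (ℕ × ℕ × ℕ × ℕ × ℕ) := [
  (0, 3, 1, 2, 2), (0, 3, 2, 1, 8), (0, 3, 1, 2, 0), (0, 3, 2, 1, 7), (0, 4, 1, 3, 3),
  (0, 3, 2, 1, 6), (0, 4, 1, 3, 1), (0, 3, 2, 1, 5), (0, 5, 1, 4, 6), (0, 3, 2, 1, 4),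
  (0, 5, 1, 4, 4), (0, 3, 2, 1, 3), (0, 5, 1, 4, 2), (0, 3, 2, 1, 2), (0, 4, 3, 1, 7),
  (0, 3, 2, 1, 1), (0, 5, 3, 2, 8), (0, 3, 0, 1, 0), (0, 6, 1, 5, 5), (0, 4, 2, 2, 1),
  (0, 4, 3, 1, 5), (0, 4, 0, 2, 0), (0, 5, 3, 2, 6), (0, 4, 3, 1, 4), (1, 5, 2, 2, 2),
  (0, 5, 4, 1, 7), (0, 4, 3, 1, 3), (0, 4, 1, 1, 8), (0, 4, 1, 1, 7), (0, 4, 1, 1, 6),
  (0, 4, 1, 1, 5), (0, 4, 1, 1, 4), (0, 4, 1, 1, 3), (0, 4, 1, 1, 2), (0, 4, 1, 1, 1),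
  (0, 4, 0, 1, 0), (0, 5, 1, 2, 4), (0, 5, 2, 1, 8), (0, 5, 1, 2, 2), (0, 5, 2, 1, 7),
  (0, 5, 0, 2, 0), (0, 5, 2, 1, 6), (0, 6, 1, 3, 5), (0, 5, 2, 1, 5), (0, 6, 1, 3, 3),
  (0, 5, 1, 1, 8), (0, 5, 1, 1, 7), (0, 5, 1, 1, 6), (0, 5, 1, 1, 5), (0, 5, 1, 1, 4),
  (0, 5, 1, 1, 3), (0, 5, 1, 1, 2), (0, 5, 1, 1, 1), (0, 5, 0, 1, 0), (0, 6, 1, 2, 5),
  (0, 6, 2, 1, 8), (0, 6, 3, 1, 5), (0, 6, 2, 1, 7), (0, 6, 1, 2, 1), (0, 6, 2, 1, 6),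
  (0, 7, 3, 2, 6), (0, 6, 2, 1, 5), (0, 6, 3, 1, 3), (0, 6, 1, 1, 8), (0, 6, 1, 1, 7),
  (0, 6, 1, 1, 6), (0, 6, 1, 1, 5), (0, 6, 1, 1, 4), (0, 6, 1, 1, 3), (0, 6, 1, 1, 2),
  (0, 6, 1, 1, 1), (0, 6, 0, 1, 0), (0, 7, 1, 2, 6), (0, 7, 2, 1, 8), (0, 7, 3, 1, 5),
  (0, 7, 2, 1, 7), (0, 7, 1, 2, 2), (0, 7, 2, 1, 6), (0, 7, 0, 2, 0), (0, 7, 2, 1, 5),
  (0, 7, 3, 1, 3), (0, 7, 1, 1, 8), (0, 7, 1, 1, 7), (0, 7, 1, 1, 6), (0, 7, 1, 1, 5),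
  (0, 7, 1, 1, 4), (0, 7, 1, 1, 3), (0, 7, 1, 1, 2), (0, 7, 1, 1, 1), (0, 7, 0, 1, 0),
  (0, 8, 1, 2, 7), (0, 8, 2, 1, 8), (0, 8, 3, 1, 5), (0, 8, 2, 1, 7), (0, 8, 1, 2, 3),
  (0, 8, 2, 1, 6), (0, 8, 1, 2, 1), (0, 8, 2, 1, 5), (0, 8, 3, 1, 3), (0, 8, 1, 1, 8),
  (0, 8, 1, 1, 7), (0, 8, 1, 1, 6), (0, 8, 1, 1, 5), (0, 8, 1, 1, 4), (0, 8, 1, 1, 3),
  (0, 8, 1, 1, 2), (0, 8, 1, 1, 1), (0, 8, 0, 1, 0), (0, 10, 5, 1, 7), (0, 10, 3, 3, 6),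
  (0, 10, 5, 2, 5), (0, 10, 4, 2, 6), (0, 10, 3, 3, 5), (0, 10, 5, 1, 6), (0, 10, 3, 2, 7),
  (0, 10, 4, 1, 7), (0, 10, 9, 1, 3), (0, 10, 3, 2, 6), (0, 10, 5, 1, 5), (0, 10, 4, 1, 6),
  (0, 10, 3, 2, 5), (0, 10, 2, 2, 7), (0, 10, 3, 1, 7), (0, 10, 4, 1, 5), (0, 10, 1, 3, 3),
  (0, 10, 3, 1, 6), (0, 10, 3, 2, 3), (0, 10, 4, 1, 4), (0, 10, 3, 1, 5), (0, 10, 2, 1, 7),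
  (0, 10, 1, 2, 5), (0, 10, 2, 1, 6), (0, 10, 1, 2, 3), (0, 10, 2, 1, 5), (0, 10, 3, 1, 3),
  (0, 10, 2, 1, 4), (0, 10, 7, 1, 1), (0, 10, 2, 1, 3), (0, 10, 5, 1, 1), (0, 10, 2, 1, 2),
  (0, 10, 3, 1, 1), (0, 10, 2, 1, 1), (0, 11, 3, 2, 4), (0, 10, 0, 1, 0), (0, 11, 2, 1, 8),
  (0, 11, 4, 1, 4), (0, 11, 5, 1, 3), (0, 11, 7, 1, 2), (0, 11, 1, 2, 6), (0, 11, 2, 1, 6),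
  (0, 11, 1, 2, 4), (0, 11, 2, 1, 5), (0, 11, 1, 1, 8), (0, 11, 2, 1, 4), (0, 11, 7, 1, 1),
  (0, 11, 1, 1, 6), (0, 11, 1, 1, 5), (0, 11, 1, 1, 4), (0, 11, 1, 1, 3), (0, 11, 1, 1, 2),
  (0, 11, 0, 1, 8), (0, 11, 0, 1, 0), (0, 12, 1, 3, 5), (0, 12, 4, 1, 4), (0, 12, 2, 1, 7),
  (0, 12, 7, 1, 2), (0, 12, 7, 2, 1), (0, 12, 3, 1, 4), (0, 12, 11, 1, 1), (0, 12, 1, 1, 8),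
  (0, 12, 3, 1, 3), (0, 12, 1, 1, 7), (0, 12, 7, 1, 1), (0, 12, 2, 1, 3), (0, 12, 1, 1, 5),
  (0, 12, 1, 1, 4), (0, 12, 1, 1, 3), (0, 12, 0, 1, 8), (0, 12, 0, 1, 7), (0, 12, 0, 1, 0),
  (0, 13, 3, 2, 4), (0, 13, 2, 1, 7), (0, 13, 5, 1, 3), (0, 13, 3, 2, 3), (0, 13, 2, 1, 6),
  (0, 13, 3, 1, 4), (0, 13, 1, 1, 8), (0, 13, 5, 1, 2), (0, 13, 1, 1, 7), (0, 13, 2, 1, 4),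
  (0, 13, 1, 1, 6), (0, 13, 2, 1, 3), (0, 13, 5, 1, 1), (0, 13, 1, 1, 4), (0, 13, 0, 1, 8),
  (0, 13, 0, 1, 7), (0, 13, 0, 1, 6), (0, 13, 0, 1, 0), (0, 14, 2, 1, 7), (0, 14, 3, 1, 5),
  (0, 14, 5, 1, 3), (0, 14, 2, 1, 6), (0, 14, 13, 1, 1), (0, 14, 1, 1, 8), (0, 14, 2, 1, 5),
  (0, 14, 1, 1, 7), (0, 14, 3, 1, 3), (0, 14, 1, 1, 6), (0, 14, 7, 1, 1), (0, 14, 1, 1, 5),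
  (0, 14, 5, 1, 1), (0, 14, 0, 1, 8), (0, 14, 0, 1, 7), (0, 14, 0, 1, 6), (0, 14, 0, 1, 5),
  (0, 14, 0, 1, 0), (0, 15, 3, 1, 5), (0, 15, 8, 1, 2), (0, 15, 2, 1, 6), (0, 15, 7, 1, 2),
  (0, 15, 1, 1, 8), (0, 15, 2, 1, 5), (0, 15, 1, 1, 7), (0, 15, 5, 1, 2), (0, 15, 1, 1, 6),
  (0, 15, 4, 1, 2), (0, 15, 1, 1, 5), (0, 15, 3, 1, 2), (0, 15, 0, 1, 8), (0, 15, 0, 1, 7),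
  (0, 15, 0, 1, 6), (0, 15, 0, 1, 5), (0, 15, 0, 1, 4), (0, 15, 0, 1, 0), (0, 16, 13, 3, 1),
  (0, 16, 2, 1, 6), (0, 16, 15, 1, 1), (0, 16, 1, 1, 8), (0, 16, 2, 1, 5), (0, 16, 1, 1, 7),
  (0, 16, 11, 1, 1), (0, 16, 1, 1, 6), (0, 16, 9, 1, 1), (0, 16, 1, 1, 5), (0, 16, 2, 1, 3),
  (0, 16, 0, 1, 8), (0, 16, 0, 1, 7), (0, 16, 0, 1, 6), (0, 16, 0, 1, 5), (0, 16, 0, 1, 4),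
  (0, 16, 0, 1, 3), (0, 16, 0, 1, 0), (2, 0, 0, 0, 0), (0, 17, 0, 17, 0), (0, 17, 1, 1, 8),
  (0, 17, 2, 1, 5), (0, 17, 1, 1, 7), (0, 17, 0, 13, 0), (0, 17, 1, 1, 6), (0, 17, 0, 11, 0),
  (0, 17, 1, 1, 5), (0, 17, 2, 1, 3), (0, 17, 0, 1, 8), (0, 17, 0, 1, 7), (0, 17, 0, 1, 6),
  (0, 17, 0, 1, 5), (0, 17, 0, 1, 4), (0, 17, 0, 1, 3), (0, 17, 0, 1, 2), (0, 17, 0, 1, 0)]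

end ModCVS

open ModCVS in
theorem cvs : StmCVS := by
  intro e m h1 h2 h3 h4 h5
  interval_cases e
  · exact chkAll_sound 10 T10 12 (by decide +kernel) m h3 h4 h5
  · exact chkAll_sound 11 T11 13 (by decide +kernel) m h3 h4 h5
  · exact chkAll_sound 12 T12 14 (by decide +kernel) m h3 h4 h5
  · exact chkAll_sound 13 T13 15 (by decide +kernel) m h3 h4 h5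
  · exact chkAll_sound 14 T14 16 (by decide +kernel) m h3 h4 h5
  · exact chkAll_sound 15 T15 17 (by decide +kernel) m h3 h4 h5
  · exact chkAll_sound 16 T16 18 (by decide +kernel) m h3 h4 h5
  · exact chkAll_sound 17 T17 19 (by decide +kernel) m h3 h4 h5

end H28.EG
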