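import Pool.Agent.T6.H28.EG.Defs4

/-! Project EG, module CVT: the covering for `2 ≤ e < 10`, from a table of witnesses. -/

namespace H28.EG

namespace ModCVT

/-- the exceptions -/
def Ex : List (ℕ × ℕ) := [(3, 5), (4, 11), (5, 7), (5, 8), (5, 9), (5, 10), (5, 11),
    (6, 29), (7, 13), (7, 15), (7, 17), (7, 18), (7, 19), (8, 41)]

/-- check of one witness `(t, g, r, s, K)` -/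
def chk (e m : ℕ) : ℕ × ℕ × ℕ × ℕ × ℕ → Bool
  | (0, g, r, s, K) => decide (g ≤ e ∧ 1 ≤ s ∧ r + s ≤ g ∧ g - r - s ≠ 1 ∧ g - r - s ≠ e + 1 - g ∧
      e + 1 - g ≠ g ∧ K ≠ e + 1 - g ∧ 2 * K ≤ e ∧ m + r * K + s * max (e + 1 - g) K = g * e)
  | (1, g, r, s, K) => decide (g + 1 ≤ e ∧ 1 ≤ s ∧ 1 + r + s = g ∧
      e + 1 - g ≠ g ∧ K ≠ e + 1 - g ∧ 2 * K ≤ e ∧
      m + r * K + s * max (e + 1 - g) K + (e + 1 - g - 1) = g * e)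
  | _ => decide ((e, m) ∈ Ex)

/-- check of a list of witnesses for `m, m + 1, ...` up to `e ^ 2 - 1` -/
def chkAll (e : ℕ) : ℕ → List (ℕ × ℕ × ℕ × ℕ × ℕ) → Bool
  | m, [] => Nat.ble (e ^ 2) m
  | m, x :: xs => chk e m x && chkAll e (m + 1) xs

def Concl (e m : ℕ) : Prop := Fam e m ∨ FamB e m ∨ (e, m) ∈ Ex

lemma chk_sound {e m : ℕ} {x : ℕ × ℕ × ℕ × ℕ × ℕ} (h : chk e m x = true) : Concl e m := by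
  unfold chk at h
  split at h
  · obtain ⟨h1, h2, h3, h4, h5, h6, h7, h8, h9⟩ := of_decide_eq_true h
    exact Or.inl ⟨_, _, _, _, _, _, by omega, by omega, h2, by omega, h4, h5, h6, h7, h8, h9⟩
  · obtain ⟨h1, h2, h3, h6, h7, h8, h9⟩ := of_decide_eq_true h
    exact Or.inr (Or.inl ⟨_, _, _, _, _, by omega, by omega, h2, h3, h6, h7, h8, h9⟩)
  · exact Or.inr (Or.inr (of_decide_eq_true h))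

lemma chkAll_sound (e : ℕ) : ∀ (l : List (ℕ × ℕ × ℕ × ℕ × ℕ)) (m0 : ℕ), chkAll e m0 l = true →
    ∀ m, m0 ≤ m → m < e ^ 2 → Concl e m
  | [], m0, h, m, h1, h2 => by
    have := Nat.le_of_ble_eq_true h
    omega
  | x :: xs, m0, h, m, h1, h2 => by
    rw [chkAll, Bool.and_eq_true] at h
    rcases Nat.eq_or_lt_of_le h1 with h3 | h3
    · subst h3
      exact chk_sound h.1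
    · exact chkAll_sound e xs (m0 + 1) h.2 m h3 h2

def T2 : List (ℕ × ℕ × ℕ × ℕ × ℕ) := []

def T3 : List (ℕ × ℕ × ℕ × ℕ × ℕ) := [
  (2, 0, 0, 0, 0), (0, 3, 0, 3, 0), (0, 3, 1, 2, 0), (0, 3, 0, 1, 0)]

def T4 : List (ℕ × ℕ × ℕ × ℕ × ℕ) := [
  (0, 3, 0, 3, 0), (0, 3, 1, 2, 1), (0, 3, 2, 1, 1), (1, 3, 1, 1, 0), (0, 3, 2, 1, 0),
  (2, 0, 0, 0, 0), (0, 4, 1, 1, 2), (0, 4, 1, 3, 0), (0, 4, 0, 1, 2), (0, 4, 0, 1, 0)]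

def T5 : List (ℕ × ℕ × ℕ × ℕ × ℕ) := [
  (2, 0, 0, 0, 0), (2, 0, 0, 0, 0), (2, 0, 0, 0, 0), (2, 0, 0, 0, 0), (2, 0, 0, 0, 0),
  (0, 4, 0, 4, 0), (0, 4, 1, 3, 1), (0, 4, 2, 2, 1), (0, 4, 3, 1, 1), (0, 4, 2, 2, 0),
  (1, 4, 2, 1, 0), (0, 4, 0, 1, 0), (0, 5, 2, 1, 2), (0, 5, 0, 5, 0), (0, 5, 1, 1, 2),
  (0, 5, 0, 3, 0), (0, 5, 0, 1, 2), (0, 5, 0, 1, 0)]

def T6 : List (ℕ × ℕ × ℕ × ℕ × ℕ) := [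
  (0, 3, 2, 1, 3), (0, 3, 1, 2, 1), (0, 3, 2, 1, 2), (1, 3, 1, 1, 0), (0, 3, 2, 1, 1),
  (0, 4, 1, 3, 2), (0, 3, 0, 1, 0), (0, 4, 3, 1, 2), (0, 4, 2, 2, 1), (1, 4, 2, 1, 1),
  (0, 4, 3, 1, 1), (0, 4, 1, 1, 2), (0, 4, 1, 1, 1), (0, 4, 1, 1, 0), (0, 5, 2, 3, 1),
  (0, 5, 3, 2, 1), (0, 5, 1, 1, 3), (1, 5, 2, 2, 0), (0, 5, 0, 2, 0), (0, 5, 0, 1, 3),
  (0, 5, 0, 1, 0), (2, 0, 0, 0, 0), (0, 6, 1, 1, 3), (0, 6, 1, 5, 0), (0, 6, 1, 1, 2),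
  (0, 6, 0, 1, 3), (0, 6, 0, 1, 2), (0, 6, 0, 1, 0)]

def T7 : List (ℕ × ℕ × ℕ × ℕ × ℕ) := [
  (0, 3, 1, 2, 2), (0, 3, 2, 1, 3), (0, 3, 1, 2, 0), (0, 3, 2, 1, 2), (2, 0, 0, 0, 0),
  (0, 3, 2, 1, 1), (2, 0, 0, 0, 0), (0, 3, 0, 1, 0), (2, 0, 0, 0, 0), (2, 0, 0, 0, 0),
  (2, 0, 0, 0, 0), (0, 5, 0, 5, 0), (0, 5, 1, 4, 2), (0, 5, 2, 3, 2), (0, 5, 3, 2, 2),
  (0, 5, 4, 1, 2), (1, 5, 2, 2, 1), (0, 5, 3, 2, 1), (0, 5, 1, 2, 2), (0, 5, 2, 1, 2),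
  (0, 5, 1, 2, 0), (0, 5, 2, 1, 1), (0, 6, 1, 5, 1), (0, 5, 0, 1, 0), (0, 6, 2, 1, 3),
  (0, 6, 4, 2, 1), (0, 6, 5, 1, 1), (0, 6, 1, 1, 3), (0, 6, 1, 2, 1), (0, 6, 2, 1, 1),
  (0, 6, 0, 1, 3), (0, 6, 0, 1, 0), (0, 7, 3, 1, 2), (0, 7, 0, 7, 0), (0, 7, 1, 1, 3),
  (0, 7, 0, 5, 0), (0, 7, 1, 1, 2), (0, 7, 0, 1, 3), (0, 7, 0, 1, 2), (0, 7, 0, 1, 0)]

def T8 : List (ℕ × ℕ × ℕ × ℕ × ℕ) := [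
  (0, 3, 2, 1, 4), (0, 3, 1, 2, 1), (0, 3, 2, 1, 3), (0, 4, 1, 3, 4), (0, 3, 2, 1, 2),
  (0, 4, 3, 1, 4), (0, 3, 2, 1, 1), (0, 4, 1, 3, 0), (0, 3, 0, 1, 0), (1, 4, 2, 1, 2),
  (0, 4, 2, 2, 1), (0, 4, 3, 1, 2), (0, 4, 0, 2, 0), (0, 4, 1, 1, 4), (0, 4, 1, 1, 3),
  (0, 4, 1, 1, 2), (0, 4, 1, 1, 1), (0, 4, 0, 1, 0), (0, 5, 4, 1, 2), (0, 5, 1, 2, 3),
  (0, 5, 2, 1, 3), (0, 5, 1, 2, 1), (0, 5, 2, 1, 2), (0, 5, 1, 1, 3), (0, 5, 1, 1, 2),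
  (0, 5, 1, 1, 1), (0, 5, 1, 1, 0), (0, 6, 1, 3, 2), (0, 6, 2, 2, 2), (0, 6, 3, 1, 2),
  (0, 6, 1, 1, 4), (2, 0, 0, 0, 0), (0, 6, 3, 1, 1), (0, 6, 1, 1, 2), (0, 6, 0, 1, 4),
  (0, 6, 0, 1, 0), (0, 7, 4, 3, 1), (0, 7, 2, 1, 3), (0, 7, 1, 1, 4), (0, 7, 1, 3, 1),
  (0, 7, 1, 1, 3), (0, 7, 3, 1, 1), (0, 7, 0, 1, 4), (0, 7, 0, 1, 3), (0, 7, 0, 1, 0),
  (0, 8, 2, 1, 3), (0, 8, 1, 1, 4), (0, 8, 1, 7, 0), (0, 8, 1, 1, 3), (0, 8, 0, 5, 0),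
  (0, 8, 0, 1, 4), (0, 8, 0, 1, 3), (0, 8, 0, 1, 2), (0, 8, 0, 1, 0)]

def T9 : List (ℕ × ℕ × ℕ × ℕ × ℕ) := [
  (0, 3, 1, 2, 2), (0, 3, 2, 1, 4), (0, 3, 1, 2, 0), (0, 3, 2, 1, 3), (0, 4, 1, 3, 3),
  (0, 3, 2, 1, 2), (0, 4, 1, 3, 1), (0, 3, 2, 1, 1), (1, 4, 2, 1, 3), (0, 3, 0, 1, 0),
  (0, 4, 3, 1, 3), (0, 4, 2, 2, 1), (1, 4, 2, 1, 1), (0, 4, 3, 1, 2), (1, 4, 2, 1, 0),
  (0, 4, 1, 1, 4), (0, 4, 1, 1, 3), (0, 4, 1, 1, 2), (0, 4, 1, 1, 1), (0, 4, 0, 1, 0),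
  (0, 6, 1, 5, 3), (0, 6, 2, 4, 3), (0, 6, 3, 3, 3), (0, 6, 4, 2, 3), (0, 6, 5, 1, 3),
  (0, 6, 3, 3, 2), (1, 6, 3, 2, 2), (0, 6, 4, 2, 2), (0, 6, 1, 3, 3), (0, 6, 5, 1, 2),
  (0, 6, 3, 1, 3), (0, 6, 2, 2, 2), (0, 6, 1, 2, 3), (0, 6, 2, 1, 3), (0, 6, 5, 1, 1),
  (0, 6, 2, 1, 2), (0, 6, 3, 1, 1), (0, 6, 2, 1, 1), (0, 7, 1, 4, 2), (0, 6, 0, 1, 0),
  (0, 7, 2, 1, 4), (0, 7, 4, 1, 2), (0, 9, 6, 1, 4), (0, 7, 6, 1, 1), (0, 7, 1, 1, 4),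
  (0, 7, 2, 1, 2), (0, 7, 0, 2, 0), (0, 7, 1, 1, 2), (0, 7, 0, 1, 4), (0, 7, 0, 1, 0),
  (0, 8, 5, 3, 1), (0, 8, 6, 2, 1), (0, 8, 2, 1, 3), (0, 8, 1, 1, 4), (0, 8, 3, 2, 1),
  (0, 8, 1, 1, 3), (0, 8, 3, 1, 1), (0, 8, 0, 1, 4), (0, 8, 0, 1, 3), (0, 8, 0, 1, 0),
  (0, 9, 4, 1, 2), (0, 9, 2, 1, 3), (0, 9, 1, 1, 4), (0, 9, 0, 7, 0), (0, 9, 1, 1, 3),
  (0, 9, 0, 5, 0), (0, 9, 0, 1, 4), (0, 9, 0, 1, 3), (0, 9, 0, 1, 2), (0, 9, 0, 1, 0)]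

end ModCVT

open ModCVT in
/-- CVT -/
theorem cvt : StmCVT := by
  intro e m h1 h2 h3 h4
  interval_cases e
  · exact chkAll_sound 2 T2 4 (by decide +kernel) m h3 h4
  · exact chkAll_sound 3 T3 5 (by decide +kernel) m h3 h4
  · exact chkAll_sound 4 T4 6 (by decide +kernel) m h3 h4
  · exact chkAll_sound 5 T5 7 (by decide +kernel) m h3 h4
  · exact chkAll_sound 6 T6 8 (by decide +kernel) m h3 h4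
  · exact chkAll_sound 7 T7 9 (by decide +kernel) m h3 h4
  · exact chkAll_sound 8 T8 10 (by decide +kernel) m h3 h4
  · exact chkAll_sound 9 T9 11 (by decide +kernel) m h3 h4

end H28.EG
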