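import Pool.Agent.T6.H28.EG.Defs4

/-! Project EG, the value `m = 1`. -/

open MvPolynomial

namespace H28.EG

/-- the eigenscheme of `f` has a component of degree `m` -/
def HasComp (f : S) (m : ℕ) : Prop :=
  ∃ w : Fin 3 → ℂ, w ≠ 0 ∧ ∃ h : (pointIdeal w).IsPrime,
      @locLength (pointIdeal w) h (eigenIdeal f) = m

/-- the eigenscheme of `f` has a component of degree at least `2` -/
def NonRed (f : S) : Prop :=
  ∃ w : Fin 3 → ℂ, w ≠ 0 ∧ ∃ h : (pointIdeal w).IsPrime,
      2 ≤ @locLength (pointIdeal w) h (eigenIdeal f)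

/-- M1: a non-reduced finite eigenscheme with a component of degree 1. -/
def StmM1 : Prop := ∀ d : ℕ, 3 ≤ d → ∃ f : S, f.IsHomogeneous d ∧
  {p : Projectivization ℂ (Fin 3 → ℂ) | IsEig f p.rep}.Finite ∧ HasComp f 1 ∧ NonRed f

end H28.EG
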