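import Pool.Agent.T6.H28.EG.Defs

/-! Module KEY: `E0 F` is a product of lines (helper89). -/

set_option autoImplicit false

open MvPolynomial

namespace H28.EG

namespace ModKEY

theorem L_mem (ρ : ℂ) : L ρ ∈ P0 := by
  unfold L P0
  refine Ideal.sub_mem _ (Ideal.subset_span (by simp)) ?_
  exact Ideal.mul_mem_left _ _ (Ideal.subset_span (by simp))

theorem not_dvd (hp : ∀ ρ, Prime (L ρ)) (ρ : ℂ) (o : ℕ) (H : S) (h : OrdIs ρ o H) :
    ¬ L ρ ∣ H := by
  obtain ⟨W, A, rfl, hW⟩ := h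
  intro hd
  have h1 : L ρ ∣ X 2 ^ o * W := by
    have := dvd_sub hd (Dvd.intro A rfl : L ρ ∣ L ρ * A)
    rwa [add_sub_cancel_right] at this
  rcases (hp ρ).dvd_or_dvd h1 with h2 | h2
  · have h3 := (hp ρ).dvd_of_dvd_pow h2
    obtain ⟨q, hq⟩ := h3
    have h4 := congrArg (eval ![0, ρ, 1]) hq
    simp [L] at h4
  · obtain ⟨q, hq⟩ := h2
    apply hW
    rw [hq]
    simp [L]

theorem X0_not_mem : ∀ x : S, x ∈ P0 → eval ![1, 0, 0] x = 0 := by
  intro x hx
  unfold P0 at hx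
  rw [Ideal.mem_span_pair] at hx
  obtain ⟨p, q, rfl⟩ := hx
  simp

theorem len (hA : StmADD) (hO : StmONE) (h : P0.IsPrime) (c : ℂ) (hc : c ≠ 0) (a : ℕ)
    (o : ℂ → ℕ) (H : S) : ∀ rs : List ℂ, (∀ ρ ∈ rs, OrdIs ρ (o ρ) H) →
    @locLength P0 h (Ideal.span {C c * X 0 ^ a * (rs.map L).prod, H}) =
      ((rs.map o).sum : ℕ) := by
  intro rs
  induction rs with
  | nil =>
    intro _
    have hu : C c * X 0 ^ a * (([] : List ℂ).map L).prod ∉ P0 := by
      intro hm
      have := X0_not_mem _ hm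
      simp at this
      exact hc this
    have htop : (Ideal.span {C c * X 0 ^ a * (([] : List ℂ).map L).prod, H}).map
        (algebraMap S (Localization.AtPrime P0)) = ⊤ := by
      refine Ideal.eq_top_of_isUnit_mem _ (Ideal.mem_map_of_mem _
        (Ideal.subset_span (by simp) : C c * X 0 ^ a * (([] : List ℂ).map L).prod ∈ _)) ?_
      exact IsLocalization.map_units (Localization.AtPrime P0)
        (⟨_, hu⟩ : P0.primeCompl)
    have hz : ((([] : List ℂ).map o).sum : ℕ) = 0 := by simp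
    rw [hz]
    unfold locLength
    rw [Nat.cast_zero, Module.length_eq_zero_iff, htop]
    exact Ideal.Quotient.subsingleton_iff.2 rfl
  | cons ρ rs ih =>
    intro hr
    have h1 := ih (fun ρ' hρ' => hr ρ' (List.mem_cons_of_mem _ hρ'))
    have h2 := hO.2.2 h ρ (o ρ) H (hr ρ List.mem_cons_self)
    have h3 := hA P0 h (C c * X 0 ^ a * (rs.map L).prod) (L ρ) H (hO.2.1 ρ) (L_mem ρ)
      (not_dvd hO.2.1 ρ (o ρ) H (hr ρ List.mem_cons_self))
    rw [h1, h2] at h3
    have h4 : C c * X 0 ^ a * ((ρ :: rs).map L).prod = C c * X 0 ^ a * (rs.map L).prod * L ρ := by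
      rw [List.map_cons, List.prod_cons]; ring
    rw [h4, h3, List.map_cons, List.sum_cons, Nat.cast_add, add_comm]

theorem E1_hom (F : S) (d : ℕ) (hF : F.IsHomogeneous d) : (E1 F).IsHomogeneous (1 + (d - 1)) := by
  unfold E1
  exact ((isHomogeneous_X ℂ 0).mul hF.pderiv).sub ((isHomogeneous_X ℂ 2).mul hF.pderiv)

theorem E2_hom (F : S) (d : ℕ) (hF : F.IsHomogeneous d) : (E2 F).IsHomogeneous (1 + (d - 1)) := by
  unfold E2
  exact ((isHomogeneous_X ℂ 1).mul hF.pderiv).sub ((isHomogeneous_X ℂ 2).mul hF.pderiv)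

end ModKEY

theorem key (hA : StmADD) (hO : StmONE) (hL : StmLIN) : StmKEY := by
  intro d F c a rs o hF hc hE hr hX
  refine ⟨F, hF, ?_, hO.1, ?_⟩
  · have h0 := hL (X 0) (E2 F) _ (Or.inl rfl) (ModKEY.E2_hom F d hF) hX
    have h1 : (⋃ ρ ∈ {ρ | ρ ∈ rs}, {p : Projectivization ℂ (Fin 3 → ℂ) |
        eval p.rep (L ρ) = 0 ∧ eval p.rep (E1 F) = 0}).Finite := by
      refine Set.Finite.biUnion (List.finite_toSet rs) fun ρ hρ => ?_
      exact hL (L ρ) (E1 F) _ (Or.inr ⟨ρ, rfl⟩) (ModKEY.E1_hom F d hF)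
        (ModKEY.not_dvd hO.2.1 ρ (o ρ) (E1 F) (hr ρ hρ))
    refine (h0.union h1).subset ?_
    rintro p ⟨hp0, hp1, hp2⟩
    rw [hE, map_mul, map_mul, eval_C, map_pow] at hp0
    rcases mul_eq_zero.1 hp0 with h2 | h2
    · left
      rcases mul_eq_zero.1 h2 with h3 | h3
      · exact absurd h3 hc
      · exact ⟨by simpa using eq_zero_of_pow_eq_zero h3, hp2⟩
    · right
      rw [map_list_prod, List.map_map, List.prod_eq_zero_iff, List.mem_map] at h2
      obtain ⟨ρ, hρ, h3⟩ := h2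
      simp only [Set.mem_iUnion]
      exact ⟨ρ, hρ, h3, hp1⟩
  · rw [hE]
    exact ModKEY.len hA hO hO.1 c hc a o (E1 F) rs hr

end H28.EG

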