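import Pool.Agent.T6.H28.EG.Defs

/-! Project EG, module ONE: one line. -/

set_option autoImplicit false

open MvPolynomial

namespace H28.EG
namespace ONE

lemma sub_mem (I : Ideal S) (g : Fin 3 → S) (hg : ∀ i, X i - g i ∈ I) (p : S) :
    p - aeval g p ∈ I := by
  induction p using MvPolynomial.induction_on with
  | C a => simp [aeval_C, algebraMap_eq]
  | add p q hp hq =>
    have := I.add_mem hp hq
    convert this using 1
    rw [map_add]
    ring
  | mul_X p i hp =>
    have h1 : p * X i - aeval g (p * X i) = (p - aeval g p) * X i + aeval g p * (X i - g i) := by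
      rw [map_mul, aeval_X]; ring
    rw [h1]
    exact I.add_mem (I.mul_mem_right _ hp) (I.mul_mem_left _ (hg i))

lemma prime_of (I : Ideal S) (g : Fin 3 → S) (hg : ∀ i, X i - g i ∈ I)
    (hI : I ≤ RingHom.ker (aeval g : S →ₐ[ℂ] S)) : I.IsPrime := by
  have : I = RingHom.ker (aeval g : S →ₐ[ℂ] S) := by
    apply le_antisymm hI
    intro p h
    rw [RingHom.mem_ker] at h
    have := sub_mem I g hg p
    rwa [h, sub_zero] at this
  rw [this]
  exact RingHom.ker_isPrime _

lemma P0_prime : P0.IsPrime := by
  apply prime_of P0 ![X 0, 0, 0]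
  · intro i
    fin_cases i
    · simp
    · simpa [P0] using Ideal.subset_span (s := {X 1, X 2}) (by simp : (X 1 : S) ∈ ({X 1, X 2} : Set S))
    · simpa [P0] using Ideal.subset_span (s := {X 1, X 2}) (by simp : (X 2 : S) ∈ ({X 1, X 2} : Set S))
  · unfold P0
    rw [Ideal.span_le]
    intro p hp
    simp only [Set.mem_insert_iff, Set.mem_singleton_iff] at hp
    rcases hp with rfl | rfl
    · simp [RingHom.mem_ker]
    · simp [RingHom.mem_ker]

lemma evL (ρ : ℂ) : eval (![0, 1, 0] : Fin 3 → ℂ) (L ρ) = 1 := by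
  simp [L]

lemma L_ne (ρ : ℂ) : L ρ ≠ 0 := by
  intro h
  have := evL ρ
  rw [h] at this
  simp at this

lemma L_prime (ρ : ℂ) : Prime (L ρ) := by
  rw [← Ideal.span_singleton_prime (L_ne ρ)]
  apply prime_of _ ![X 0, C ρ * X 2, X 2]
  · intro i
    fin_cases i
    · simp
    · exact Ideal.subset_span rfl
    · simp
  · rw [Ideal.span_le]
    intro p hp
    rw [Set.mem_singleton_iff] at hp
    rw [hp]
    simp [RingHom.mem_ker, L, aeval_C, algebraMap_eq]

lemma X2_prime : Prime (X 2 : S) := by
  rw [← Ideal.span_singleton_prime (MvPolynomial.X_ne_zero 2)]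
  apply prime_of _ ![X 0, X 1, 0]
  · intro i
    fin_cases i
    · simp
    · simp
    · simpa using Ideal.subset_span (s := {(X 2 : S)}) rfl
  · rw [Ideal.span_le]
    intro p hp
    rw [Set.mem_singleton_iff] at hp
    rw [hp]
    simp [RingHom.mem_ker]

lemma X2_ndvd (ρ : ℂ) : ¬ (X 2 : S) ∣ L ρ := by
  rintro ⟨q, hq⟩
  have := evL ρ
  rw [hq] at this
  simp at this

lemma span_XL (ρ : ℂ) : Ideal.span {X 2, L ρ} = P0 := by
  unfold P0
  apply le_antisymm
  · rw [Ideal.span_le]
    intro p hp
    simp only [Set.mem_insert_iff, Set.mem_singleton_iff] at hp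
    rw [SetLike.mem_coe, Ideal.mem_span_pair]
    rcases hp with rfl | rfl
    · exact ⟨0, 1, by ring⟩
    · exact ⟨1, -C ρ, by unfold L; ring⟩
  · rw [Ideal.span_le]
    intro p hp
    simp only [Set.mem_insert_iff, Set.mem_singleton_iff] at hp
    rw [SetLike.mem_coe, Ideal.mem_span_pair]
    rcases hp with rfl | rfl
    · exact ⟨C ρ, 1, by unfold L; ring⟩
    · exact ⟨1, 0, by ring⟩

lemma len_P (P : Ideal S) (h : P.IsPrime) : locLength P P = 1 := by
  unfold locLength
  rw [Localization.AtPrime.map_eq_maximalIdeal, Module.length_eq_one_iff,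
    isSimpleModule_iff_isCoatom]
  exact (IsLocalRing.maximalIdeal.isMaximal _).out

lemma len_top (P : Ideal S) (h : P.IsPrime) : locLength P ⊤ = 0 := by
  unfold locLength
  rw [Ideal.map_top, Module.length_eq_zero_iff]
  exact Submodule.Quotient.subsingleton_iff.mpr rfl

lemma len_unit (P : Ideal S) (h : P.IsPrime) (a W b : S) (hW : W ∉ P) :
    locLength P (Ideal.span {a, b * W}) = locLength P (Ideal.span {a, b}) := by
  unfold locLength
  have hu : IsUnit (algebraMap S (Localization.AtPrime P) W) :=
    IsLocalization.map_units (Localization.AtPrime P) (⟨W, hW⟩ : P.primeCompl)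
  have : (Ideal.span {a, b * W}).map (algebraMap S (Localization.AtPrime P))
      = (Ideal.span {a, b}).map (algebraMap S (Localization.AtPrime P)) := by
    rw [Ideal.map_span, Ideal.map_span, Set.image_pair, Set.image_pair, map_mul,
      Ideal.span_insert, Ideal.span_insert, Ideal.span_singleton_mul_right_unit hu]
  rw [this]

end ONE

open ONE in
theorem one (hADD : StmADD) : StmONE := by
  refine ⟨P0_prime, L_prime, ?_⟩
  intro h ρ o H hord
  obtain ⟨W, A, hH, hW⟩ := hord
  have hWP : W ∉ P0 := by
    intro hmem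
    apply hW
    have : P0 ≤ RingHom.ker (eval (![1, 0, 0] : Fin 3 → ℂ)) := by
      unfold P0
      rw [Ideal.span_le]
      intro p hp
      simp only [Set.mem_insert_iff, Set.mem_singleton_iff] at hp
      rcases hp with rfl | rfl
      · simp [RingHom.mem_ker]
      · simp [RingHom.mem_ker]
    exact this hmem
  have h1 : Ideal.span {L ρ, H} = Ideal.span {L ρ, X 2 ^ o * W} := by
    apply le_antisymm
    · rw [Ideal.span_le]
      intro p hp
      simp only [Set.mem_insert_iff, Set.mem_singleton_iff] at hp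
      rw [SetLike.mem_coe, Ideal.mem_span_pair]
      rcases hp with rfl | rfl
      · exact ⟨1, 0, by ring⟩
      · exact ⟨A, 1, by rw [hH]; ring⟩
    · rw [Ideal.span_le]
      intro p hp
      simp only [Set.mem_insert_iff, Set.mem_singleton_iff] at hp
      rw [SetLike.mem_coe, Ideal.mem_span_pair]
      rcases hp with rfl | rfl
      · exact ⟨1, 0, by ring⟩
      · exact ⟨-A, 1, by rw [hH]; ring⟩
  have key : ∀ n : ℕ, locLength P0 (Ideal.span {X 2 ^ n, L ρ}) = n := by
    intro n
    induction n with
    | zero =>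
      have : Ideal.span {(X 2 : S) ^ 0, L ρ} = ⊤ := by
        rw [Ideal.eq_top_iff_one]
        apply Ideal.subset_span
        simp
      rw [this, len_top]
      rfl
    | succ n ih =>
      rw [pow_succ, hADD P0 h (X 2 ^ n) (X 2) (L ρ) X2_prime
        (Ideal.subset_span (by simp)) (X2_ndvd ρ), ih, span_XL, len_P]
      push_cast
      rfl
  rw [h1, len_unit P0 h (L ρ) W (X 2 ^ o) hWP, Set.pair_comm]
  exact key o

end H28.EG
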