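import Pool.Agent.T6.H28.EG.Defs2
import Pool.Agent.T6.H28.EG.ONE

/-! Project EG, module SMH: the value `m = d / 2`. -/

set_option autoImplicit false

open MvPolynomial

namespace H28.EG
namespace SMH

/-- the form, `m = n + 7`, `d = 2 n + 14` -/
noncomputable def F (n : ℕ) : S :=
  X 0 ^ (2 * n + 12) * X 1 ^ 2 + X 0 ^ (n + 9) * X 2 ^ (n + 5) + X 2 ^ (2 * n + 14)

lemma F_hom (n : ℕ) : (F n).IsHomogeneous (2 * n + 14) := by
  unfold F
  have h1 := (isHomogeneous_X_pow (R := ℂ) (0 : Fin 3) (2 * n + 12)).mul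
    (isHomogeneous_X_pow (R := ℂ) (1 : Fin 3) 2)
  have h2 := (isHomogeneous_X_pow (R := ℂ) (0 : Fin 3) (n + 9)).mul
    (isHomogeneous_X_pow (R := ℂ) (2 : Fin 3) (n + 5))
  have h3 := isHomogeneous_X_pow (R := ℂ) (2 : Fin 3) (2 * n + 14)
  have e2 : n + 9 + (n + 5) = 2 * n + 14 := by ring
  rw [e2] at h2
  exact (h1.add h2).add h3

lemma pd (i j : Fin 3) (k : ℕ) :
    pderiv i ((X j : S) ^ (k + 1)) = ((k : S) + 1) * X j ^ k * pderiv i (X j) := by
  rw [Derivation.leibniz_pow]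
  simp only [Nat.add_sub_cancel, smul_eq_mul, nsmul_eq_mul]
  push_cast
  ring

lemma d0 (n : ℕ) : pderiv 0 (F n) = (2 * (n : S) + 12) * X 0 ^ (2 * n + 11) * X 1 ^ 2
    + ((n : S) + 9) * X 0 ^ (n + 8) * X 2 ^ (n + 5) := by
  unfold F
  rw [map_add, map_add, Derivation.leibniz, Derivation.leibniz, pd 0 0 (2 * n + 11), pd 0 0 (n + 8),
    pd 0 1 1, pd 0 2 (n + 4), pd 0 2 (2 * n + 13), pderiv_X_self,
    pderiv_X_of_ne (by decide : (1 : Fin 3) ≠ 0), pderiv_X_of_ne (by decide : (2 : Fin 3) ≠ 0)]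
  simp only [smul_eq_mul]
  push_cast
  ring

lemma d1 (n : ℕ) : pderiv 1 (F n) = 2 * X 0 ^ (2 * n + 12) * X 1 := by
  unfold F
  rw [map_add, map_add, Derivation.leibniz, Derivation.leibniz, pd 1 0 (2 * n + 11), pd 1 0 (n + 8),
    pd 1 1 1, pd 1 2 (n + 4), pd 1 2 (2 * n + 13), pderiv_X_self,
    pderiv_X_of_ne (by decide : (0 : Fin 3) ≠ 1), pderiv_X_of_ne (by decide : (2 : Fin 3) ≠ 1)]
  simp only [smul_eq_mul]
  push_cast
  ring

lemma d2 (n : ℕ) : pderiv 2 (F n) = ((n : S) + 5) * X 0 ^ (n + 9) * X 2 ^ (n + 4)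
    + (2 * (n : S) + 14) * X 2 ^ (2 * n + 13) := by
  unfold F
  rw [map_add, map_add, Derivation.leibniz, Derivation.leibniz, pd 2 0 (2 * n + 11), pd 2 0 (n + 8),
    pd 2 1 1, pd 2 2 (n + 4), pd 2 2 (2 * n + 13), pderiv_X_self,
    pderiv_X_of_ne (by decide : (0 : Fin 3) ≠ 2), pderiv_X_of_ne (by decide : (1 : Fin 3) ≠ 2)]
  simp only [smul_eq_mul]
  push_cast
  ring

noncomputable def U (n : ℕ) : S :=
  ((n : S) + 5) * X 0 ^ (n + 10) * X 2 ^ (n + 3) + (2 * (n : S) + 14) * X 0 * X 2 ^ (2 * n + 12)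
    - 2 * X 0 ^ (2 * n + 12) * X 1

noncomputable def H (n : ℕ) : S :=
  (2 * (n : S) + 10) * X 0 ^ (2 * n + 12) * X 1 ^ 2 + ((n : S) + 9) * X 0 ^ (n + 9) * X 2 ^ (n + 5)

lemma e0 (n : ℕ) : E0 (F n) = H n := by
  unfold E0 H
  rw [d0, d1]
  ring

lemma e1 (n : ℕ) : E1 (F n) = U n * X 2 := by
  unfold E1 U
  rw [d2, d1]
  ring

lemma e2 (n : ℕ) : E2 (F n) = ((n : S) + 5) * X 0 ^ (n + 9) * X 1 * X 2 ^ (n + 4)
    + (2 * (n : S) + 14) * X 1 * X 2 ^ (2 * n + 13)
    - (2 * (n : S) + 12) * X 0 ^ (2 * n + 11) * X 1 ^ 2 * X 2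
    - ((n : S) + 9) * X 0 ^ (n + 8) * X 2 ^ (n + 6) := by
  unfold E2
  rw [d2, d0]
  ring

lemma span_eq (a b c x : S) (h : c = b + x * a) : Ideal.span {a, c} = Ideal.span {a, b} := by
  apply le_antisymm
  · rw [Ideal.span_le]
    intro p hp
    simp only [Set.mem_insert_iff, Set.mem_singleton_iff] at hp
    rw [SetLike.mem_coe, Ideal.mem_span_pair]
    rcases hp with rfl | rfl
    · exact ⟨1, 0, by ring⟩
    · exact ⟨x, 1, by rw [h]; ring⟩
  · rw [Ideal.span_le]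
    intro p hp
    simp only [Set.mem_insert_iff, Set.mem_singleton_iff] at hp
    rw [SetLike.mem_coe, Ideal.mem_span_pair]
    rcases hp with rfl | rfl
    · exact ⟨1, 0, by ring⟩
    · exact ⟨-x, 1, by rw [h]; ring⟩

lemma not_mem (W : S) (h : eval (![1, 0, 0] : Fin 3 → ℂ) W ≠ 0) : W ∉ P0 := by
  intro hmem
  apply h
  have : P0 ≤ RingHom.ker (eval (![1, 0, 0] : Fin 3 → ℂ)) := by
    unfold P0
    rw [Ideal.span_le]
    intro p hp
    simp only [Set.mem_insert_iff, Set.mem_singleton_iff] at hp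
    rcases hp with rfl | rfl
    · simp [RingHom.mem_ker]
    · simp [RingHom.mem_ker]
  exact this hmem

lemma X1_prime : Prime (X 1 : S) := by
  have := ONE.L_prime 0
  simpa [L] using this

lemma X1_ndvd : ¬ (X 1 : S) ∣ X 2 := by
  rintro ⟨q, hq⟩
  have := congrArg (eval (![0, 0, 1] : Fin 3 → ℂ)) hq
  simp at this

/-- length of `(y, v^k)` -/
lemma len_yv (hA : StmADD) (h : P0.IsPrime) (k : ℕ) :
    locLength P0 (Ideal.span {(X 1 : S) ^ k, X 2}) = k := by
  induction k with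
  | zero =>
    have : Ideal.span {(X 1 : S) ^ 0, X 2} = ⊤ := by
      rw [Ideal.eq_top_iff_one]
      apply Ideal.subset_span
      simp
    rw [this, ONE.len_top]
    rfl
  | succ n ih =>
    rw [pow_succ, hA P0 h (X 1 ^ n) (X 1) (X 2) X1_prime
      (Ideal.subset_span (by simp)) X1_ndvd, ih]
    have : Ideal.span {(X 1 : S), X 2} = P0 := rfl
    rw [this, ONE.len_P]
    push_cast
    rfl

/-- length of `(y^k, G)` from that of `(y, G)` -/
lemma len_yG (hA : StmADD) (h : P0.IsPrime) (G : S) (hG : ¬ (X 2 : S) ∣ G)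
    (h1 : locLength P0 (Ideal.span {X 2, G}) = 1) (k : ℕ) :
    locLength P0 (Ideal.span {(X 2 : S) ^ k, G}) = k := by
  induction k with
  | zero =>
    have : Ideal.span {(X 2 : S) ^ 0, G} = ⊤ := by
      rw [Ideal.eq_top_iff_one]
      apply Ideal.subset_span
      simp
    rw [this, ONE.len_top]
    rfl
  | succ n ih =>
    rw [pow_succ, hA P0 h (X 2 ^ n) (X 2) G ONE.X2_prime
      (Ideal.subset_span (by simp)) hG, ih, h1]
    push_cast
    rfl

lemma U_ndvd (n : ℕ) : ¬ (X 2 : S) ∣ U n := by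
  rintro ⟨q, hq⟩
  have := congrArg (eval (![1, 1, 0] : Fin 3 → ℂ)) hq
  simp [U] at this

lemma cast_ne (a b : ℕ) : (a : ℂ) + (b + 1 : ℕ) ≠ 0 := by
  have : ((a + (b + 1) : ℕ) : ℂ) ≠ 0 := Nat.cast_ne_zero.mpr (by omega)
  push_cast at this ⊢
  exact this

lemma H_ndvd (n : ℕ) : ¬ (X 2 : S) ∣ H n := by
  rintro ⟨q, hq⟩
  have := congrArg (eval (![1, 1, 0] : Fin 3 → ℂ)) hq
  have h2 := cast_ne (2 * n) 9
  simp [H] at this
  apply h2
  push_cast
  linear_combination this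

lemma len_U (h : P0.IsPrime) (n : ℕ) : locLength P0 (Ideal.span {X 2, U n}) = 1 := by
  have h1 : Ideal.span {X 2, U n} = Ideal.span {(X 2 : S), X 1 * (-2 * X 0 ^ (2 * n + 12))} := by
    apply span_eq (X 2) _ _ (((n : S) + 5) * X 0 ^ (n + 10) * X 2 ^ (n + 2)
      + (2 * (n : S) + 14) * X 0 * X 2 ^ (2 * n + 11))
    unfold U
    ring
  rw [h1, ONE.len_unit P0 h]
  · rw [Set.pair_comm]
    exact ONE.len_P P0 h
  · apply not_mem
    simp

lemma len_yH (hA : StmADD) (h : P0.IsPrime) (n : ℕ) :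
    locLength P0 (Ideal.span {X 2, H n}) = 2 := by
  have h1 : Ideal.span {X 2, H n}
      = Ideal.span {(X 2 : S), X 1 ^ 2 * ((2 * (n : S) + 10) * X 0 ^ (2 * n + 12))} := by
    apply span_eq (X 2) _ _ (((n : S) + 9) * X 0 ^ (n + 9) * X 2 ^ (n + 4))
    unfold H
    ring
  rw [h1, ONE.len_unit P0 h]
  · rw [Set.pair_comm]
    exact len_yv hA h 2
  · apply not_mem
    have h2 := cast_ne (2 * n) 9
    simp
    intro h3
    apply h2
    push_cast
    linear_combination h3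

lemma len_UH (hA : StmADD) (h : P0.IsPrime) (n : ℕ) :
    locLength P0 (Ideal.span {U n, H n}) = (n + 5 : ℕ) := by
  -- multiply `H` by the unit `4 u^(2n+12)`
  have s1 : locLength P0 (Ideal.span {U n, H n * (4 * X 0 ^ (2 * n + 12))})
      = locLength P0 (Ideal.span {U n, H n}) := by
    apply ONE.len_unit P0 h
    apply not_mem
    simp
  set Z : S := ((n : S) + 5) * X 0 ^ (n + 10) + (2 * (n : S) + 14) * X 0 * X 2 ^ (n + 9) with hZ
  set W : S := (2 * (n : S) + 10) * X 2 ^ (n + 1) * Z ^ 2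
    + 4 * ((n : S) + 9) * X 0 ^ (3 * n + 21) with hW
  have s2 : Ideal.span {U n, H n * (4 * X 0 ^ (2 * n + 12))}
      = Ideal.span {U n, X 2 ^ (n + 5) * W} := by
    apply span_eq (U n) _ _
      (-(2 * (n : S) + 10) * (2 * X 0 ^ (2 * n + 12) * X 1 + X 2 ^ (n + 3) * Z))
    rw [hW, hZ]
    unfold U H
    ring
  have s3 : locLength P0 (Ideal.span {U n, X 2 ^ (n + 5) * W})
      = locLength P0 (Ideal.span {U n, X 2 ^ (n + 5)}) := by
    apply ONE.len_unit P0 h
    apply not_mem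
    rw [hW, hZ]
    have h2 := cast_ne n 8
    simp
    intro h3
    apply h2
    push_cast
    linear_combination h3
  rw [← s1, s2, s3, Set.pair_comm]
  exact len_yG hA h (U n) (U_ndvd n) (len_U h n) (n + 5)

lemma len_main (hA : StmADD) (h : P0.IsPrime) (n : ℕ) :
    @locLength P0 h (Ideal.span {E0 (F n), E1 (F n)}) = (n + 7 : ℕ) := by
  rw [e0, e1, Set.pair_comm, hA P0 h (U n) (X 2) (H n) ONE.X2_prime
    (Ideal.subset_span (by simp)) (H_ndvd n), len_UH hA h, len_yH hA h]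
  push_cast
  ring

/-- point of the projective plane -/
noncomputable def toP (w : Fin 3 → ℂ) : Projectivization ℂ (Fin 3 → ℂ) :=
  open Classical in
  if h : w = 0 then Projectivization.mk ℂ ![1, 0, 0] (fun h => by simpa using congrFun h 0)
  else Projectivization.mk ℂ w h

lemma toP_eq (p : Projectivization ℂ (Fin 3 → ℂ)) (w : Fin 3 → ℂ) (c : ℂ) (hw : p.rep = c • w) :
    toP w = p := by
  have hr := p.rep_nonzero
  have hw0 : w ≠ 0 := by
    rintro rfl
    apply hr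
    simp [hw]
  have hc : c ≠ 0 := by
    rintro rfl
    apply hr
    simp [hw]
  unfold toP
  rw [dif_neg hw0]
  conv_rhs => rw [← p.mk_rep]
  rw [Projectivization.mk_eq_mk_iff']
  refine ⟨c⁻¹, ?_⟩
  rw [hw, smul_smul, inv_mul_cancel₀ hc, one_smul]

noncomputable def Q (n : ℕ) : Polynomial ℂ :=
  Polynomial.X ^ (n + 1) * (Polynomial.C (2 * (n : ℂ) + 10) *
    (Polynomial.C ((n : ℂ) + 5) + Polynomial.C (2 * (n : ℂ) + 14) * Polynomial.X ^ (n + 9)) ^ 2)
    + Polynomial.C (4 * ((n : ℂ) + 9))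

lemma Q_eval (n : ℕ) (y : ℂ) : (Q n).eval y = y ^ (n + 1) * ((2 * (n : ℂ) + 10) *
    (((n : ℂ) + 5) + (2 * (n : ℂ) + 14) * y ^ (n + 9)) ^ 2) + 4 * ((n : ℂ) + 9) := by
  simp [Q]

lemma Q_ne (n : ℕ) : Q n ≠ 0 := by
  intro h
  have h1 := Q_eval n 0
  rw [h] at h1
  have h2 := cast_ne n 8
  simp at h1
  apply h2
  push_cast
  linear_combination h1

/-- the points with `y ≠ 0`, `u = 1` -/
noncomputable def gg (n : ℕ) (y : ℂ) : Fin 3 → ℂ :=
  ![1, (((n : ℂ) + 5) * y ^ (n + 3) + (2 * (n : ℂ) + 14) * y ^ (2 * n + 12)) / 2, y]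

lemma rep_eq (w : Fin 3 → ℂ) (a b c : ℂ) (h0 : w 0 = a) (h1 : w 1 = b) (h2 : w 2 = c) :
    w = ![a, b, c] := by
  funext i
  fin_cases i <;> simp [h0, h1, h2]

lemma fin (n : ℕ) : {p : Projectivization ℂ (Fin 3 → ℂ) | eval p.rep (E0 (F n)) = 0 ∧
    eval p.rep (E1 (F n)) = 0 ∧ eval p.rep (E2 (F n)) = 0}.Finite := by
  have hT : (({![1, 0, 0], ![0, 1, 0], ![0, 0, 1]} : Set (Fin 3 → ℂ)) ∪
      gg n '' {y | (Q n).IsRoot y}).Finite :=
    (Set.toFinite _).union ((Polynomial.finite_setOf_isRoot (Q_ne n)).image _)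
  refine (hT.image toP).subset ?_
  rintro p ⟨h0, h1, h2⟩
  rw [e0] at h0
  rw [e1] at h1
  rw [e2] at h2
  simp only [H, U, map_add, map_sub, map_mul, map_pow, eval_X, map_natCast, map_ofNat] at h0 h1 h2
  obtain ⟨u, hu⟩ : ∃ u, p.rep 0 = u := ⟨_, rfl⟩
  obtain ⟨v, hv⟩ : ∃ v, p.rep 1 = v := ⟨_, rfl⟩
  obtain ⟨y, hy⟩ : ∃ y, p.rep 2 = y := ⟨_, rfl⟩
  rw [hu, hv, hy] at h0 h1 h2
  have hrep := rep_eq p.rep u v y hu hv hy
  by_cases hu0 : u = 0
  · subst hu0
    have h3 : (2 * (n : ℂ) + 14) * v * y ^ (2 * n + 13) = 0 := by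
      rw [zero_pow (by omega), zero_pow (by omega), zero_pow (by omega)] at h2
      linear_combination h2
    have h4 : (2 * (n : ℂ) + 14) ≠ 0 := by
      have h5 := cast_ne (2 * n) 13
      intro h6
      apply h5
      push_cast
      linear_combination h6
    rcases mul_eq_zero.mp h3 with h3 | h3
    · rcases mul_eq_zero.mp h3 with h3 | h3
      · exact absurd h3 h4
      · refine ⟨![0, 0, 1], Or.inl (by simp), toP_eq p _ y ?_⟩
        rw [hrep, h3]
        simp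
    · have h3' := pow_eq_zero_iff (by omega) |>.mp h3
      refine ⟨![0, 1, 0], Or.inl (by simp), toP_eq p _ v ?_⟩
      rw [hrep, h3']
      simp
  · obtain ⟨v', rfl⟩ : ∃ v', v = u * v' := ⟨v / u, by field_simp⟩
    obtain ⟨y', rfl⟩ : ∃ y', y = u * y' := ⟨y / u, by field_simp⟩
    have hA : (2 * (n : ℂ) + 10) * v' ^ 2 + ((n : ℂ) + 9) * y' ^ (n + 5) = 0 := by
      have : u ^ (2 * n + 14) * ((2 * (n : ℂ) + 10) * v' ^ 2 + ((n : ℂ) + 9) * y' ^ (n + 5)) = 0 := by
        linear_combination h0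
      rcases mul_eq_zero.mp this with h | h
      · exact absurd (pow_eq_zero_iff (by omega) |>.mp h) hu0
      · exact h
    have hB : y' * (((n : ℂ) + 5) * y' ^ (n + 3) + (2 * (n : ℂ) + 14) * y' ^ (2 * n + 12)
        - 2 * v') = 0 := by
      have : u ^ (2 * n + 14) * (y' * (((n : ℂ) + 5) * y' ^ (n + 3)
          + (2 * (n : ℂ) + 14) * y' ^ (2 * n + 12) - 2 * v')) = 0 := by
        linear_combination h1
      rcases mul_eq_zero.mp this with h | h
      · exact absurd (pow_eq_zero_iff (by omega) |>.mp h) hu0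
      · exact h
    have h10 : (2 * (n : ℂ) + 10) ≠ 0 := by
      have h5 := cast_ne (2 * n) 9
      intro h6
      apply h5
      push_cast
      linear_combination h6
    rcases mul_eq_zero.mp hB with hy0 | hU
    · subst hy0
      have hv0 : v' = 0 := by
        rw [zero_pow (by omega), mul_zero, add_zero] at hA
        rcases mul_eq_zero.mp hA with h | h
        · exact absurd h h10
        · exact pow_eq_zero_iff (by omega) |>.mp h
      subst hv0
      refine ⟨![1, 0, 0], Or.inl (by simp), toP_eq p _ u ?_⟩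
      rw [hrep]
      simp
    · by_cases hy0 : y' = 0
      · subst hy0
        have hv0 : v' = 0 := by
          rw [zero_pow (by omega), mul_zero, add_zero] at hA
          rcases mul_eq_zero.mp hA with h | h
          · exact absurd h h10
          · exact pow_eq_zero_iff (by omega) |>.mp h
        subst hv0
        refine ⟨![1, 0, 0], Or.inl (by simp), toP_eq p _ u ?_⟩
        rw [hrep]
        simp
      have hv' : v' = (((n : ℂ) + 5) * y' ^ (n + 3) + (2 * (n : ℂ) + 14) * y' ^ (2 * n + 12)) / 2 := by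
        linear_combination (-1 / 2) * hU
      have hQ : (Q n).IsRoot y' := by
        rw [Polynomial.IsRoot, Q_eval]
        have : y' ^ (n + 5) * (y' ^ (n + 1) * ((2 * (n : ℂ) + 10) *
            (((n : ℂ) + 5) + (2 * (n : ℂ) + 14) * y' ^ (n + 9)) ^ 2) + 4 * ((n : ℂ) + 9)) = 0 := by
          rw [hv'] at hA
          linear_combination 4 * hA
        rcases mul_eq_zero.mp this with h | h
        · exact absurd (pow_eq_zero_iff (by omega) |>.mp h) hy0
        · exact h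
      refine ⟨gg n y', Or.inr ⟨y', hQ, rfl⟩, toP_eq p _ u ?_⟩
      rw [hrep, hv']
      simp [gg]

end SMH

theorem smh (hA : StmADD) (_hO : StmONE) (_hL : StmLIN) : StmSMH := by
  intro m hm
  obtain ⟨n, rfl⟩ : ∃ n, m = n + 7 := ⟨m - 7, by omega⟩
  refine ⟨SMH.F n, ?_, SMH.fin n, ONE.P0_prime, SMH.len_main hA ONE.P0_prime n⟩
  have := SMH.F_hom n
  have e : 2 * (n + 7) = 2 * n + 14 := by ring
  rw [e]
  exact this

end H28.EG
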