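import Pool.Agent.T6.H28.EG.Defs4
import Pool.Agent.T6.H28.EG.SMH
import Pool.Agent.T6.H28.EG.KEY

/-! Project EG, module F2G: the values `2 g + 3`. -/

set_option autoImplicit false

open MvPolynomial

namespace H28.EG
namespace F2G

noncomputable def N (i : ℕ) (A B : ℂ) : S := C A * X 1 ^ (i + 3) + C B * X 0 ^ (i + 2) * X 2

noncomputable def R' (a i : ℕ) (D G : ℂ) : S :=
  C D * X 0 * X 2 ^ (a + i + 2) - C G * X 0 ^ a * X 1 ^ (i + 3) - X 0 ^ (a + i + 2) * X 2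

noncomputable def T (a i : ℕ) (D G : ℂ) : S :=
  X 0 ^ (a + 1) * X 1 ^ (i + 4) + 2 * X 0 ^ (a + i + 3) * X 1 * X 2
    + C D * X 0 * X 2 ^ (a + i + 4) - C G * X 0 ^ a * X 1 ^ (i + 3) * X 2 ^ 2
    - X 0 ^ (a + i + 2) * X 2 ^ 3

noncomputable def W (a i : ℕ) (A B D G : ℂ) : S :=
  (C B * X 0 ^ (i + 2)) ^ 2 * X 0 ^ (a + 1) - 2 * C A * (C B * X 0 ^ (i + 2)) * X 0 ^ (a + i + 3)
    + C A ^ 2 * X 1 ^ (i + 2) * R' a i D G

lemma X1_ndvd_N (i : ℕ) (A B : ℂ) (hB : B ≠ 0) : ¬ (X 1 : S) ∣ N i A B := by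
  rintro ⟨q, hq⟩
  have := congrArg (eval (![1, 0, 1] : Fin 3 → ℂ)) hq
  simp [N] at this
  exact hB this

lemma len_vN (hA : StmADD) (h : P0.IsPrime) (i : ℕ) (A B : ℂ) (hB : B ≠ 0) (k : ℕ) :
    locLength P0 (Ideal.span {(X 1 : S) ^ k, N i A B}) = k := by
  induction k with
  | zero =>
    have : Ideal.span {(X 1 : S) ^ 0, N i A B} = ⊤ := by
      rw [Ideal.eq_top_iff_one]
      apply Ideal.subset_span
      simp
    rw [this, ONE.len_top]
    rfl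
  | succ n ih =>
    have h1 : locLength P0 (Ideal.span {(X 1 : S), N i A B}) = 1 := by
      have e : Ideal.span {(X 1 : S), N i A B}
          = Ideal.span {(X 1 : S), X 2 * (C B * X 0 ^ (i + 2))} := by
        apply SMH.span_eq (X 1) _ _ (C A * X 1 ^ (i + 2))
        unfold N
        ring
      rw [e, ONE.len_unit P0 h]
      · exact ONE.len_P P0 h
      · apply SMH.not_mem
        simpa using hB
    rw [pow_succ, hA P0 h (X 1 ^ n) (X 1) (N i A B) SMH.X1_prime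
      (Ideal.subset_span (by simp)) (X1_ndvd_N i A B hB), ih, h1]
    push_cast
    rfl

lemma len_NT (hA : StmADD) (h : P0.IsPrime) (a i : ℕ) (A B D G : ℂ) (hB : B ≠ 0)
    (hAB : B - 2 * A ≠ 0) :
    locLength P0 (Ideal.span {X 0 ^ a * N i A B, T a i D G}) = (i + 4 : ℕ) := by
  have s0 : locLength P0 (Ideal.span {T a i D G, N i A B * X 0 ^ a})
      = locLength P0 (Ideal.span {T a i D G, N i A B}) := by
    apply ONE.len_unit P0 h
    apply SMH.not_mem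
    simp
  have s1 : locLength P0 (Ideal.span {N i A B, T a i D G * (C B * X 0 ^ (i + 2)) ^ 2})
      = locLength P0 (Ideal.span {N i A B, T a i D G}) := by
    apply ONE.len_unit P0 h
    apply SMH.not_mem
    simpa using hB
  have s2 : Ideal.span {N i A B, T a i D G * (C B * X 0 ^ (i + 2)) ^ 2}
      = Ideal.span {N i A B, X 1 ^ (i + 4) * W a i A B D G} := by
    apply SMH.span_eq (N i A B) _ _
      ((C B * X 0 ^ (i + 2)) * (2 * X 0 ^ (a + i + 3) * X 1 + X 2 * R' a i D G)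
        - C A * X 1 ^ (i + 3) * R' a i D G)
    unfold T W N R'
    ring
  have s3 : locLength P0 (Ideal.span {N i A B, X 1 ^ (i + 4) * W a i A B D G})
      = locLength P0 (Ideal.span {N i A B, X 1 ^ (i + 4)}) := by
    apply ONE.len_unit P0 h
    apply SMH.not_mem
    simp [W]
    intro h3
    have h4 : B * (B - 2 * A) = 0 := by linear_combination h3
    rcases mul_eq_zero.mp h4 with h5 | h5
    · exact hB h5
    · exact hAB h5
  rw [mul_comm (X 0 ^ a) (N i A B), Set.pair_comm, s0, Set.pair_comm, ← s1, s2, s3, Set.pair_comm]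
  exact len_vN hA h i A B hB (i + 4)

lemma len_vT (hA : StmADD) (h : P0.IsPrime) (a i : ℕ) (D G : ℂ) :
    locLength P0 (Ideal.span {X 1, T a i D G}) = 3 := by
  have e : Ideal.span {(X 1 : S), T a i D G}
      = Ideal.span {(X 1 : S), X 2 ^ 3 * (C D * X 0 * X 2 ^ (a + i + 1) - X 0 ^ (a + i + 2))} := by
    apply SMH.span_eq (X 1) _ _ (X 0 ^ (a + 1) * X 1 ^ (i + 3) + 2 * X 0 ^ (a + i + 3) * X 2
      - C G * X 0 ^ a * X 1 ^ (i + 2) * X 2 ^ 2)
    unfold T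
    ring
  rw [e, ONE.len_unit P0 h, Set.pair_comm]
  · have h2 : ¬ (X 2 : S) ∣ X 1 := by
      rintro ⟨q, hq⟩
      have := congrArg (eval (![0, 1, 0] : Fin 3 → ℂ)) hq
      simp at this
    have := SMH.len_yG hA h (X 1) h2 (by
      rw [Set.pair_comm]
      exact ONE.len_P P0 h) 3
    rw [this]
    rfl
  · apply SMH.not_mem
    simp

lemma len_yT (hA : StmADD) (h : P0.IsPrime) (a i : ℕ) (D G : ℂ) :
    locLength P0 (Ideal.span {X 2, T a i D G}) = (i + 4 : ℕ) := by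
  have e : Ideal.span {(X 2 : S), T a i D G}
      = Ideal.span {(X 2 : S), X 1 ^ (i + 4) * X 0 ^ (a + 1)} := by
    apply SMH.span_eq (X 2) _ _ (2 * X 0 ^ (a + i + 3) * X 1
      + C D * X 0 * X 2 ^ (a + i + 3) - C G * X 0 ^ a * X 1 ^ (i + 3) * X 2
      - X 0 ^ (a + i + 2) * X 2 ^ 2)
    unfold T
    ring
  rw [e, ONE.len_unit P0 h, Set.pair_comm]
  · exact SMH.len_yv hA h (i + 4)
  · apply SMH.not_mem
    simp

lemma T_ndvd2 (a i : ℕ) (D G : ℂ) : ¬ (X 2 : S) ∣ T a i D G := by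
  rintro ⟨q, hq⟩
  have := congrArg (eval (![1, 1, 0] : Fin 3 → ℂ)) hq
  simp [T] at this

lemma T_ndvd1 (a i : ℕ) (D G : ℂ) (hD : D ≠ 1) : ¬ (X 1 : S) ∣ T a i D G := by
  rintro ⟨q, hq⟩
  have := congrArg (eval (![1, 0, 1] : Fin 3 → ℂ)) hq
  simp [T] at this
  apply hD
  linear_combination this

lemma len_main (hA : StmADD) (h : P0.IsPrime) (a i : ℕ) (A B D G : ℂ) (hB : B ≠ 0)
    (hAB : B - 2 * A ≠ 0) (hD : D ≠ 1) :
    locLength P0 (Ideal.span {X 0 ^ a * X 1 * X 2 * N i A B, T a i D G}) = (2 * i + 11 : ℕ) := by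
  have e : X 0 ^ a * X 1 * X 2 * N i A B = X 0 ^ a * N i A B * X 1 * X 2 := by ring
  rw [e, hA P0 h _ (X 2) _ ONE.X2_prime (Ideal.subset_span (by simp)) (T_ndvd2 a i D G),
    hA P0 h _ (X 1) _ SMH.X1_prime (Ideal.subset_span (by simp)) (T_ndvd1 a i D G hD),
    len_NT hA h a i A B D G hB hAB, len_vT hA h, len_yT hA h]
  have e2 : (2 * i + 11 : ℕ) = (i + 4) + 3 + (i + 4) := by ring
  rw [e2]
  push_cast
  rfl

/-- the polynomial for the points with `N = 0`, `u = 1`, `v = t`, `y = κ t ^ (i+3)` -/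
noncomputable def Q (a i : ℕ) (κ D G : ℂ) : Polynomial ℂ :=
  Polynomial.C (1 + 2 * κ) + Polynomial.X * (
    Polynomial.C (D * κ ^ (a + i + 4)) * Polynomial.X ^ ((i + 3) * (a + i + 2) + (i + 1))
    - Polynomial.C (G * κ ^ 2) * Polynomial.X ^ (2 * i + 4)
    - Polynomial.C (κ ^ 3) * Polynomial.X ^ (2 * i + 4))

lemma Q_eval (a i : ℕ) (κ D G t : ℂ) : (Q a i κ D G).eval t = (1 + 2 * κ) + t * (
    (D * κ ^ (a + i + 4)) * t ^ ((i + 3) * (a + i + 2) + (i + 1))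
    - (G * κ ^ 2) * t ^ (2 * i + 4) - (κ ^ 3) * t ^ (2 * i + 4)) := by
  simp [Q]

lemma Q_ne (a i : ℕ) (κ D G : ℂ) (hκ : 1 + 2 * κ ≠ 0) : Q a i κ D G ≠ 0 := by
  intro h
  have h1 := Q_eval a i κ D G 0
  rw [h] at h1
  apply hκ
  simp at h1
  linear_combination -h1

lemma fin (hL : StmLIN) (a i : ℕ) (A B D G : ℂ) (hB : B ≠ 0) (hAB : B - 2 * A ≠ 0) (hD : D ≠ 1)
    (F : S) (d : ℕ) (hF : F.IsHomogeneous d) (h0 : E0 F = X 0 ^ a * X 1 * X 2 * N i A B)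
    (h1 : E1 F = T a i D G) (h2 : ¬ (X 0 : S) ∣ E2 F) :
    {p : Projectivization ℂ (Fin 3 → ℂ) | eval p.rep (E0 F) = 0 ∧ eval p.rep (E1 F) = 0 ∧
      eval p.rep (E2 F) = 0}.Finite := by
  have f1 := hL (X 0) (E2 F) _ (Or.inl rfl) (ModKEY.E2_hom F d hF) h2
  have hL0 : L 0 = X 1 := by simp [L]
  have f2 := hL (L 0) (E1 F) _ (Or.inr ⟨0, rfl⟩) (ModKEY.E1_hom F d hF) (by
    rw [hL0, h1]
    exact T_ndvd1 a i D G hD)
  obtain ⟨κ, hκ⟩ : ∃ κ : ℂ, κ = -A / B := ⟨_, rfl⟩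
  have hκ1 : 1 + 2 * κ ≠ 0 := by
    intro h
    apply hAB
    rw [hκ] at h
    field_simp at h
    linear_combination h
  have f3 : ((fun t : ℂ => SMH.toP ![1, t, κ * t ^ (i + 3)]) '' {t | (Q a i κ D G).IsRoot t}).Finite :=
    (Polynomial.finite_setOf_isRoot (Q_ne a i κ D G hκ1)).image _
  refine ((f1.union f2).union f3).subset ?_
  rintro p ⟨e0, e1, e2⟩
  obtain ⟨u, hu⟩ : ∃ u, p.rep 0 = u := ⟨_, rfl⟩
  obtain ⟨v, hv⟩ : ∃ v, p.rep 1 = v := ⟨_, rfl⟩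
  obtain ⟨y, hy⟩ : ∃ y, p.rep 2 = y := ⟨_, rfl⟩
  by_cases hu0 : u = 0
  · left; left
    refine ⟨?_, e2⟩
    rw [eval_X, hu, hu0]
  by_cases hv0 : v = 0
  · left; right
    refine ⟨?_, e1⟩
    rw [hL0, eval_X, hv, hv0]
  right
  rw [h0] at e0
  rw [h1] at e1
  simp only [N, T, map_add, map_sub, map_mul, map_pow, eval_X, eval_C, map_ofNat] at e0 e1
  rw [hu, hv, hy] at e0 e1
  have hrep := SMH.rep_eq p.rep u v y hu hv hy
  have hua : u ^ a ≠ 0 := pow_ne_zero _ hu0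
  have hy0 : y ≠ 0 := by
    rintro rfl
    have : u ^ (a + 1) * v ^ (i + 4) = 0 := by
      rw [zero_pow (by omega : a + i + 4 ≠ 0)] at e1
      linear_combination e1
    rcases mul_eq_zero.mp this with h | h
    · exact pow_ne_zero _ hu0 h
    · exact pow_ne_zero _ hv0 h
  have hN : A * v ^ (i + 3) + B * u ^ (i + 2) * y = 0 := by
    rcases mul_eq_zero.mp e0 with h | h
    · rcases mul_eq_zero.mp h with h | h
      · rcases mul_eq_zero.mp h with h | h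
        · exact absurd h hua
        · exact absurd h hv0
      · exact absurd h hy0
    · exact h
  obtain ⟨v', rfl⟩ : ∃ v', v = u * v' := ⟨v / u, by field_simp⟩
  obtain ⟨y', rfl⟩ : ∃ y', y = u * y' := ⟨y / u, by field_simp⟩
  have hv'0 : v' ≠ 0 := by
    rintro rfl
    exact hv0 (by ring)
  have hN' : A * v' ^ (i + 3) + B * y' = 0 := by
    have : u ^ (i + 3) * (A * v' ^ (i + 3) + B * y') = 0 := by
      linear_combination hN
    rcases mul_eq_zero.mp this with h | h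
    · exact absurd h (pow_ne_zero _ hu0)
    · exact h
  have hy' : y' = κ * v' ^ (i + 3) := by
    rw [hκ]
    field_simp
    linear_combination hN'
  have hT : v' ^ (i + 4) + 2 * v' * y' + D * y' ^ (a + i + 4) - G * v' ^ (i + 3) * y' ^ 2
      - y' ^ 3 = 0 := by
    have : u ^ (a + i + 5) * (v' ^ (i + 4) + 2 * v' * y' + D * y' ^ (a + i + 4)
        - G * v' ^ (i + 3) * y' ^ 2 - y' ^ 3) = 0 := by
      linear_combination e1
    rcases mul_eq_zero.mp this with h | h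
    · exact absurd h (pow_ne_zero _ hu0)
    · exact h
  have hQ : (Q a i κ D G).IsRoot v' := by
    rw [Polynomial.IsRoot, Q_eval]
    have : v' ^ (i + 4) * ((1 + 2 * κ) + v' * (
        (D * κ ^ (a + i + 4)) * v' ^ ((i + 3) * (a + i + 2) + (i + 1))
        - (G * κ ^ 2) * v' ^ (2 * i + 4) - (κ ^ 3) * v' ^ (2 * i + 4))) = 0 := by
      have e5 : (κ * v' ^ (i + 3)) ^ (a + i + 4)
          = κ ^ (a + i + 4) * (v' ^ (i + 5) * v' ^ ((i + 3) * (a + i + 2) + (i + 1))) := by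
        rw [mul_pow, ← pow_mul, ← pow_add]
        congr 2
        ring
      rw [hy', e5] at hT
      linear_combination hT
    rcases mul_eq_zero.mp this with h | h
    · exact absurd h (pow_ne_zero _ hv'0)
    · exact h
  refine ⟨v', hQ, SMH.toP_eq p _ u ?_⟩
  rw [hrep, hy']
  simp

lemma good (hA : StmADD) (hL : StmLIN) (a i : ℕ) (A B D G : ℂ) (hB : B ≠ 0)
    (hAB : B - 2 * A ≠ 0) (hD : D ≠ 1)
    (F : S) (d : ℕ) (hF : F.IsHomogeneous d) (h0 : E0 F = X 0 ^ a * X 1 * X 2 * N i A B)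
    (h1 : E1 F = T a i D G) (h2 : ¬ (X 0 : S) ∣ E2 F) : Good d (2 * i + 11) := by
  refine ⟨F, hF, fin hL a i A B D G hB hAB hD F d hF h0 h1 h2, ONE.P0_prime, ?_⟩
  rw [h0, h1]
  exact len_main hA ONE.P0_prime a i A B D G hB hAB hD

/-- the three forms -/
noncomputable def F1 : S := X 1 ^ 4 * X 2 + X 0 ^ 2 * X 1 * X 2 ^ 2 + X 2 ^ 5
noncomputable def F2 : S := X 0 * X 1 ^ 4 * X 2 + X 0 ^ 3 * X 1 * X 2 ^ 2 + X 2 ^ 6
noncomputable def F3 : S := X 0 ^ 2 * X 1 ^ 5 * X 2 + X 0 ^ 5 * X 1 * X 2 ^ 2 + X 2 ^ 8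

lemma hX (i : Fin 3) : (X i : S).IsHomogeneous 1 := isHomogeneous_X ℂ i

lemma F1_hom : F1.IsHomogeneous 5 := by
  unfold F1
  exact ((((hX 1).pow 4).mul (hX 2)).add ((((hX 0).pow 2).mul (hX 1)).mul ((hX 2).pow 2))).add
    ((hX 2).pow 5)

lemma F2_hom : F2.IsHomogeneous 6 := by
  unfold F2
  exact ((((hX 0).mul ((hX 1).pow 4)).mul (hX 2)).add
    ((((hX 0).pow 3).mul (hX 1)).mul ((hX 2).pow 2))).add ((hX 2).pow 6)

lemma F3_hom : F3.IsHomogeneous 8 := by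
  unfold F3
  exact (((((hX 0).pow 2).mul ((hX 1).pow 5)).mul (hX 2)).add
    ((((hX 0).pow 5).mul (hX 1)).mul ((hX 2).pow 2))).add ((hX 2).pow 8)

lemma a0 : pderiv 0 F1 = 2 * X 0 * X 1 * X 2 ^ 2 := by
  unfold F1
  simp [pderiv_X]
  ring

lemma a1 : pderiv 1 F1 = 4 * X 1 ^ 3 * X 2 + X 0 ^ 2 * X 2 ^ 2 := by
  unfold F1
  simp [pderiv_X]
  ring

lemma a2 : pderiv 2 F1 = X 1 ^ 4 + 2 * X 0 ^ 2 * X 1 * X 2 + 5 * X 2 ^ 4 := by
  unfold F1
  simp [pderiv_X]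
  ring

lemma b0 : pderiv 0 F2 = X 1 ^ 4 * X 2 + 3 * X 0 ^ 2 * X 1 * X 2 ^ 2 := by
  unfold F2
  simp [pderiv_X]
  ring

lemma b1 : pderiv 1 F2 = 4 * X 0 * X 1 ^ 3 * X 2 + X 0 ^ 3 * X 2 ^ 2 := by
  unfold F2
  simp [pderiv_X]
  ring

lemma b2 : pderiv 2 F2 = X 0 * X 1 ^ 4 + 2 * X 0 ^ 3 * X 1 * X 2 + 6 * X 2 ^ 5 := by
  unfold F2
  simp [pderiv_X]
  ring

lemma c0 : pderiv 0 F3 = 2 * X 0 * X 1 ^ 5 * X 2 + 5 * X 0 ^ 4 * X 1 * X 2 ^ 2 := by
  unfold F3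
  simp [pderiv_X]
  ring

lemma c1 : pderiv 1 F3 = 5 * X 0 ^ 2 * X 1 ^ 4 * X 2 + X 0 ^ 5 * X 2 ^ 2 := by
  unfold F3
  simp [pderiv_X]
  ring

lemma c2 : pderiv 2 F3 = X 0 ^ 2 * X 1 ^ 5 + 2 * X 0 ^ 5 * X 1 * X 2 + 8 * X 2 ^ 7 := by
  unfold F3
  simp [pderiv_X]
  ring

lemma n1 : ¬ (X 0 : S) ∣ E2 F1 := by
  rintro ⟨q, hq⟩
  have := congrArg (eval (![0, 1, 0] : Fin 3 → ℂ)) hq
  simp [E2, a0, a2] at this

lemma n2 : ¬ (X 0 : S) ∣ E2 F2 := by
  rintro ⟨q, hq⟩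
  have := congrArg (eval (![0, 1, 1] : Fin 3 → ℂ)) hq
  simp [E2, b0, b2] at this
  norm_num at this

lemma n3 : ¬ (X 0 : S) ∣ E2 F3 := by
  rintro ⟨q, hq⟩
  have := congrArg (eval (![0, 1, 1] : Fin 3 → ℂ)) hq
  simp [E2, c0, c2] at this

end F2G

open F2G in
theorem f2g (hA : StmADD) (hL : StmLIN) : StmF2G := by
  refine ⟨?_, ?_, ?_⟩
  · refine good hA hL 0 0 (-4) 1 5 4 (by norm_num) (by norm_num) (by norm_num) F1 5 F1_hom ?_ ?_ n1
    · unfold E0 N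
      rw [a0, a1]
      simp only [map_neg, map_ofNat, map_one]
      ring
    · unfold E1 T
      rw [a2, a1]
      simp only [map_ofNat]
      ring
  · refine good hA hL 1 0 (-3) 2 6 4 (by norm_num) (by norm_num) (by norm_num) F2 6 F2_hom ?_ ?_ n2
    · unfold E0 N
      rw [b0, b1]
      simp only [map_neg, map_ofNat]
      ring
    · unfold E1 T
      rw [b2, b1]
      simp only [map_ofNat]
      ring
  · refine good hA hL 2 1 (-3) 4 8 5 (by norm_num) (by norm_num) (by norm_num) F3 8 F3_hom ?_ ?_ n3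
    · unfold E0 N
      rw [c0, c1]
      simp only [map_neg, map_ofNat]
      ring
    · unfold E1 T
      rw [c2, c1]
      simp only [map_ofNat]
      ring

end H28.EG
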