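import Pool.Agent.T6.H28.EG.Defs4
import Pool.Agent.T6.H28.EG.SMH

/-! Project EG, module F67: the value `7` in degree `6`. -/

set_option autoImplicit false

open MvPolynomial

namespace H28.EG
namespace M67

noncomputable def F : S := X 0 * X 2 ^ 5 + 2 * (X 0 ^ 4 * X 1 ^ 2)

lemma F_hom : F.IsHomogeneous 6 := by
  unfold F
  have h1 := (isHomogeneous_X ℂ (0 : Fin 3)).mul (isHomogeneous_X_pow (R := ℂ) (2 : Fin 3) 5)
  have h2 := (isHomogeneous_X_pow (R := ℂ) (0 : Fin 3) 4).mul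
    (isHomogeneous_X_pow (R := ℂ) (1 : Fin 3) 2)
  have h3 := (isHomogeneous_C (Fin 3) (2 : ℂ)).mul h2
  have e : (C (2 : ℂ) : S) = 2 := map_ofNat C 2
  rw [e] at h3
  exact h1.add h3

lemma F_two (i : Fin 3) : pderiv i ((2 : S) * (X 0 ^ 4 * X 1 ^ 2))
    = 2 * pderiv i ((X 0 : S) ^ 4 * X 1 ^ 2) := by
  have e : (C (2 : ℂ) : S) = 2 := map_ofNat C 2
  rw [← e, pderiv_C_mul]

lemma d0 : pderiv 0 F = X 2 ^ 5 + 8 * X 0 ^ 3 * X 1 ^ 2 := by
  unfold F
  rw [map_add, F_two, Derivation.leibniz, Derivation.leibniz, SMH.pd 0 0 3, SMH.pd 0 1 1,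
    SMH.pd 0 2 4, pderiv_X_self,
    pderiv_X_of_ne (by decide : (1 : Fin 3) ≠ 0), pderiv_X_of_ne (by decide : (2 : Fin 3) ≠ 0)]
  simp only [smul_eq_mul]
  push_cast
  ring

lemma d1 : pderiv 1 F = 4 * X 0 ^ 4 * X 1 := by
  unfold F
  rw [map_add, F_two, Derivation.leibniz, Derivation.leibniz, SMH.pd 1 0 3, SMH.pd 1 1 1,
    SMH.pd 1 2 4, pderiv_X_self,
    pderiv_X_of_ne (by decide : (0 : Fin 3) ≠ 1), pderiv_X_of_ne (by decide : (2 : Fin 3) ≠ 1)]
  simp only [smul_eq_mul]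
  push_cast
  ring

lemma d2 : pderiv 2 F = 5 * X 0 * X 2 ^ 4 := by
  unfold F
  rw [map_add, F_two, Derivation.leibniz, Derivation.leibniz, SMH.pd 2 0 3, SMH.pd 2 1 1,
    SMH.pd 2 2 4, pderiv_X_self,
    pderiv_X_of_ne (by decide : (0 : Fin 3) ≠ 2), pderiv_X_of_ne (by decide : (1 : Fin 3) ≠ 2)]
  simp only [smul_eq_mul]
  push_cast
  ring

noncomputable def N : S := 5 * X 2 ^ 3 - 4 * X 0 ^ 2 * X 1

noncomputable def H : S := X 0 * X 2 ^ 5 + 4 * X 0 ^ 4 * X 1 ^ 2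

lemma e0 : E0 F = H := by
  unfold E0 H
  rw [d0, d1]
  ring

lemma e1 : E1 F = N * X 2 * X 0 ^ 2 := by
  unfold E1 N
  rw [d2, d1]
  ring

lemma e2 : E2 F = 5 * X 0 * X 1 * X 2 ^ 4 - X 2 ^ 6 - 8 * X 0 ^ 3 * X 1 ^ 2 * X 2 := by
  unfold E2
  rw [d2, d0]
  ring

lemma N_ndvd : ¬ (X 2 : S) ∣ N := by
  rintro ⟨q, hq⟩
  have := congrArg (eval (![1, 1, 0] : Fin 3 → ℂ)) hq
  simp [N] at this

lemma H_ndvd : ¬ (X 2 : S) ∣ H := by
  rintro ⟨q, hq⟩
  have := congrArg (eval (![1, 1, 0] : Fin 3 → ℂ)) hq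
  simp [H] at this

lemma len_N (h : P0.IsPrime) : locLength P0 (Ideal.span {X 2, N}) = 1 := by
  have h1 : Ideal.span {X 2, N} = Ideal.span {(X 2 : S), X 1 * (-4 * X 0 ^ 2)} := by
    apply SMH.span_eq (X 2) _ _ (5 * X 2 ^ 2)
    unfold N
    ring
  rw [h1, ONE.len_unit P0 h]
  · rw [Set.pair_comm]
    exact ONE.len_P P0 h
  · apply SMH.not_mem
    simp

lemma len_yH (hA : StmADD) (h : P0.IsPrime) : locLength P0 (Ideal.span {X 2, H}) = 2 := by
  have h1 : Ideal.span {X 2, H} = Ideal.span {(X 2 : S), X 1 ^ 2 * (4 * X 0 ^ 4)} := by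
    apply SMH.span_eq (X 2) _ _ (X 0 * X 2 ^ 4)
    unfold H
    ring
  rw [h1, ONE.len_unit P0 h]
  · rw [Set.pair_comm]
    exact SMH.len_yv hA h 2
  · apply SMH.not_mem
    simp

lemma len_NH (hA : StmADD) (h : P0.IsPrime) : locLength P0 (Ideal.span {N, H}) = (5 : ℕ) := by
  have s1 : locLength P0 (Ideal.span {N, H * 4}) = locLength P0 (Ideal.span {N, H}) := by
    apply ONE.len_unit P0 h
    apply SMH.not_mem
    simp
  have s2 : Ideal.span {N, H * 4} = Ideal.span {N, X 2 ^ 5 * (4 * X 0 + 25 * X 2)} := by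
    apply SMH.span_eq N _ _ (-(4 * X 0 ^ 2 * X 1 + 5 * X 2 ^ 3))
    unfold H N
    ring
  have s3 : locLength P0 (Ideal.span {N, X 2 ^ 5 * (4 * X 0 + 25 * X 2)})
      = locLength P0 (Ideal.span {N, X 2 ^ 5}) := by
    apply ONE.len_unit P0 h
    apply SMH.not_mem
    simp
  rw [← s1, s2, s3, Set.pair_comm]
  exact SMH.len_yG hA h N N_ndvd (len_N h) 5

lemma len_main (hA : StmADD) (h : P0.IsPrime) :
    @locLength P0 h (Ideal.span {E0 F, E1 F}) = (7 : ℕ) := by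
  rw [e0, e1, ONE.len_unit P0 h H (X 0 ^ 2) (N * X 2) (SMH.not_mem _ (by simp)), Set.pair_comm,
    hA P0 h N (X 2) H ONE.X2_prime (Ideal.subset_span (by simp)) H_ndvd, len_NH hA h, len_yH hA h]
  rfl

lemma fin : {p : Projectivization ℂ (Fin 3 → ℂ) | eval p.rep (E0 F) = 0 ∧
    eval p.rep (E1 F) = 0 ∧ eval p.rep (E2 F) = 0}.Finite := by
  have hT : ({![1, 0, 0], ![0, 1, 0], ![1, 5 * (-4 / 25) ^ 3 / 4, -4 / 25]} :
      Set (Fin 3 → ℂ)).Finite := Set.toFinite _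
  refine (hT.image SMH.toP).subset ?_
  rintro p ⟨h0, h1, h2⟩
  rw [e0] at h0
  rw [e1] at h1
  rw [e2] at h2
  simp only [H, N, map_add, map_sub, map_mul, map_pow, eval_X, map_ofNat] at h0 h1 h2
  obtain ⟨u, hu⟩ : ∃ u, p.rep 0 = u := ⟨_, rfl⟩
  obtain ⟨v, hv⟩ : ∃ v, p.rep 1 = v := ⟨_, rfl⟩
  obtain ⟨y, hy⟩ : ∃ y, p.rep 2 = y := ⟨_, rfl⟩
  rw [hu, hv, hy] at h0 h1 h2
  have hrep := SMH.rep_eq p.rep u v y hu hv hy
  by_cases hu0 : u = 0
  · subst hu0
    have h3 : y ^ 6 = 0 := by linear_combination -h2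
    have h3' := pow_eq_zero_iff (by norm_num) |>.mp h3
    refine ⟨![0, 1, 0], by simp, SMH.toP_eq p _ v ?_⟩
    rw [hrep, h3']
    simp
  · obtain ⟨v', rfl⟩ : ∃ v', v = u * v' := ⟨v / u, by field_simp⟩
    obtain ⟨y', rfl⟩ : ∃ y', y = u * y' := ⟨y / u, by field_simp⟩
    have hA : y' ^ 5 + 4 * v' ^ 2 = 0 := by
      have : u ^ 6 * (y' ^ 5 + 4 * v' ^ 2) = 0 := by linear_combination h0
      rcases mul_eq_zero.mp this with h | h
      · exact absurd (pow_eq_zero_iff (by norm_num) |>.mp h) hu0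
      · exact h
    have hB : y' * (5 * y' ^ 3 - 4 * v') = 0 := by
      have : u ^ 6 * (y' * (5 * y' ^ 3 - 4 * v')) = 0 := by linear_combination h1
      rcases mul_eq_zero.mp this with h | h
      · exact absurd (pow_eq_zero_iff (by norm_num) |>.mp h) hu0
      · exact h
    by_cases hy0 : y' = 0
    · subst hy0
      have hv0 : v' = 0 := by
        have : v' ^ 2 = 0 := by linear_combination (1 / 4) * hA
        exact pow_eq_zero_iff (by norm_num) |>.mp this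
      subst hv0
      refine ⟨![1, 0, 0], by simp, SMH.toP_eq p _ u ?_⟩
      rw [hrep]
      simp
    · have hU : 5 * y' ^ 3 - 4 * v' = 0 := by
        rcases mul_eq_zero.mp hB with h | h
        · exact absurd h hy0
        · exact h
      have hv' : v' = 5 * y' ^ 3 / 4 := by linear_combination (-1 / 4) * hU
      have hy' : y' = -4 / 25 := by
        have : y' ^ 5 * (1 + 25 / 4 * y') = 0 := by
          rw [hv'] at hA
          linear_combination hA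
        rcases mul_eq_zero.mp this with h | h
        · exact absurd (pow_eq_zero_iff (by norm_num) |>.mp h) hy0
        · linear_combination (4 / 25) * h
      subst hy'
      refine ⟨![1, 5 * (-4 / 25) ^ 3 / 4, -4 / 25], by simp, SMH.toP_eq p _ u ?_⟩
      rw [hrep, hv']
      simp

end M67

theorem f67 (hA : StmADD) (_hO : StmONE) (_hL : StmLIN) (_hK : StmKEY) (_hK2 : StmKY2) :
    StmF67 :=
  ⟨M67.F, M67.F_hom, M67.fin, ONE.P0_prime, M67.len_main hA ONE.P0_prime⟩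

end H28.EG
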