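import Pool.Agent.T6.H28.EG.Defs3

/-! Project EG, fourth part: the small degrees. -/

open MvPolynomial

namespace H28.EG

def StmSP1 : Prop := Good 4 2 ∧ Good 4 5
def StmSMQ : Prop := ∀ d m : ℕ, 4 ≤ m → m < d → Good d m
def StmF2G : Prop := Good 5 11 ∧ Good 6 11 ∧ Good 8 13
def StmF67 : Prop := Good 6 7
def StmF68 : Prop := Good 6 8 ∧ Good 6 9 ∧ Good 6 10
def StmF85 : Prop := Good 8 15 ∧ Good 8 17
def StmF88 : Prop := Good 8 18 ∧ Good 8 19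
def StmF94 : Prop := Good 9 41

/-- the covering for `2 ≤ e < 10` -/
def StmCVT : Prop := ∀ e m : ℕ, 2 ≤ e → e < 10 → e + 2 ≤ m → m < e ^ 2 →
  Fam e m ∨ FamB e m ∨ (e, m) ∈ ([(3, 5), (4, 11), (5, 7), (5, 8), (5, 9), (5, 10), (5, 11),
    (6, 29), (7, 13), (7, 15), (7, 17), (7, 18), (7, 19), (8, 41)] : List (ℕ × ℕ))

end H28.EG
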