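import Pool.Agent.T6.H28.EG.TOP
import Pool.Agent.T6.H28.EG.Defs4

/-! Project EG, module F68 (helper22): forms of degree 6 with components of degree 8, 9, 10. -/

set_option autoImplicit false

namespace H28.EG

open MvPolynomial

namespace ModF68

open ModTOP

lemma hn {n : ℕ} (m : ℕ) [m.AtLeastTwo] {p : S} (hp : p.IsHomogeneous n) :
    ((OfNat.ofNat m : S) * p).IsHomogeneous n := by
  have : (OfNat.ofNat m : S) = C (OfNat.ofNat m) := (map_ofNat C m).symm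
  rw [this]
  exact hp.C_mul _

namespace A8

/-- the form -/
noncomputable def F : S := 6 * (X 0 ^ 3 * (X 1 ^ 2 * X 2)) - 9 * (X 0 ^ 3 * (X 1 * X 2 ^ 2)) +
  4 * (X 0 ^ 3 * X 2 ^ 3) + X 2 ^ 6

theorem F_hom : F.IsHomogeneous 6 := by
  unfold F
  have hX : ∀ i : Fin 3, (X i : S).IsHomogeneous 1 := fun i => isHomogeneous_X ℂ i
  refine (((hn 6 ?_).sub (hn 9 ?_)).add (hn 4 ?_)).add ((hX 2).pow 6)
  · exact ((hX 0).pow 3).mul (((hX 1).pow 2).mul (hX 2))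
  · exact ((hX 0).pow 3).mul ((hX 1).mul ((hX 2).pow 2))
  · exact ((hX 0).pow 3).mul ((hX 2).pow 3)

theorem F_exp : F = C 6 * (X 0 ^ 3 * (X 1 ^ 2 * X 2)) - C 9 * (X 0 ^ 3 * (X 1 * X 2 ^ 2)) +
  C 4 * (X 0 ^ 3 * X 2 ^ 3) + X 2 ^ 6 := by
  unfold F
  simp only [map_ofNat]

theorem d0 : pderiv 0 F = 3 * X 0 ^ 2 * (6 * X 1 ^ 2 * X 2 - 9 * X 1 * X 2 ^ 2 +
    4 * X 2 ^ 3) := by
  rw [F_exp]
  simp only [map_add, map_sub, pderiv_C_mul]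
  simp [pderiv_X, map_ofNat]
  ring

theorem d1 : pderiv 1 F = X 0 ^ 3 * (12 * X 1 * X 2 - 9 * X 2 ^ 2) := by
  rw [F_exp]
  simp only [map_add, map_sub, pderiv_C_mul]
  simp [pderiv_X, map_ofNat]
  ring

theorem d2 : pderiv 2 F = X 0 ^ 3 * (6 * X 1 ^ 2 - 18 * X 1 * X 2 + 12 * X 2 ^ 2) +
    6 * X 2 ^ 5 := by
  rw [F_exp]
  simp only [map_add, map_sub, pderiv_C_mul]
  simp [pderiv_X, map_ofNat]
  ring

theorem e0 : E0 F = C 6 * X 0 ^ 3 * (([1, 2] : List ℂ).map L).prod * X 2 := by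
  unfold E0
  rw [d0, d1]
  simp only [L, List.map_cons, List.map_nil, List.prod_cons, List.prod_nil, C_1, map_ofNat]
  ring

theorem e1 : E1 F = X 0 ^ 4 * (6 * X 1 ^ 2 - 18 * X 1 * X 2 + 12 * X 2 ^ 2) +
    6 * X 0 * X 2 ^ 5 - X 0 ^ 3 * X 2 * (12 * X 1 * X 2 - 9 * X 2 ^ 2) := by
  unfold E1
  rw [d2, d1]
  ring

theorem e2 : E2 F = X 1 * (X 0 ^ 3 * (6 * X 1 ^ 2 - 18 * X 1 * X 2 + 12 * X 2 ^ 2) +
    6 * X 2 ^ 5) - X 2 * (3 * X 0 ^ 2 * (6 * X 1 ^ 2 * X 2 - 9 * X 1 * X 2 ^ 2 +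
    4 * X 2 ^ 3)) := by
  unfold E2
  rw [d2, d0]

theorem phE (ρ : ℂ) : ph ρ (E1 F) = X 0 ^ 4 * X 2 ^ 2 * C (6 * (ρ - 1) * (ρ - 2)) +
    6 * X 0 * X 2 ^ 5 - X 0 ^ 3 * X 2 ^ 3 * C (12 * ρ - 9) := by
  rw [e1]
  simp only [map_add, map_sub, map_mul, map_pow, map_ofNat, ph0, ph1, ph2, map_one]
  ring

theorem o1 : OrdIs 1 3 (E1 F) := by
  refine ord_of (W := -(3 * X 0 ^ 3) + 6 * X 0 * X 2 ^ 2) ?_ (by simp)
  rw [phE]
  norm_num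
  simp only [map_ofNat]
  ring

theorem o2 : OrdIs 2 3 (E1 F) := by
  refine ord_of (W := -(15 * X 0 ^ 3) + 6 * X 0 * X 2 ^ 2) ?_ (by simp)
  rw [phE]
  norm_num
  simp only [map_ofNat]
  ring

theorem oy : OrdY 2 (E1 F) := by
  refine ⟨6 * X 0 ^ 4, X 0 ^ 4 * (- 18 * X 1 + 12 * X 2) + 6 * X 0 * X 2 ^ 4 -
    X 0 ^ 3 * (12 * X 1 * X 2 - 9 * X 2 ^ 2), ?_, by simp⟩
  rw [e1]
  ring

theorem ndvd : ¬ (X 0 : S) ∣ E2 F := by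
  rintro ⟨A, hA⟩
  have h := congrArg (eval ![(0 : ℂ), 1, 1]) hA
  rw [e2] at h
  simp at h

theorem good (h : StmKY2) : Good 6 8 := by
  have key := h 6 F 6 3 [1, 2] (fun _ => 3) 2 F_hom (by norm_num) e0 ?_ oy ndvd
  · exact key
  · intro ρ hρ
    simp only [List.mem_cons, List.not_mem_nil, or_false] at hρ
    rcases hρ with rfl | rfl
    · exact o1
    · exact o2

end A8

namespace A9

/-- the form -/
noncomputable def F : S := X 0 ^ 3 * (X 1 ^ 2 * X 2) - 2 * (X 0 ^ 3 * (X 1 * X 2 ^ 2)) +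
  X 0 ^ 3 * X 2 ^ 3 + X 2 ^ 6 + X 0 * X 1 * X 2 ^ 4

theorem F_hom : F.IsHomogeneous 6 := by
  unfold F
  have hX : ∀ i : Fin 3, (X i : S).IsHomogeneous 1 := fun i => isHomogeneous_X ℂ i
  refine ((((?_ : IsHomogeneous _ 6).sub (hn 2 ?_)).add ?_).add
    ((hX 2).pow 6)).add (((hX 0).mul (hX 1)).mul ((hX 2).pow 4))
  · exact ((hX 0).pow 3).mul (((hX 1).pow 2).mul (hX 2))
  · exact ((hX 0).pow 3).mul ((hX 1).mul ((hX 2).pow 2))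
  · exact ((hX 0).pow 3).mul ((hX 2).pow 3)

theorem F_exp : F = X 0 ^ 3 * (X 1 ^ 2 * X 2) - C 2 * (X 0 ^ 3 * (X 1 * X 2 ^ 2)) +
  X 0 ^ 3 * X 2 ^ 3 + X 2 ^ 6 + X 0 * X 1 * X 2 ^ 4 := by
  unfold F
  simp only [map_ofNat]

theorem d0 : pderiv 0 F = 3 * X 0 ^ 2 * (X 1 ^ 2 * X 2 - 2 * X 1 * X 2 ^ 2 + X 2 ^ 3) +
    X 1 * X 2 ^ 4 := by
  rw [F_exp]
  simp only [map_add, map_sub, pderiv_C_mul]
  simp [pderiv_X, map_ofNat]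
  ring

theorem d1 : pderiv 1 F = X 0 ^ 3 * (2 * X 1 * X 2 - 2 * X 2 ^ 2) + X 0 * X 2 ^ 4 := by
  rw [F_exp]
  simp only [map_add, map_sub, pderiv_C_mul]
  simp [pderiv_X, map_ofNat]
  ring

theorem d2 : pderiv 2 F = X 0 ^ 3 * (X 1 ^ 2 - 4 * X 1 * X 2 + 3 * X 2 ^ 2) +
    6 * X 2 ^ 5 + 4 * X 0 * X 1 * X 2 ^ 3 := by
  rw [F_exp]
  simp only [map_add, map_sub, pderiv_C_mul]
  simp [pderiv_X, map_ofNat]
  ring

theorem e0 : E0 F = C 1 * X 0 ^ 3 * (([1, 3] : List ℂ).map L).prod * X 2 := by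
  unfold E0
  rw [d0, d1]
  simp only [L, List.map_cons, List.map_nil, List.prod_cons, List.prod_nil, C_1, map_ofNat]
  ring

theorem e1 : E1 F = X 0 ^ 4 * (X 1 ^ 2 - 4 * X 1 * X 2 + 3 * X 2 ^ 2) +
    5 * X 0 * X 2 ^ 5 + 4 * X 0 ^ 2 * X 1 * X 2 ^ 3 -
    X 0 ^ 3 * X 2 * (2 * X 1 * X 2 - 2 * X 2 ^ 2) := by
  unfold E1
  rw [d2, d1]
  ring

theorem e2 : E2 F = X 1 * (X 0 ^ 3 * (X 1 ^ 2 - 4 * X 1 * X 2 + 3 * X 2 ^ 2) +
    6 * X 2 ^ 5 + 4 * X 0 * X 1 * X 2 ^ 3) -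
    X 2 * (3 * X 0 ^ 2 * (X 1 ^ 2 * X 2 - 2 * X 1 * X 2 ^ 2 + X 2 ^ 3) + X 1 * X 2 ^ 4) := by
  unfold E2
  rw [d2, d0]

theorem phE (ρ : ℂ) : ph ρ (E1 F) = X 0 ^ 4 * X 2 ^ 2 * C ((ρ - 1) * (ρ - 3)) +
    5 * X 0 * X 2 ^ 5 + C (4 * ρ) * X 0 ^ 2 * X 2 ^ 4 - X 0 ^ 3 * X 2 ^ 3 * C (2 * (ρ - 1)) := by
  rw [e1]
  simp only [map_add, map_sub, map_mul, map_pow, map_ofNat, ph0, ph1, ph2, map_one]
  ring

theorem o1 : OrdIs 1 4 (E1 F) := by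
  refine ord_of (W := 4 * X 0 ^ 2 + 5 * X 0 * X 2) ?_ (by simp)
  rw [phE]
  norm_num
  simp only [map_ofNat]
  ring

theorem o3 : OrdIs 3 3 (E1 F) := by
  refine ord_of (W := -(4 * X 0 ^ 3) + 12 * X 0 ^ 2 * X 2 + 5 * X 0 * X 2 ^ 2) ?_ (by simp)
  rw [phE]
  norm_num
  simp only [map_ofNat]
  ring

theorem oy : OrdY 2 (E1 F) := by
  refine ⟨X 0 ^ 4, X 0 ^ 4 * (- 4 * X 1 + 3 * X 2) + 5 * X 0 * X 2 ^ 4 +
    4 * X 0 ^ 2 * X 1 * X 2 ^ 2 - X 0 ^ 3 * (2 * X 1 * X 2 - 2 * X 2 ^ 2), ?_, by simp⟩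
  rw [e1]
  ring

theorem ndvd : ¬ (X 0 : S) ∣ E2 F := by
  rintro ⟨A, hA⟩
  have h := congrArg (eval ![(0 : ℂ), 1, 1]) hA
  rw [e2] at h
  simp at h
  norm_num at h

theorem good (h : StmKY2) : Good 6 9 := by
  have key := h 6 F 1 3 [1, 3] (fun ρ => if ρ = 1 then 4 else 3) 2 F_hom (by norm_num) e0 ?_ oy ndvd
  · have hs : (([1, 3] : List ℂ).map (fun ρ => if ρ = 1 then 4 else 3)).sum + 2 = 9 := by
      norm_num
    rw [hs] at key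
    exact key
  · intro ρ hρ
    simp only [List.mem_cons, List.not_mem_nil, or_false] at hρ
    rcases hρ with rfl | rfl
    · simpa using o1
    · have h1 : (if (3 : ℂ) = 1 then 4 else 3) = 3 := by norm_num
      rw [h1]
      exact o3

end A9

namespace A10

/-- the form -/
noncomputable def F : S := X 0 ^ 4 * X 1 ^ 2 + X 2 ^ 6

theorem F_hom : F.IsHomogeneous 6 := by
  unfold F
  have hX : ∀ i : Fin 3, (X i : S).IsHomogeneous 1 := fun i => isHomogeneous_X ℂ i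
  exact (((hX 0).pow 4).mul ((hX 1).pow 2)).add ((hX 2).pow 6)

theorem d0 : pderiv 0 F = 4 * X 0 ^ 3 * X 1 ^ 2 := by
  unfold F
  simp [pderiv_X]
  ring

theorem d1 : pderiv 1 F = 2 * X 0 ^ 4 * X 1 := by
  unfold F
  simp [pderiv_X]
  ring

theorem d2 : pderiv 2 F = 6 * X 2 ^ 5 := by
  unfold F
  simp [pderiv_X]

theorem e0 : E0 F = C 2 * X 0 ^ 4 * (([0, 0] : List ℂ).map L).prod := by
  unfold E0
  rw [d0, d1]
  simp only [L, List.map_cons, List.map_nil, List.prod_cons, List.prod_nil, C_0, map_ofNat]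
  ring

theorem e1 : E1 F = 6 * X 0 * X 2 ^ 5 - 2 * X 0 ^ 4 * X 1 * X 2 := by
  unfold E1
  rw [d2, d1]
  ring

theorem e2 : E2 F = 6 * X 1 * X 2 ^ 5 - 4 * X 0 ^ 3 * X 1 ^ 2 * X 2 := by
  unfold E2
  rw [d2, d0]
  ring

theorem o0 : OrdIs 0 5 (E1 F) := by
  refine ord_of (W := 6 * X 0) ?_ (by simp)
  rw [e1]
  simp only [map_sub, map_mul, map_pow, map_ofNat, ph0, ph1, ph2, C_0]
  ring

theorem ndvd : ¬ (X 0 : S) ∣ E2 F := by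
  rintro ⟨A, hA⟩
  have h := congrArg (eval ![(0 : ℂ), 1, 1]) hA
  rw [e2] at h
  simp at h

theorem good (h : StmKEY) : Good 6 10 := by
  have key := h 6 F 2 4 [0, 0] (fun _ => 5) F_hom (by norm_num) e0 ?_ ndvd
  · exact key
  · intro ρ hρ
    simp only [List.mem_cons, List.not_mem_nil, or_false] at hρ
    rcases hρ with rfl | rfl <;> exact o0

end A10

end ModF68

/-- **F68** -/
theorem f68 (hK : StmKEY) (hK2 : StmKY2) : StmF68 :=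
  ⟨ModF68.A8.good hK2, ModF68.A9.good hK2, ModF68.A10.good hK⟩

end H28.EG
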