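import Pool.Agent.T6.H28.EG.SPC
import Pool.Agent.T6.H28.EG.Defs4

/-! Project EG, module F85 (helper49): the values 15 and 17 in degree 8. -/

set_option autoImplicit false

open MvPolynomial

namespace H28.EG

namespace ModF85

open ModSPC

theorem pdn (i : Fin 3) (n : ℕ) : pderiv i (n : S) = 0 := by
  rw [← map_natCast (C (σ := Fin 3) (R := ℂ)) n, pderiv_C]

/-! the value 15 -/

noncomputable def F1 : S := X 0 ^ 4 * (X 2 * (C 6 * X 1 ^ 3 - C 18 * X 1 ^ 2 * X 2 +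
  C 22 * X 1 * X 2 ^ 2 - C 9 * X 2 ^ 3)) + X 2 ^ 8

theorem a0 : pderiv 0 F1 = 4 * X 0 ^ 3 * (X 2 * (6 * X 1 ^ 3 - 18 * X 1 ^ 2 * X 2 +
    22 * X 1 * X 2 ^ 2 - 9 * X 2 ^ 3)) := by
  unfold F1
  simp only [map_add, map_sub, pderiv_mul, pderiv_pow, pderiv_X, pderiv_C]
  simp only [map_ofNat]
  simp
  try ring

theorem a1 : pderiv 1 F1 = X 0 ^ 4 * (X 2 * (18 * X 1 ^ 2 - 36 * X 1 * X 2 +
    22 * X 2 ^ 2)) := by
  unfold F1
  simp only [map_add, map_sub, pderiv_mul, pderiv_pow, pderiv_X, pderiv_C]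
  simp only [map_ofNat]
  simp
  try ring

theorem a2 : pderiv 2 F1 = X 0 ^ 4 * (6 * X 1 ^ 3 - 36 * X 1 ^ 2 * X 2 +
    66 * X 1 * X 2 ^ 2 - 36 * X 2 ^ 3) + 8 * X 2 ^ 7 := by
  unfold F1
  simp only [map_add, map_sub, pderiv_mul, pderiv_pow, pderiv_X, pderiv_C]
  simp only [map_ofNat]
  simp
  try ring

theorem aE1 (ρ : ℂ) (hρ : 6 * ρ ^ 3 - 36 * ρ ^ 2 + 66 * ρ - 36 = 0)
    (h2 : 18 * ρ ^ 2 - 36 * ρ + 22 ≠ 0) : OrdIs ρ 4 (E1 F1) := by
  obtain ⟨A, hA⟩ := modL ρ (E1 F1)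
  have e : aeval (![X 0, C ρ * X 2, X 2] : Fin 3 → S) (E1 F1) =
      X 2 ^ 4 * (8 * X 0 * X 2 ^ 3 - C (18 * ρ ^ 2 - 36 * ρ + 22) * X 0 ^ 4) := by
    unfold E1
    rw [a1, a2]
    have h3 : (6 : S) * C ρ ^ 3 - 36 * C ρ ^ 2 + 66 * C ρ - 36 = 0 := by
      have h4 := congrArg (C (σ := Fin 3)) hρ
      simp only [map_mul, map_add, map_sub, map_pow, map_ofNat, map_zero] at h4
      exact h4
    simp only [map_add, map_sub, map_mul, map_pow, aeval_X, map_ofNat, map_one,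
      Matrix.cons_val_zero, Matrix.cons_val_one, Matrix.cons_val]
    linear_combination (X 0 ^ 5 * X 2 ^ 3 : S) * h3
  rw [e] at hA
  refine ⟨_, A, hA, ?_⟩
  simp only [map_sub, map_mul, map_pow, eval_X, eval_C, map_ofNat, Matrix.cons_val_zero,
    Matrix.cons_val]
  intro h5
  apply h2
  linear_combination -h5

theorem aY : OrdY 3 (E1 F1) := by
  obtain ⟨A, hA⟩ := modY (E1 F1)
  have e : aeval (![X 0, X 1, 0] : Fin 3 → S) (E1 F1) = X 1 ^ 3 * (6 * X 0 ^ 5) := by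
    unfold E1
    rw [a1, a2]
    simp only [map_add, map_sub, map_mul, map_pow, aeval_X, map_ofNat, map_one,
      Matrix.cons_val_zero, Matrix.cons_val_one, Matrix.cons_val]
    ring
  rw [e] at hA
  refine ⟨_, A, hA, ?_⟩
  simp

theorem aE0 : E0 F1 = C 6 * X 0 ^ 4 * (([1, 2, 3] : List ℂ).map L).prod * X 2 := by
  unfold E0
  rw [a0, a1]
  simp only [List.map_cons, List.map_nil, List.prod_cons, List.prod_nil, L, map_ofNat, map_one]
  ring

theorem ahom : F1.IsHomogeneous 8 := by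
  have x0 := isHomogeneous_X ℂ (0 : Fin 3)
  have x1 := isHomogeneous_X ℂ (1 : Fin 3)
  have x2 := isHomogeneous_X ℂ (2 : Fin 3)
  have c (z : ℂ) := isHomogeneous_C (Fin 3) z
  unfold F1
  have h1 : (C 6 * X 1 ^ 3 : S).IsHomogeneous 3 := by simpa using (c 6).mul (x1.pow 3)
  have h2 : (C 18 * X 1 ^ 2 * X 2 : S).IsHomogeneous 3 := by
    simpa using ((c 18).mul (x1.pow 2)).mul x2
  have h3 : (C 22 * X 1 * X 2 ^ 2 : S).IsHomogeneous 3 := by
    simpa using ((c 22).mul x1).mul (x2.pow 2)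
  have h4 : (C 9 * X 2 ^ 3 : S).IsHomogeneous 3 := by simpa using (c 9).mul (x2.pow 3)
  have h5 := (x0.pow 4).mul (x2.mul (((h1.sub h2).add h3).sub h4))
  have h6 := x2.pow 8
  simp only [one_mul] at h5 h6
  exact h5.add h6

theorem and0 : ¬ X 0 ∣ E2 F1 := by
  rintro ⟨A, hA⟩
  have h1 := congrArg (eval (![0, 1, 1] : Fin 3 → ℂ)) hA
  unfold E2 at h1
  rw [a0, a2] at h1
  simp at h1

/-! the value 17 -/

noncomputable def F2 : S := X 0 ^ 4 * (X 2 * (X 1 - X 2) ^ 2 * (C 4 * X 1 - C 9 * X 2)) + X 2 ^ 8 +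
  X 0 * X 1 * X 2 ^ 6

theorem b0 : pderiv 0 F2 = 4 * X 0 ^ 3 * (X 2 * (X 1 - X 2) ^ 2 * (4 * X 1 - 9 * X 2)) +
    X 1 * X 2 ^ 6 := by
  unfold F2
  simp only [map_add, map_sub, pderiv_mul, pderiv_pow, pderiv_X, pderiv_C]
  simp only [map_ofNat]
  simp
  try ring

theorem b1 : pderiv 1 F2 = X 0 ^ 4 * (X 2 * (2 * (X 1 - X 2) * (4 * X 1 - 9 * X 2) +
    4 * (X 1 - X 2) ^ 2)) + X 0 * X 2 ^ 6 := by
  unfold F2
  simp only [map_add, map_sub, pderiv_mul, pderiv_pow, pderiv_X, pderiv_C]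
  simp only [map_ofNat]
  simp
  try ring

theorem b2 : pderiv 2 F2 = X 0 ^ 4 * ((X 1 - X 2) ^ 2 * (4 * X 1 - 9 * X 2) -
    2 * X 2 * (X 1 - X 2) * (4 * X 1 - 9 * X 2) - 9 * X 2 * (X 1 - X 2) ^ 2) + 8 * X 2 ^ 7 +
    6 * X 0 * X 1 * X 2 ^ 5 := by
  unfold F2
  simp only [map_add, map_sub, pderiv_mul, pderiv_pow, pderiv_X, pderiv_C]
  simp only [map_ofNat]
  simp
  try ring

theorem bev (ρ : ℂ) : aeval (![X 0, C ρ * X 2, X 2] : Fin 3 → S) (E1 F2) =
    C ((ρ - 1) * (4 * ρ ^ 2 - 30 * ρ + 36)) * X 0 ^ 5 * X 2 ^ 3 -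
    C ((ρ - 1) * (12 * ρ - 22)) * X 0 ^ 4 * X 2 ^ 4 + C (6 * ρ) * X 0 ^ 2 * X 2 ^ 6 +
    7 * X 0 * X 2 ^ 7 := by
  unfold E1
  rw [b1, b2]
  simp only [map_add, map_sub, map_mul, map_pow, aeval_X, map_ofNat, map_one, map_zero,
    Matrix.cons_val_zero, Matrix.cons_val_one, Matrix.cons_val]
  ring

theorem bone : OrdIs 1 6 (E1 F2) := by
  obtain ⟨A, hA⟩ := modL 1 (E1 F2)
  rw [bev] at hA
  refine ⟨6 * X 0 ^ 2 + 7 * X 0 * X 2, A, ?_, ?_⟩
  · conv_lhs => rw [hA]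
    simp only [sub_self, zero_mul, map_zero, mul_one, map_ofNat]
    ring
  · simp

theorem bfour (ρ : ℂ) (h1 : (ρ - 1) * (4 * ρ ^ 2 - 30 * ρ + 36) = 0)
    (h2 : (ρ - 1) * (12 * ρ - 22) ≠ 0) : OrdIs ρ 4 (E1 F2) := by
  obtain ⟨A, hA⟩ := modL ρ (E1 F2)
  rw [bev, h1] at hA
  refine ⟨- C ((ρ - 1) * (12 * ρ - 22)) * X 0 ^ 4 + C (6 * ρ) * X 0 ^ 2 * X 2 ^ 2 +
    7 * X 0 * X 2 ^ 3, A, ?_, ?_⟩
  · conv_lhs => rw [hA]
    simp only [map_zero, zero_mul]
    ring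
  · simp only [map_neg, map_add, map_mul, map_pow, eval_X, eval_C, map_ofNat,
      Matrix.cons_val_zero, Matrix.cons_val]
    intro h5
    apply h2
    linear_combination -h5

theorem bY : OrdY 3 (E1 F2) := by
  obtain ⟨A, hA⟩ := modY (E1 F2)
  have e : aeval (![X 0, X 1, 0] : Fin 3 → S) (E1 F2) = X 1 ^ 3 * (4 * X 0 ^ 5) := by
    unfold E1
    rw [b1, b2]
    simp only [map_add, map_sub, map_mul, map_pow, aeval_X, map_ofNat, map_one,
      Matrix.cons_val_zero, Matrix.cons_val_one, Matrix.cons_val]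
    ring
  rw [e] at hA
  refine ⟨_, A, hA, ?_⟩
  simp

theorem bE0 : E0 F2 = C 4 * X 0 ^ 4 * (([1, 6, 3 / 2] : List ℂ).map L).prod * X 2 := by
  have h3 : (C (3 / 2) : S) * 2 = 3 := by
    have h4 := congrArg (C (σ := Fin 3)) (show (3 / 2 : ℂ) * 2 = 3 by norm_num)
    simp only [map_mul, map_ofNat] at h4
    exact h4
  unfold E0
  rw [b0, b1]
  simp only [List.map_cons, List.map_nil, List.prod_cons, List.prod_nil, L, map_ofNat, map_one]
  linear_combination (2 * X 0 ^ 4 * (X 1 - X 2) * (X 1 - 6 * X 2) * X 2 ^ 2 : S) * h3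

theorem bhom : F2.IsHomogeneous 8 := by
  have x0 := isHomogeneous_X ℂ (0 : Fin 3)
  have x1 := isHomogeneous_X ℂ (1 : Fin 3)
  have x2 := isHomogeneous_X ℂ (2 : Fin 3)
  have c (z : ℂ) := isHomogeneous_C (Fin 3) z
  unfold F2
  have h1 : (C 4 * X 1 : S).IsHomogeneous 1 := by simpa using (c 4).mul x1
  have h2 : (C 9 * X 2 : S).IsHomogeneous 1 := by simpa using (c 9).mul x2
  have h5 := (x0.pow 4).mul ((x2.mul ((x1.sub x2).pow 2)).mul (h1.sub h2))
  have h6 := x2.pow 8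
  have h7 := (x0.mul x1).mul (x2.pow 6)
  simp only [one_mul] at h5 h6 h7
  exact (h5.add h6).add h7

theorem bnd0 : ¬ X 0 ∣ E2 F2 := by
  rintro ⟨A, hA⟩
  have h1 := congrArg (eval (![0, 1, 1] : Fin 3 → ℂ)) hA
  unfold E2 at h1
  rw [b0, b2] at h1
  simp at h1
  norm_num at h1

end ModF85

open ModF85 in
theorem f85 (h : StmKY2) : StmF85 := by
  constructor
  · have main := h 8 F1 6 4 [1, 2, 3] (fun _ => 4) 3 ahom (by norm_num) aE0 ?_ aY and0
    · have e1 : (List.map (fun _ : ℂ => 4) ([1, 2, 3] : List ℂ)).sum + 3 = 15 := by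
        simp
      rw [e1] at main
      exact main
    · intro ρ hρ
      simp only [List.mem_cons, List.not_mem_nil, or_false] at hρ
      rcases hρ with rfl | rfl | rfl
      · exact aE1 _ (by norm_num) (by norm_num)
      · exact aE1 _ (by norm_num) (by norm_num)
      · exact aE1 _ (by norm_num) (by norm_num)
  · have main := h 8 F2 4 4 [1, 6, 3 / 2] (fun z => if z = 1 then 6 else 4) 3 bhom (by norm_num)
      bE0 ?_ bY bnd0
    · have e1 : (List.map (fun z : ℂ => if z = 1 then 6 else 4) ([1, 6, 3 / 2] : List ℂ)).sum + 3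
          = 17 := by
        have h6 : (6 : ℂ) ≠ 1 := by norm_num
        have h7 : (3 / 2 : ℂ) ≠ 1 := by norm_num
        simp only [List.map_cons, List.map_nil, List.sum_cons, List.sum_nil, if_true, if_neg h6,
          if_neg h7]
        norm_num
      rw [e1] at main
      exact main
    · intro ρ hρ
      simp only [List.mem_cons, List.not_mem_nil, or_false] at hρ
      rcases hρ with rfl | rfl | rfl
      · simp only [if_true]
        exact bone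
      · have h6 : (6 : ℂ) ≠ 1 := by norm_num
        simp only [if_neg h6]
        exact bfour _ (by norm_num) (by norm_num)
      · have h7 : (3 / 2 : ℂ) ≠ 1 := by norm_num
        simp only [if_neg h7]
        exact bfour _ (by norm_num) (by norm_num)

end H28.EG
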