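import Pool.Agent.T6.H61.EG.F88

/-! Project EG, module F88 (helper61): the proof is in `T6/H61/EG/F88.lean`. -/

set_option autoImplicit false

namespace H28.EG

/-- F88 -/
theorem f88 (h : StmKY2) : StmF88 := Pool.Agent.T6.H61.EG.f88 h

end H28.EG
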