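import Pool.Agent.T6.H28.EG.Defs

/-! Project EG (`MP_3fe32a_ag`), module TOP: the interval `[e², e² + e + 1]` (helper91). -/

set_option autoImplicit false

open MvPolynomial

namespace H28.EG

namespace ModTOP

/-- restriction to the line `v = ρ y` -/
noncomputable def ph (ρ : ℂ) : S →ₐ[ℂ] S := aeval ![X 0, C ρ * X 2, X 2]

lemma ph0 (ρ : ℂ) : ph ρ (X 0) = X 0 := by simp [ph]
lemma ph1 (ρ : ℂ) : ph ρ (X 1) = C ρ * X 2 := by simp [ph]
lemma ph2 (ρ : ℂ) : ph ρ (X 2) = X 2 := by simp [ph]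
lemma phC (ρ a : ℂ) : ph ρ (C a) = C a := by simp [ph]

lemma L_dvd (ρ : ℂ) (H : S) : L ρ ∣ H - ph ρ H := by
  induction H using MvPolynomial.induction_on with
  | C a => rw [phC, sub_self]; exact dvd_zero _
  | add p q hp hq =>
    rw [map_add]
    have e : p + q - (ph ρ p + ph ρ q) = (p - ph ρ p) + (q - ph ρ q) := by ring
    rw [e]
    exact dvd_add hp hq
  | mul_X p i hp =>
    rw [map_mul]
    have e : p * X i - ph ρ p * ph ρ (X i) = (p - ph ρ p) * X i + ph ρ p * (X i - ph ρ (X i)) := by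
      ring
    rw [e]
    refine dvd_add (hp.mul_right _) (Dvd.dvd.mul_left ?_ _)
    fin_cases i
    · show L ρ ∣ X 0 - ph ρ (X 0)
      rw [ph0, sub_self]; exact dvd_zero _
    · show L ρ ∣ X 1 - ph ρ (X 1)
      rw [ph1]
      exact dvd_rfl
    · show L ρ ∣ X 2 - ph ρ (X 2)
      rw [ph2, sub_self]; exact dvd_zero _

lemma ord_of {ρ : ℂ} {o : ℕ} {H W : S} (h : ph ρ H = X 2 ^ o * W)
    (hW : eval ![1, 0, 0] W ≠ 0) : OrdIs ρ o H := by
  obtain ⟨A, hA⟩ := L_dvd ρ H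
  refine ⟨W, A, ?_, hW⟩
  rw [← h, ← hA]
  ring

lemma roots_list (n : ℕ) (hn : 0 < n) (c : ℂ) :
    ∃ rs : List ℂ, rs.length = n ∧ (∀ ρ ∈ rs, ρ ^ n = c) ∧
      (X 1 : S) ^ n - C c * X 2 ^ n = (rs.map L).prod := by
  obtain ⟨r0, hr0⟩ := IsAlgClosed.exists_pow_nat_eq c hn
  have hζ := Complex.isPrimitiveRoot_exp n hn.ne'
  set ζ : ℂ := Complex.exp (2 * Real.pi * Complex.I / n) with hζd
  refine ⟨(List.range n).map fun i => ζ ^ i * r0, by simp, ?_, ?_⟩
  · intro ρ hρ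
    obtain ⟨i, -, rfl⟩ := List.mem_map.1 hρ
    rw [mul_pow, ← pow_mul, mul_comm i n, pow_mul, hζ.pow_eq_one, one_pow, one_mul, hr0]
  · have hζ' : IsPrimitiveRoot (C ζ : S) n :=
      hζ.map_of_injective (f := (C : ℂ →+* S)) (C_injective (Fin 3) ℂ)
    have h1 := X_pow_sub_C_eq_prod (R := S) hζ' (α := C r0 * X 2) hn rfl
    have h2 := congrArg (Polynomial.eval (X 1 : S)) h1
    rw [Polynomial.eval_sub, Polynomial.eval_pow, Polynomial.eval_X, Polynomial.eval_C,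
      Polynomial.eval_prod] at h2
    simp only [Polynomial.eval_sub, Polynomial.eval_X, Polynomial.eval_C] at h2
    rw [mul_pow, ← C_pow, hr0] at h2
    rw [h2, List.map_map]
    have h3 : ∀ f : ℕ → S, ∏ i ∈ Finset.range n, f i = ((List.range n).map f).prod := fun f => rfl
    rw [h3]
    congr 1
    apply List.map_congr_left
    intro i _
    simp only [Function.comp_apply, L]
    rw [C_mul, C_pow]
    ring

lemma sum_const (l : List ℂ) (o : ℂ → ℕ) (k : ℕ) (h : ∀ x ∈ l, o x = k) :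
    (l.map o).sum = l.length * k := by
  induction l with
  | nil => simp
  | cons a l ih =>
    rw [List.map_cons, List.sum_cons, ih (fun x hx => h x (List.mem_cons_of_mem _ hx)),
      h a List.mem_cons_self, List.length_cons]
    ring

lemma L_zero : L 0 = X 1 := by simp [L]

lemma natC (n : ℕ) : ((n : ℕ) : S) = C (n : ℂ) := (map_natCast (C : ℂ →+* S) n).symm

/-- first family -/
noncomputable def F1 (p j k : ℕ) : S :=
  C (1 / ((p : ℂ) + 3)) * X 1 ^ (p + 3) - C (1 / ((j : ℂ) + 1)) * (X 1 ^ (j + 1) * X 2 ^ (k + 1))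
    + X 0 * X 1 * X 2 ^ (p + 1)

lemma F1_hom {p j k : ℕ} (h : j + k = p + 1) : (F1 p j k).IsHomogeneous (p + 3) := by
  unfold F1
  have h1 : (X 1 ^ (p + 3) : S).IsHomogeneous (p + 3) := isHomogeneous_X_pow 1 (p + 3)
  have h2 : (X 1 ^ (j + 1) * X 2 ^ (k + 1) : S).IsHomogeneous (p + 3) := by
    have := (isHomogeneous_X_pow (R := ℂ) (1 : Fin 3) (j + 1)).mul (isHomogeneous_X_pow 2 (k + 1))
    rwa [show j + 1 + (k + 1) = p + 3 by omega] at this
  have h3 : (X 0 * X 1 * X 2 ^ (p + 1) : S).IsHomogeneous (p + 3) := by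
    have := ((isHomogeneous_X ℂ (0 : Fin 3)).mul (isHomogeneous_X ℂ (1 : Fin 3))).mul
      (isHomogeneous_X_pow 2 (p + 1))
    rwa [show 1 + 1 + (p + 1) = p + 3 by omega] at this
  exact ((h1.C_mul _).sub (h2.C_mul _)).add h3

lemma F1_d0 (p j k : ℕ) : pderiv 0 (F1 p j k) = X 1 * X 2 ^ (p + 1) := by
  unfold F1
  simp [pderiv_X]
  ring

lemma F1_d1 (p j k : ℕ) :
    pderiv 1 (F1 p j k) = X 1 ^ (p + 2) - X 1 ^ j * X 2 ^ (k + 1) + X 0 * X 2 ^ (p + 1) := by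
  unfold F1
  have hp : ((p : ℂ) + 3) ≠ 0 := by exact_mod_cast (by omega : p + 3 ≠ 0)
  have hj : ((j : ℂ) + 1) ≠ 0 := by exact_mod_cast (by omega : j + 1 ≠ 0)
  have e1 : (C (1 / ((p : ℂ) + 3)) : S) * ((p : S) + 3) = 1 := by
    have : ((p : S) + 3) = C ((p : ℂ) + 3) := by
      rw [C_add, ← natC]
      congr 1
    rw [this, ← C_mul, one_div, inv_mul_cancel₀ hp, C_1]
  have e2 : (C (1 / ((j : ℂ) + 1)) : S) * ((j : S) + 1) = 1 := by
    have : ((j : S) + 1) = C ((j : ℂ) + 1) := by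
      rw [C_add, ← natC, C_1]
    rw [this, ← C_mul, one_div, inv_mul_cancel₀ hj, C_1]
  have d1 : pderiv 1 (X 1 ^ (p + 3) : S) = ((p : S) + 3) * X 1 ^ (p + 2) := by
    rw [Derivation.leibniz_pow, pderiv_X_self]
    simp
  have d2 : pderiv 1 (X 1 ^ (j + 1) : S) = ((j : S) + 1) * X 1 ^ j := by
    rw [Derivation.leibniz_pow, pderiv_X_self]
    simp
  have d3 : ∀ n : ℕ, pderiv 1 (X 2 ^ n : S) = 0 := by
    intro n
    rw [Derivation.leibniz_pow, pderiv_X_of_ne (by decide)]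
    simp
  have d4 : pderiv 1 (X 0 : S) = 0 := pderiv_X_of_ne (by decide)
  have d5 : pderiv 1 (X 1 : S) = 1 := pderiv_X_self 1
  rw [map_add, map_sub, pderiv_C_mul, pderiv_C_mul, pderiv_mul, pderiv_mul, pderiv_mul, d1, d2,
    d3, d3, d4, d5]
  linear_combination X 1 ^ (p + 2) * e1 - X 1 ^ j * X 2 ^ (k + 1) * e2

lemma F1_d2 (p j k : ℕ) :
    pderiv 2 (F1 p j k) = -(C (((k : ℂ) + 1) / ((j : ℂ) + 1)) * X 1 ^ (j + 1) * X 2 ^ k) +
      C ((p : ℂ) + 1) * X 0 * X 1 * X 2 ^ p := by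
  unfold F1
  have d1 : ∀ n : ℕ, pderiv 2 (X 1 ^ n : S) = 0 := by
    intro n
    rw [Derivation.leibniz_pow, pderiv_X_of_ne (by decide)]
    simp
  have d2 : ∀ n : ℕ, pderiv 2 (X 2 ^ (n + 1) : S) = C ((n : ℂ) + 1) * X 2 ^ n := by
    intro n
    rw [Derivation.leibniz_pow, pderiv_X_self, C_add, ← natC, C_1]
    simp
  have d4 : pderiv 2 (X 0 : S) = 0 := pderiv_X_of_ne (by decide)
  have d5 : pderiv 2 (X 1 : S) = 0 := pderiv_X_of_ne (by decide)
  have e3 : (C (((k : ℂ) + 1) / ((j : ℂ) + 1)) : S) = C (1 / ((j : ℂ) + 1)) * C ((k : ℂ) + 1) := by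
    rw [← C_mul]
    congr 1
    ring
  rw [map_add, map_sub, pderiv_C_mul, pderiv_C_mul, pderiv_mul, pderiv_mul, pderiv_mul, d1, d1,
    d2, d2, d4, d5, e3]
  ring

lemma caseI (h : StmKEY) (p j k : ℕ) (hjk : j + k = p + 1) :
    Good (p + 3) ((j + 1) * (p + 2) + (k + 1) * (p + 1)) := by
  obtain ⟨rs, hlen, hrs, hprod⟩ := roots_list (k + 1) (by omega) 1
  have hE0 : E0 (F1 p j k) = C (-1) * X 0 ^ 0 * ((List.replicate (j + 1) 0 ++ rs).map L).prod := by
    rw [List.map_append, List.prod_append, ← hprod, List.map_replicate, List.prod_replicate,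
      L_zero]
    unfold E0
    rw [F1_d0, F1_d1]
    have e1 : (X 1 : S) ^ (p + 3) = X 1 ^ (j + 1) * X 1 ^ (k + 1) := by
      rw [← pow_add]
      congr 1
      omega
    rw [C_neg, C_1]
    linear_combination -e1
  have hph : ∀ ρ : ℂ, ph ρ (E1 (F1 p j k)) =
      X 2 ^ (p + 1) * (-(C (((k : ℂ) + 1) / ((j : ℂ) + 1) * ρ ^ (j + 1)) * X 0 * X 2) +
        C (((p : ℂ) + 1) * ρ) * X 0 ^ 2 - C (ρ ^ (p + 2)) * X 2 ^ 2 + C (ρ ^ j) * X 2 ^ 2 -
        X 0 * X 2) := by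
    intro ρ
    unfold E1
    rw [F1_d1, F1_d2]
    simp only [map_add, map_sub, map_mul, map_pow, map_neg, ph0, ph1, ph2, phC]
    rw [mul_pow, mul_pow, mul_pow]
    have e1 : (X 2 : S) ^ (p + 1) = X 2 ^ j * X 2 ^ k := by
      rw [← pow_add, hjk]
    have e2 : (X 2 : S) ^ (p + 2) = X 2 ^ j * X 2 ^ k * X 2 := by
      rw [pow_succ, e1]
    rw [e2, e1]
    have e3 : (X 2 : S) ^ p * X 2 = X 2 ^ j * X 2 ^ k := by
      rw [← e1, pow_succ]
    linear_combination ((C (p : ℂ) + C 1) * C ρ * X 0 ^ 2) * e3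
  have hE1 : ∀ ρ ∈ List.replicate (j + 1) 0 ++ rs,
      OrdIs ρ (if ρ = 0 then p + 2 else p + 1) (E1 (F1 p j k)) := by
    intro ρ hρ
    by_cases h0 : ρ = 0
    · rw [if_pos h0]
      have h1 := hph ρ
      rw [h0, zero_pow (Nat.succ_ne_zero _), zero_pow (Nat.succ_ne_zero _), mul_zero, mul_zero, C_0] at h1
      rw [h0]
      refine ord_of (W := C (0 ^ j) * X 2 - X 0) ?_ ?_
      · rw [h1]
        ring
      · simp
    · rw [if_neg h0]
      refine ord_of (hph ρ) ?_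
      have hp : ((p : ℂ) + 1) ≠ 0 := by exact_mod_cast (by omega : p + 1 ≠ 0)
      simp [h0, hp]
  have hE2 : ¬ X 0 ∣ E2 (F1 p j k) := by
    rintro ⟨q, hq⟩
    have h1 := congrArg (eval ![(0 : ℂ), 1, 1]) hq
    unfold E2 at h1
    rw [F1_d0, F1_d2] at h1
    simp at h1
    have hj : ((j : ℂ) + 1) ≠ 0 := by exact_mod_cast (by omega : j + 1 ≠ 0)
    have h2 : ((k : ℂ) + 1) + ((j : ℂ) + 1) = 0 := by
      field_simp at h1
      linear_combination -h1
    have h3 : ((k + 1 + (j + 1) : ℕ) : ℂ) = 0 := by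
      push_cast
      exact h2
    have := Nat.cast_eq_zero.1 h3
    omega
  have hg := h (p + 3) (F1 p j k) (-1) 0 (List.replicate (j + 1) 0 ++ rs)
    (fun ρ => if ρ = 0 then p + 2 else p + 1) (F1_hom hjk) (by norm_num) hE0 hE1 hE2
  rw [List.map_append, List.sum_append,
    sum_const (List.replicate (j + 1) 0) _ (p + 2) (fun x hx => by
      rw [if_pos (List.eq_of_mem_replicate hx)]),
    sum_const rs _ (p + 1) (fun x hx => by
      rw [if_neg]
      intro h0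
      have := hrs x hx
      rw [h0, zero_pow (Nat.succ_ne_zero _)] at this
      exact zero_ne_one this), List.length_replicate, hlen] at hg
  exact hg

/-- second family -/
noncomputable def F2 (p : ℕ) : S := X 1 ^ (p + 3) + X 0 * X 1 * X 2 ^ (p + 1)

lemma F2_hom (p : ℕ) : (F2 p).IsHomogeneous (p + 3) := by
  unfold F2
  have h1 : (X 1 ^ (p + 3) : S).IsHomogeneous (p + 3) := isHomogeneous_X_pow 1 (p + 3)
  have h3 : (X 0 * X 1 * X 2 ^ (p + 1) : S).IsHomogeneous (p + 3) := by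
    have := ((isHomogeneous_X ℂ (0 : Fin 3)).mul (isHomogeneous_X ℂ (1 : Fin 3))).mul
      (isHomogeneous_X_pow 2 (p + 1))
    rwa [show 1 + 1 + (p + 1) = p + 3 by omega] at this
  exact h1.add h3

lemma dpow1 (n : ℕ) : pderiv 1 (X 1 ^ (n + 1) : S) = C ((n : ℂ) + 1) * X 1 ^ n := by
  rw [Derivation.leibniz_pow, pderiv_X_self, C_add, ← natC, C_1]
  simp

lemma dpow2 (n : ℕ) : pderiv 2 (X 2 ^ (n + 1) : S) = C ((n : ℂ) + 1) * X 2 ^ n := by
  rw [Derivation.leibniz_pow, pderiv_X_self, C_add, ← natC, C_1]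
  simp

lemma dpow {i j : Fin 3} (h : j ≠ i) (n : ℕ) : pderiv i (X j ^ n : S) = 0 := by
  rw [Derivation.leibniz_pow, pderiv_X_of_ne h]
  simp

lemma F2_d0 (p : ℕ) : pderiv 0 (F2 p) = X 1 * X 2 ^ (p + 1) := by
  unfold F2
  rw [map_add, pderiv_mul, pderiv_mul, dpow (by decide), dpow (by decide), pderiv_X_self,
    pderiv_X_of_ne (by decide)]
  ring

lemma F2_d1 (p : ℕ) :
    pderiv 1 (F2 p) = C ((p : ℂ) + 3) * X 1 ^ (p + 2) + X 0 * X 2 ^ (p + 1) := by
  unfold F2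
  rw [map_add, pderiv_mul, pderiv_mul, dpow1, dpow (by decide), pderiv_X_self,
    pderiv_X_of_ne (by decide)]
  have : (((p + 2 : ℕ) : ℂ) + 1) = (p : ℂ) + 3 := by push_cast; ring
  rw [this]
  ring

lemma F2_d2 (p : ℕ) : pderiv 2 (F2 p) = C ((p : ℂ) + 1) * X 0 * X 1 * X 2 ^ p := by
  unfold F2
  rw [map_add, pderiv_mul, pderiv_mul, dpow2, dpow (by decide), pderiv_X_of_ne (by decide),
    pderiv_X_of_ne (by decide)]
  ring

lemma caseII (h : StmKEY) (p : ℕ) : Good (p + 3) ((p + 3) * (p + 2)) := by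
  have hp3 : ((p : ℂ) + 3) ≠ 0 := by exact_mod_cast (by omega : p + 3 ≠ 0)
  have hE0 : E0 (F2 p) = C (-((p : ℂ) + 3)) * X 0 ^ 0 *
      ((List.replicate (p + 3) 0).map L).prod := by
    rw [List.map_replicate, List.prod_replicate, L_zero]
    unfold E0
    rw [F2_d0, F2_d1, C_neg]
    ring
  have hE1 : ∀ ρ ∈ List.replicate (p + 3) (0 : ℂ), OrdIs ρ ((fun _ => p + 2 : ℂ → ℕ) ρ) (E1 (F2 p)) := by
    intro ρ hρ
    rw [List.eq_of_mem_replicate hρ]
    refine ord_of (W := -X 0) ?_ (by simp)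
    unfold E1
    rw [F2_d1, F2_d2]
    simp only [map_add, map_sub, map_mul, map_pow, ph0, ph1, ph2, phC]
    rw [C_0, zero_mul, zero_pow (Nat.succ_ne_zero _)]
    ring
  have hE2 : ¬ X 0 ∣ E2 (F2 p) := by
    rintro ⟨q, hq⟩
    have h1 := congrArg (eval ![(0 : ℂ), 1, 1]) hq
    unfold E2 at h1
    rw [F2_d0, F2_d2] at h1
    simp at h1
  have hg := h (p + 3) (F2 p) (-((p : ℂ) + 3)) 0 (List.replicate (p + 3) 0)
    (fun _ => p + 2) (F2_hom p) (neg_ne_zero.2 hp3) hE0 hE1 hE2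
  rw [sum_const _ _ (p + 2) (fun _ _ => rfl), List.length_replicate] at hg
  exact hg

/-- third family -/
noncomputable def F3 (p : ℕ) : S := X 1 ^ (p + 3) + X 1 * X 2 ^ (p + 2)

lemma F3_hom (p : ℕ) : (F3 p).IsHomogeneous (p + 3) := by
  unfold F3
  have h1 : (X 1 ^ (p + 3) : S).IsHomogeneous (p + 3) := isHomogeneous_X_pow 1 (p + 3)
  have h3 : (X 1 * X 2 ^ (p + 2) : S).IsHomogeneous (p + 3) := by
    have := (isHomogeneous_X ℂ (1 : Fin 3)).mul (isHomogeneous_X_pow 2 (p + 2))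
    rwa [show 1 + (p + 2) = p + 3 by omega] at this
  exact h1.add h3

lemma F3_d0 (p : ℕ) : pderiv 0 (F3 p) = 0 := by
  unfold F3
  rw [map_add, pderiv_mul, dpow (by decide), dpow (by decide), pderiv_X_of_ne (by decide)]
  ring

lemma F3_d1 (p : ℕ) : pderiv 1 (F3 p) = C ((p : ℂ) + 3) * X 1 ^ (p + 2) + X 2 ^ (p + 2) := by
  unfold F3
  rw [map_add, pderiv_mul, dpow1, dpow (by decide), pderiv_X_self]
  have : (((p + 2 : ℕ) : ℂ) + 1) = (p : ℂ) + 3 := by push_cast; ring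
  rw [this]
  ring

lemma F3_d2 (p : ℕ) : pderiv 2 (F3 p) = C ((p : ℂ) + 2) * X 1 * X 2 ^ (p + 1) := by
  unfold F3
  rw [map_add, pderiv_mul, dpow2, dpow (by decide), pderiv_X_of_ne (by decide)]
  have : (((p + 1 : ℕ) : ℂ) + 1) = (p : ℂ) + 2 := by push_cast; ring
  rw [this]
  ring

lemma caseIII (h : StmKEY) (p : ℕ) : Good (p + 3) ((p + 3) + (p + 2) * (p + 2)) := by
  have hp3 : ((p : ℂ) + 3) ≠ 0 := by exact_mod_cast (by omega : p + 3 ≠ 0)
  have hp2 : ((p : ℂ) + 2) ≠ 0 := by exact_mod_cast (by omega : p + 2 ≠ 0)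
  obtain ⟨rs, hlen, hrs, hprod⟩ := roots_list (p + 2) (by omega) (-(1 / ((p : ℂ) + 3)))
  have hr0 : ∀ ρ ∈ rs, ρ ≠ 0 := by
    intro ρ hρ h0
    have := hrs ρ hρ
    rw [h0, zero_pow (Nat.succ_ne_zero _)] at this
    have h1 : (1 / ((p : ℂ) + 3)) = 0 := by linear_combination this
    exact one_div_ne_zero hp3 h1
  have hE0 : E0 (F3 p) = C (-((p : ℂ) + 3)) * X 0 ^ 0 * ((0 :: rs).map L).prod := by
    rw [List.map_cons, List.prod_cons, ← hprod, L_zero]
    unfold E0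
    rw [F3_d0, F3_d1]
    have e1 : (C (-((p : ℂ) + 3)) : S) * C (-(1 / ((p : ℂ) + 3))) = 1 := by
      rw [← C_mul]
      have : (-((p : ℂ) + 3)) * (-(1 / ((p : ℂ) + 3))) = 1 := by
        field_simp
      rw [this, C_1]
    rw [C_neg] at e1 ⊢
    linear_combination (X 1 * X 2 ^ (p + 2)) * e1
  have hph : ∀ ρ : ℂ, ph ρ (E1 (F3 p)) = C (((p : ℂ) + 2) * ρ) * X 0 * X 2 ^ (p + 2) -
      C (((p : ℂ) + 3) * ρ ^ (p + 2) + 1) * X 2 ^ (p + 3) := by
    intro ρ
    unfold E1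
    rw [F3_d1, F3_d2]
    simp only [map_add, map_sub, map_mul, map_pow, ph0, ph1, ph2, phC]
    rw [C_1, mul_pow]
    ring
  have hE1 : ∀ ρ ∈ 0 :: rs, OrdIs ρ (if ρ = 0 then p + 3 else p + 2) (E1 (F3 p)) := by
    intro ρ hρ
    by_cases h0 : ρ = 0
    · rw [if_pos h0]
      have h1 := hph ρ
      rw [h0, zero_pow (Nat.succ_ne_zero _), mul_zero, mul_zero, C_0, zero_add, C_1] at h1
      rw [h0]
      refine ord_of (W := -1) ?_ (by simp)
      rw [h1]
      ring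
    · rw [if_neg h0]
      have hmem : ρ ∈ rs := by
        rcases List.mem_cons.1 hρ with h1 | h1
        · exact absurd h1 h0
        · exact h1
      refine ord_of (W := C (((p : ℂ) + 2) * ρ) * X 0) ?_ (by simp [h0, hp2])
      have h2 : ((p : ℂ) + 3) * ρ ^ (p + 2) + 1 = 0 := by
        rw [hrs ρ hmem]
        field_simp
        ring
      rw [hph, h2, C_0]
      ring
  have hE2 : ¬ X 0 ∣ E2 (F3 p) := by
    rintro ⟨q, hq⟩
    have h1 := congrArg (eval ![(0 : ℂ), 1, 1]) hq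
    unfold E2 at h1
    rw [F3_d0, F3_d2] at h1
    simp at h1
    exact hp2 h1
  have hg := h (p + 3) (F3 p) (-((p : ℂ) + 3)) 0 (0 :: rs)
    (fun ρ => if ρ = 0 then p + 3 else p + 2) (F3_hom p) (neg_ne_zero.2 hp3) hE0 hE1 hE2
  rw [List.map_cons, List.sum_cons, if_pos rfl,
    sum_const rs _ (p + 2) (fun x hx => if_neg (hr0 x hx)), hlen] at hg
  exact hg

end ModTOP

open ModTOP in
theorem top (h : StmKEY) : StmTOP := by
  intro e m he h1 h2
  obtain ⟨p, rfl⟩ : ∃ p, e = p + 2 := ⟨e - 2, by omega⟩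
  rcases Nat.lt_or_ge m ((p + 2) ^ 2 + (p + 2)) with h3 | h3
  · obtain ⟨j, rfl⟩ : ∃ j, m = (p + 2) ^ 2 + j := ⟨m - (p + 2) ^ 2, by omega⟩
    have hj : j < p + 2 := by omega
    obtain ⟨k, hk⟩ : ∃ k, p + 1 = j + k := ⟨p + 1 - j, by omega⟩
    have hg := caseI h p j k hk.symm
    have e1 : (j + 1) * (p + 2) + (k + 1) * (p + 1) = (p + 2) ^ 2 + j := by
      have : p = j + k - 1 := by omega
      zify
      have h4 : (p : ℤ) + 1 = j + k := by exact_mod_cast hk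
      have h5 : (k : ℤ) = p + 1 - j := by linarith
      rw [h5]
      ring
    rw [e1] at hg
    exact hg
  · rcases Nat.eq_or_lt_of_le h3 with h4 | h4
    · have hg := caseII h p
      have e1 : (p + 3) * (p + 2) = m := by rw [← h4]; ring
      rw [e1] at hg
      exact hg
    · have h5 : m = (p + 2) ^ 2 + (p + 2) + 1 := by omega
      have hg := caseIII h p
      have e1 : (p + 3) + (p + 2) * (p + 2) = m := by rw [h5]; ring
      rw [e1] at hg
      exact hg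

end H28.EG
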