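import Pool.Agent.T6.H28.EG.Defs4
import Pool.Agent.T6.H28.EG.TOP

/-! Module F94: `Good 9 41` (helper89). -/

set_option autoImplicit false

open MvPolynomial

namespace H28.EG

namespace ModF94

open ModTOP

/-- the form -/
noncomputable def G : S :=
  C (1 / 9) * X 1 ^ 9 - X 1 * X 2 ^ 8 + X 0 ^ 4 * X 1 ^ 4 * X 2

theorem G_hom : G.IsHomogeneous 9 := by
  unfold G
  have h1 : (X 1 ^ 9 : S).IsHomogeneous 9 := isHomogeneous_X_pow 1 9
  have h2 : (X 1 * X 2 ^ 8 : S).IsHomogeneous 9 :=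
    (isHomogeneous_X ℂ (1 : Fin 3)).mul (isHomogeneous_X_pow 2 8)
  have h3 : (X 0 ^ 4 * X 1 ^ 4 * X 2 : S).IsHomogeneous 9 :=
    ((isHomogeneous_X_pow (0 : Fin 3) 4).mul (isHomogeneous_X_pow 1 4)).mul
      (isHomogeneous_X ℂ (2 : Fin 3))
  exact ((h1.C_mul _).sub h2).add h3

theorem d0 : pderiv 0 G = 4 * X 0 ^ 3 * X 1 ^ 4 * X 2 := by
  unfold G
  have n1 : pderiv (0 : Fin 3) (X 1 : S) = 0 := pderiv_X_of_ne (by decide)
  have n2 : pderiv (0 : Fin 3) (X 2 : S) = 0 := pderiv_X_of_ne (by decide)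
  have n0 : pderiv (0 : Fin 3) (X 0 : S) = 1 := pderiv_X_self 0
  simp only [map_add, map_sub, Derivation.leibniz, Derivation.leibniz_pow, pderiv_C, n0, n1, n2,
    smul_eq_mul, nsmul_eq_mul, mul_zero, smul_zero, zero_add, add_zero, mul_one]
  push_cast
  ring

theorem d1 : pderiv 1 G = X 1 ^ 8 - X 2 ^ 8 + 4 * X 0 ^ 4 * X 1 ^ 3 * X 2 := by
  unfold G
  have e1 : (C (1 / 9) : S) * 9 = 1 := by
    have : (9 : S) = C 9 := rfl
    rw [this, ← C_mul]
    norm_num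
  have n0 : pderiv (1 : Fin 3) (X 0 : S) = 0 := pderiv_X_of_ne (by decide)
  have n2 : pderiv (1 : Fin 3) (X 2 : S) = 0 := pderiv_X_of_ne (by decide)
  have n1 : pderiv (1 : Fin 3) (X 1 : S) = 1 := pderiv_X_self 1
  simp only [map_add, map_sub, Derivation.leibniz, Derivation.leibniz_pow, pderiv_C, n0, n1, n2,
    smul_eq_mul, nsmul_eq_mul, mul_zero, smul_zero, zero_add, add_zero, mul_one]
  push_cast
  linear_combination (X 1 ^ 8) * e1

theorem d2 : pderiv 2 G = -(8 * X 1 * X 2 ^ 7) + X 0 ^ 4 * X 1 ^ 4 := by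
  unfold G
  have n0 : pderiv (2 : Fin 3) (X 0 : S) = 0 := pderiv_X_of_ne (by decide)
  have n1 : pderiv (2 : Fin 3) (X 1 : S) = 0 := pderiv_X_of_ne (by decide)
  have n2 : pderiv (2 : Fin 3) (X 2 : S) = 1 := pderiv_X_self 2
  simp only [map_add, map_sub, Derivation.leibniz, Derivation.leibniz_pow, pderiv_C, n0, n1, n2,
    smul_eq_mul, nsmul_eq_mul, mul_zero, smul_zero, zero_add, add_zero, mul_one]
  push_cast
  ring

theorem phG (ρ : ℂ) : ph ρ (E1 G) = -(8 * C ρ * X 0 * X 2 ^ 8) + C (ρ ^ 4) * X 0 ^ 5 * X 2 ^ 4 -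
    (C (ρ ^ 8) - 1) * X 2 ^ 9 - 4 * C (ρ ^ 3) * X 0 ^ 4 * X 2 ^ 5 := by
  unfold E1
  rw [d1, d2]
  have h8 : ph ρ 8 = 8 := map_ofNat (ph ρ) 8
  have h4 : ph ρ 4 = 4 := map_ofNat (ph ρ) 4
  simp only [map_add, map_sub, map_mul, map_pow, map_neg, ph0, ph1, ph2, h8, h4]
  ring

end ModF94

open ModTOP ModF94 in
theorem f94 (hK : StmKEY) : StmF94 := by
  obtain ⟨rs, hlen, hrs, hprod⟩ := roots_list 8 (by omega) 1
  have hr0 : ∀ ρ ∈ rs, ρ ≠ 0 := by
    intro ρ hρ h0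
    have := hrs ρ hρ
    rw [h0] at this
    norm_num at this
  have hE0 : E0 G = C (-1) * X 0 ^ 0 * ((0 :: rs).map L).prod := by
    rw [List.map_cons, List.prod_cons, ← hprod, L_zero]
    unfold E0
    rw [d0, d1, C_neg, C_1]
    ring
  have hE1 : ∀ ρ ∈ (0 : ℂ) :: rs, OrdIs ρ (if ρ = 0 then 9 else 4) (E1 G) := by
    intro ρ hρ
    by_cases h0 : ρ = 0
    · rw [if_pos h0, h0]
      refine ord_of (W := 1) ?_ (by simp)
      rw [phG]
      simp
    · rw [if_neg h0]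
      have hmem : ρ ∈ rs := by
        rcases List.mem_cons.1 hρ with h1 | h1
        · exact absurd h1 h0
        · exact h1
      refine ord_of (W := -(8 * C ρ * X 0 * X 2 ^ 4) + C (ρ ^ 4) * X 0 ^ 5 -
        4 * C (ρ ^ 3) * X 0 ^ 4 * X 2) ?_ (by simp [h0])
      rw [phG, hrs ρ hmem, C_1]
      ring
  have hE2 : ¬ X 0 ∣ E2 G := by
    rintro ⟨q, hq⟩
    have h1 := congrArg (eval ![(0 : ℂ), 1, 1]) hq
    unfold E2 at h1
    rw [d0, d2] at h1
    simp at h1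
  have hg := hK 9 G (-1) 0 (0 :: rs) (fun ρ => if ρ = 0 then 9 else 4) G_hom (by norm_num)
    hE0 hE1 hE2
  rw [List.map_cons, List.sum_cons, if_pos rfl,
    sum_const rs _ 4 (fun x hx => if_neg (hr0 x hx)), hlen] at hg
  exact hg

end H28.EG
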