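import Pool.Agent.T6.H61.EG.FAM

/-! Project EG, module FAM (helper61): the main family. The proof is in `T6/H61/EG/FAM.lean`. -/

set_option autoImplicit false

namespace H28.EG

/-- FAM -/
theorem fam (h : StmKEY) : StmFAM := Pool.Agent.T6.H61.EG.fam h

end H28.EG
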