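import Pool.Agent.T6.H28.EG.Defs2
import Pool.Agent.T6.H28.EG.KEY

/-! Module KY2: like KEY, with the line `y = 0` as one more factor (helper89). -/

set_option autoImplicit false

open MvPolynomial

namespace H28.EG

namespace ModKY2

open ModKEY

theorem eval_smul (H : S) (n : ℕ) (hH : H.IsHomogeneous n) (c : ℂ) (x : Fin 3 → ℂ) :
    eval (fun i => c * x i) H = c ^ n * eval x H := by
  rw [eval_eq', eval_eq', Finset.mul_sum]
  refine Finset.sum_congr rfl fun d hd => ?_
  have h1 : d.degree = n := by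
    rw [Finsupp.degree_eq_weight_one]
    exact hH (mem_support_iff.1 hd)
  rw [Finsupp.degree_eq_sum] at h1
  simp only [mul_pow]
  rw [Finset.prod_mul_distrib, Finset.prod_pow_eq_pow_sum, h1]
  ring

/-- the restriction to the line `y = 0` -/
noncomputable def r0 : S →ₐ[ℂ] S := aeval ![X 0, X 1, 0]

theorem X2_dvd (H : S) : X 2 ∣ H - r0 H := by
  induction H using MvPolynomial.induction_on with
  | C a => simp [r0]
  | add p q hp hq =>
    rw [map_add]
    have := dvd_add hp hq
    have h2 : p + q - (r0 p + r0 q) = (p - r0 p) + (q - r0 q) := by ring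
    rw [h2]; exact this
  | mul_X p i hp =>
    rw [map_mul]
    have h2 : p * X i - r0 p * r0 (X i) = (p - r0 p) * X i + r0 p * (X i - r0 (X i)) := by ring
    rw [h2]
    refine dvd_add (hp.mul_right _) (Dvd.dvd.mul_left ?_ _)
    fin_cases i <;> simp [r0]

theorem eval_r0 (H : S) (x : Fin 3 → ℂ) : eval x (r0 H) = eval ![x 0, x 1, 0] H := by
  induction H using MvPolynomial.induction_on with
  | C a => simp [r0]
  | add p q hp hq => rw [map_add, map_add, map_add, hp, hq]
  | mul_X p i hp =>
    rw [map_mul, map_mul, map_mul, hp]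
    congr 1
    fin_cases i <;> simp [r0]

/-- the restriction to the points `(t, 1, 0)` -/
noncomputable def q (H : S) : Polynomial ℂ := aeval ![Polynomial.X, 1, 0] H

theorem eval_q (H : S) (t : ℂ) : (q H).eval t = eval ![t, 1, 0] H := by
  unfold q
  induction H using MvPolynomial.induction_on with
  | C a => simp
  | add p q hp hq => rw [map_add, map_add, Polynomial.eval_add, hp, hq]
  | mul_X p i hp =>
    rw [map_mul, map_mul, Polynomial.eval_mul, hp]
    congr 1
    fin_cases i <;> simp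

theorem fin_line (H : S) (n : ℕ) (hH : H.IsHomogeneous n) (hd : ¬ X 2 ∣ H) :
    {p : Projectivization ℂ (Fin 3 → ℂ) | eval p.rep (X 2 : S) = 0 ∧ eval p.rep H = 0}.Finite := by
  have hq : q H ≠ 0 := by
    intro hq
    apply hd
    have h1 : X 1 * r0 H = 0 := by
      apply MvPolynomial.funext
      intro x
      rw [map_mul, eval_X, eval_r0, map_zero]
      by_cases hx : x 1 = 0
      · rw [hx, zero_mul]
      · have h2 : (![x 0, x 1, 0] : Fin 3 → ℂ) = fun i => x 1 * (![x 0 / x 1, 1, 0] : Fin 3 → ℂ) i := by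
          funext i
          fin_cases i
          · simp; field_simp
          · simp
          · simp
        rw [h2, eval_smul H n hH, ← eval_q, hq]
        simp
    have h3 : r0 H = 0 := (mul_eq_zero.1 h1).resolve_left (X_ne_zero 1)
    have h4 := X2_dvd H
    rwa [h3, sub_zero] at h4
  have hne : ∀ t : ℂ, (![t, 1, 0] : Fin 3 → ℂ) ≠ 0 := fun t h => by
    have := congrFun h 1
    simp at this
  have hne0 : (![1, 0, 0] : Fin 3 → ℂ) ≠ 0 := fun h => by
    have := congrFun h 0
    simp at this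
  have hfin : (insert (Projectivization.mk ℂ ![1, 0, 0] hne0)
      ((fun t : ℂ => Projectivization.mk ℂ ![t, 1, 0] (hne t)) '' {t | (q H).IsRoot t})).Finite :=
    ((Polynomial.finite_setOfPred_isRoot hq).image _).insert _
  refine hfin.subset ?_
  rintro p ⟨h1, h2⟩
  have hv := Projectivization.rep_nonzero p
  have hp := Projectivization.mk_rep p
  rw [eval_X] at h1
  by_cases hx : p.rep 1 = 0
  · left
    rw [← hp, Projectivization.mk_eq_mk_iff']
    refine ⟨p.rep 0, ?_⟩
    funext i
    fin_cases i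
    · simp
    · simp [hx]
    · simp [h1]
  · right
    refine ⟨p.rep 0 / p.rep 1, ?_, ?_⟩
    · have h3 : p.rep = fun i => p.rep 1 * (![p.rep 0 / p.rep 1, 1, 0] : Fin 3 → ℂ) i := by
        funext i
        fin_cases i
        · simp; field_simp
        · simp
        · simp [h1]
      rw [h3, eval_smul H n hH, ← eval_q] at h2
      have h4 := (mul_eq_zero.1 h2).resolve_left (pow_ne_zero n hx)
      simpa [Polynomial.IsRoot] using h4
    · rw [← hp, Projectivization.mk_eq_mk_iff']
      refine ⟨(p.rep 1)⁻¹, ?_⟩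
      funext i
      fin_cases i
      · simp [div_eq_inv_mul]
      · simp [hx]
      · simp [h1]

theorem X2_mem : (X 2 : S) ∈ P0 := Ideal.subset_span (by simp)

theorem X2_not_dvd (o : ℕ) (H : S) (h : OrdY o H) : ¬ X 2 ∣ H := by
  obtain ⟨W, A, rfl, hW⟩ := h
  intro hd
  have h1 : X 2 ∣ X 1 ^ o * W := by
    have := dvd_sub hd (Dvd.intro A rfl : X 2 ∣ X 2 * A)
    rwa [add_sub_cancel_right] at this
  rcases (X_prime (i := (2 : Fin 3)) (R := ℂ)).dvd_or_dvd h1 with h2 | h2
  · have h3 := (X_prime (i := (2 : Fin 3)) (R := ℂ)).dvd_of_dvd_pow h2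
    obtain ⟨q, hq⟩ := h3
    have h4 := congrArg (eval ![0, 1, 0]) hq
    simp at h4
  · obtain ⟨q, hq⟩ := h2
    apply hW
    rw [hq]
    simp

theorem len_pow (hA : StmADD) (hO : StmONE) (h : P0.IsPrime) (n : ℕ) :
    @locLength P0 h (Ideal.span {X 1 ^ n, X 2}) = n := by
  have hL0 : L 0 = X 1 := by simp [L]
  have hord : OrdIs 0 1 (X 2 : S) := ⟨1, 0, by simp, by simp⟩
  have h1 := hO.2.2 h 0 1 (X 2) hord
  have hnd := not_dvd hO.2.1 0 1 (X 2) hord
  have hpr := hO.2.1 0
  have hmem := L_mem 0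
  rw [hL0] at h1 hnd hpr hmem
  induction n with
  | zero =>
    have htop : (Ideal.span {(X 1 : S) ^ 0, X 2}) = ⊤ := by
      rw [Ideal.eq_top_iff_one]
      exact Ideal.subset_span (by simp)
    unfold locLength
    rw [Nat.cast_zero, Module.length_eq_zero_iff, htop, Ideal.map_top]
    exact Ideal.Quotient.subsingleton_iff.2 rfl
  | succ n ih =>
    rw [pow_succ, hA P0 h (X 1 ^ n) (X 1) (X 2) hpr hmem hnd, ih, h1]
    push_cast
    rfl

theorem len_Y (hA : StmADD) (hO : StmONE) (h : P0.IsPrime) (o : ℕ) (H : S) (hH : OrdY o H) :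
    @locLength P0 h (Ideal.span {X 2, H}) = o := by
  obtain ⟨W, A, rfl, hW⟩ := hH
  rw [← len_pow hA hO h o]
  have hu : W ∉ P0 := fun hm => hW (X0_not_mem _ hm)
  have hun : IsUnit (algebraMap S (Localization.AtPrime P0) W) :=
    IsLocalization.map_units (Localization.AtPrime P0) (⟨W, hu⟩ : P0.primeCompl)
  have heq : (Ideal.span {X 2, X 1 ^ o * W + X 2 * A}).map
      (algebraMap S (Localization.AtPrime P0)) =
      (Ideal.span {X 1 ^ o, X 2}).map (algebraMap S (Localization.AtPrime P0)) := by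
    apply le_antisymm
    · refine Ideal.map_mono ?_
      rw [Ideal.span_le]
      have hx1 : (X 1 : S) ^ o ∈ Ideal.span {(X 1 : S) ^ o, X 2} := Ideal.subset_span (by simp)
      have hx2 : (X 2 : S) ∈ Ideal.span {(X 1 : S) ^ o, X 2} := Ideal.subset_span (by simp)
      rintro x (rfl | rfl)
      · exact hx2
      · exact Ideal.add_mem _ (Ideal.mul_mem_right _ _ hx1) (Ideal.mul_mem_right _ _ hx2)
    · rw [Ideal.map_le_iff_le_comap, Ideal.span_le]
      have hx2 : algebraMap S (Localization.AtPrime P0) (X 2) ∈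
          (Ideal.span {X 2, X 1 ^ o * W + X 2 * A}).map
            (algebraMap S (Localization.AtPrime P0)) :=
        Ideal.mem_map_of_mem _ (Ideal.subset_span (by simp))
      rintro x (rfl | rfl)
      · have h1 : algebraMap S (Localization.AtPrime P0) (X 1 ^ o * W + X 2 * A - X 2 * A) ∈
            (Ideal.span {X 2, X 1 ^ o * W + X 2 * A}).map
              (algebraMap S (Localization.AtPrime P0)) := by
          refine Ideal.mem_map_of_mem _ (Ideal.sub_mem _ (Ideal.subset_span (by simp)) ?_)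
          exact Ideal.mul_mem_right _ _ (Ideal.subset_span (by simp))
        rw [add_sub_cancel_right, map_mul] at h1
        exact (Ideal.mul_unit_mem_iff_mem _ hun).1 h1
      · exact hx2
  unfold locLength
  rw [heq]

end ModKY2

theorem ky2 (hA : StmADD) (hO : StmONE) (hL : StmLIN) : StmKY2 := by
  intro d F c a rs o oy hF hc hE hr hy hX
  refine ⟨F, hF, ?_, hO.1, ?_⟩
  · have h0 := hL (X 0) (E2 F) _ (Or.inl rfl) (ModKEY.E2_hom F d hF) hX
    have h1 : (⋃ ρ ∈ {ρ | ρ ∈ rs}, {p : Projectivization ℂ (Fin 3 → ℂ) |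
        eval p.rep (L ρ) = 0 ∧ eval p.rep (E1 F) = 0}).Finite := by
      refine Set.Finite.biUnion (List.finite_toSet rs) fun ρ hρ => ?_
      exact hL (L ρ) (E1 F) _ (Or.inr ⟨ρ, rfl⟩) (ModKEY.E1_hom F d hF)
        (ModKEY.not_dvd hO.2.1 ρ (o ρ) (E1 F) (hr ρ hρ))
    have h9 := ModKY2.fin_line (E1 F) _ (ModKEY.E1_hom F d hF) (ModKY2.X2_not_dvd oy _ hy)
    refine ((h0.union h1).union h9).subset ?_
    rintro p ⟨hp0, hp1, hp2⟩
    rw [hE, map_mul, map_mul, map_mul, eval_C, map_pow] at hp0
    rcases mul_eq_zero.1 hp0 with hp0 | h2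
    · left
      rcases mul_eq_zero.1 hp0 with h2 | h2
      · left
        rcases mul_eq_zero.1 h2 with h3 | h3
        · exact absurd h3 hc
        · exact ⟨by simpa using eq_zero_of_pow_eq_zero h3, hp2⟩
      · right
        rw [map_list_prod, List.map_map, List.prod_eq_zero_iff, List.mem_map] at h2
        obtain ⟨ρ, hρ, h3⟩ := h2
        simp only [Set.mem_iUnion]
        exact ⟨ρ, hρ, h3, hp1⟩
    · right
      exact ⟨h2, hp1⟩
  · rw [hE, hA P0 hO.1 (C c * X 0 ^ a * (rs.map L).prod) (X 2) (E1 F) X_prime ModKY2.X2_mem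
      (ModKY2.X2_not_dvd oy _ hy), ModKEY.len hA hO hO.1 c hc a o (E1 F) rs hr,
      ModKY2.len_Y hA hO hO.1 oy (E1 F) hy]
    push_cast
    rfl

end H28.EG

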