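import Pool.Agent.T6.H28.EG.Defs

/-! Project EG, module LIN: finitely many zeros of a form on a line. -/

open MvPolynomial

namespace H28.EG

namespace ModLIN

lemma eval_smul {H : S} {n : ℕ} (hH : H.IsHomogeneous n) (t : ℂ) (w : Fin 3 → ℂ) :
    eval (t • w) H = t ^ n * eval w H := by
  rw [eval_eq', eval_eq', Finset.mul_sum]
  refine Finset.sum_congr rfl fun d hd => ?_
  have h := hH (mem_support_iff.mp hd)
  rw [Finsupp.weight_apply, Finsupp.sum_fintype _ _ (by simp)] at h
  simp only [Pi.one_apply, smul_eq_mul, mul_one] at h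
  simp only [Pi.smul_apply, smul_eq_mul, mul_pow]
  rw [Finset.prod_mul_distrib, Finset.prod_pow_eq_pow_sum, h]
  ring

lemma sub1 (v : Fin 3 → ℂ) :
    {p : Projectivization ℂ (Fin 3 → ℂ) | ∃ c : ℂ, p.rep = c • v}.Subsingleton := by
  rintro p ⟨c, hc⟩ p' ⟨c', hc'⟩
  have h1 : c' ≠ 0 := by
    rintro rfl
    exact p'.rep_nonzero (by simpa using hc')
  rw [← p.mk_rep, ← p'.mk_rep, Projectivization.mk_eq_mk_iff']
  exact ⟨c / c', by rw [hc, hc', smul_smul, div_mul_cancel₀ _ h1]⟩

lemma aux {ℓ H : S} {n : ℕ} (i : Fin 3) (A B : Fin 3 → ℂ) (hH : H.IsHomogeneous n)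
    (hnd : ¬ ℓ ∣ H) (h0 : ∀ w : Fin 3 → ℂ, eval w ℓ = 0 → w = w i • A + w 2 • B)
    (hdiv : ∀ j, ℓ ∣ X j - (C (A j) * X i + C (B j) * X 2)) :
    {p : Projectivization ℂ (Fin 3 → ℂ) | eval p.rep ℓ = 0 ∧ eval p.rep H = 0}.Finite := by
  set θ : S →ₐ[ℂ] S := aeval (fun j => (C (A j) * X i + C (B j) * X 2 : S)) with hθ
  set q : Polynomial ℂ := aeval (fun j => (Polynomial.C (A j) * Polynomial.X +
    Polynomial.C (B j) : Polynomial ℂ)) H with hq
  have hqe : ∀ x : ℂ, q.eval x = eval (x • A + B) H := by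
    intro x
    have e : (Polynomial.aeval x).comp (aeval (fun j => (Polynomial.C (A j) * Polynomial.X +
      Polynomial.C (B j) : Polynomial ℂ))) = (aeval (x • A + B) : S →ₐ[ℂ] ℂ) := by
      apply MvPolynomial.algHom_ext
      intro j
      simp
      ring
    have e' := DFunLike.congr_fun e H
    simp only [AlgHom.comp_apply, Polynomial.coe_aeval_eq_eval] at e'
    rw [← hq] at e'
    simpa [MvPolynomial.coe_aeval_eq_eval] using e'
  have hθe : ∀ x : Fin 3 → ℂ, eval x (θ H) = eval (x i • A + x 2 • B) H := by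
    intro x
    have e : (aeval x : S →ₐ[ℂ] ℂ).comp θ = (aeval (x i • A + x 2 • B) : S →ₐ[ℂ] ℂ) := by
      apply MvPolynomial.algHom_ext
      intro j
      simp [hθ, mul_comm]
    have e' := DFunLike.congr_fun e H
    simpa [MvPolynomial.coe_aeval_eq_eval] using e'
  have hmod : ℓ ∣ H - θ H := by
    have e : (Ideal.Quotient.mkₐ ℂ (Ideal.span {ℓ})).comp θ = Ideal.Quotient.mkₐ ℂ (Ideal.span {ℓ}) := by
      apply MvPolynomial.algHom_ext
      intro j
      simp only [AlgHom.comp_apply, hθ, aeval_X, Ideal.Quotient.mkₐ_eq_mk]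
      rw [eq_comm, Ideal.Quotient.eq]
      exact Ideal.mem_span_singleton.2 (hdiv j)
    have e' := DFunLike.congr_fun e H
    simp only [AlgHom.comp_apply, Ideal.Quotient.mkₐ_eq_mk] at e'
    rw [eq_comm, Ideal.Quotient.eq] at e'
    exact Ideal.mem_span_singleton.1 e'
  have hqH : ∀ s t : ℂ, t ≠ 0 → eval (s • A + t • B) H = t ^ n * q.eval (s / t) := by
    intro s t ht
    rw [hqe, ← eval_smul hH]
    congr 1
    rw [smul_add, smul_smul, mul_div_cancel₀ _ ht]
  have hq0 : q ≠ 0 := by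
    intro h
    apply hnd
    have h1 : (X 2 : S) * θ H = 0 := by
      apply MvPolynomial.funext
      intro x
      rw [map_mul, eval_X, hθe, map_zero]
      by_cases hx : x 2 = 0
      · rw [hx, zero_mul]
      · rw [hqH _ _ hx, h]
        simp
    have h2 : θ H = 0 := by
      rcases mul_eq_zero.1 h1 with h2 | h2
      · exact absurd h2 (X_ne_zero _)
      · exact h2
    rw [h2, sub_zero] at hmod
    exact hmod
  refine Set.Finite.subset (((Set.finite_singleton A).union
    ((q.roots.toFinset.finite_toSet).image fun x => x • A + B)).biUnion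
      (t := fun v => {p : Projectivization ℂ (Fin 3 → ℂ) | ∃ c : ℂ, p.rep = c • v})
      fun v _ => (sub1 v).finite) ?_
  rintro p ⟨hp1, hp2⟩
  have hw := h0 _ hp1
  simp only [Set.mem_iUnion, Set.mem_union, Set.mem_singleton_iff, Set.mem_image,
    Finset.mem_coe, Multiset.mem_toFinset, Set.mem_ofPred_eq, exists_prop]
  by_cases ht : p.rep 2 = 0
  · refine ⟨A, Or.inl rfl, p.rep i, ?_⟩
    rw [ht, zero_smul, add_zero] at hw
    exact hw
  · refine ⟨_, Or.inr ⟨p.rep i / p.rep 2, ?_, rfl⟩, p.rep 2, ?_⟩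
    · rw [Polynomial.mem_roots hq0, Polynomial.IsRoot.def]
      rw [hw, hqH _ _ ht] at hp2
      rcases mul_eq_zero.1 hp2 with h | h
      · exact absurd h (pow_ne_zero _ ht)
      · exact h
    · rw [smul_add, smul_smul, mul_div_cancel₀ _ ht]
      exact hw

end ModLIN

open ModLIN in
theorem lin : StmLIN := by
  intro ℓ H n hℓ hH hnd
  rcases hℓ with rfl | ⟨ρ, rfl⟩
  · refine aux 1 ![0, 1, 0] ![0, 0, 1] hH hnd ?_ ?_
    · intro w hw
      rw [eval_X] at hw
      ext j
      fin_cases j <;> simp [hw]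
    · intro j
      fin_cases j <;> simp
  · refine aux 0 ![1, 0, 0] ![0, ρ, 1] hH hnd ?_ ?_
    · intro w hw
      simp only [L, map_sub, map_mul, eval_X, eval_C] at hw
      ext j
      fin_cases j
      · simp
      · simp
        linear_combination hw
      · simp
    · intro j
      fin_cases j <;> simp [L]

end H28.EG
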