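import Pool.Agent.T6.H52.EG.Tra

open MvPolynomial

namespace H28.EG

namespace ModTra

lemma eval_smul_hom (G : S) (n : ℕ) (hG : G.IsHomogeneous n) (c : ℂ) (x : Fin 3 → ℂ) :
    eval (c • x) G = c ^ n * eval x G := by
  rw [eval_eq', eval_eq', Finset.mul_sum]
  refine Finset.sum_congr rfl fun d hd => ?_
  have h1 : ∑ i, d i = n := by
    by_contra h
    rw [← Finsupp.degree_eq_sum] at h
    exact (mem_support_iff.1 hd) (hG.coeff_eq_zero h)
  simp only [Pi.smul_apply, smul_eq_mul, mul_pow, Finset.prod_mul_distrib,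
    Finset.prod_pow_eq_pow_sum, h1]
  ring

lemma homE (F : S) (d : ℕ) (hF : F.IsHomogeneous d) :
    (E0 F).IsHomogeneous (1 + (d - 1)) ∧ (E1 F).IsHomogeneous (1 + (d - 1)) ∧
      (E2 F).IsHomogeneous (1 + (d - 1)) := by
  unfold E0 E1 E2
  have h : ∀ i j : Fin 3, (X i * pderiv j F : S).IsHomogeneous (1 + (d - 1)) := fun i j =>
    (isHomogeneous_X ℂ i).mul hF.pderiv
  exact ⟨(h _ _).sub (h _ _), (h _ _).sub (h _ _), (h _ _).sub (h _ _)⟩

/-- the linear change of coordinates -/
noncomputable def lam : (Fin 3 → ℂ) →ₗ[ℂ] (Fin 3 → ℂ) where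
  toFun x := ![x 0 + Complex.I * x 1, (1/2) * (x 0 - Complex.I * x 1), x 2]
  map_add' x y := by
    ext k
    fin_cases k <;> simp <;> ring
  map_smul' c x := by
    ext k
    fin_cases k <;> simp <;> ring

lemma lam_inj : Function.Injective lam := by
  rw [injective_iff_map_eq_zero]
  intro x hx
  have h0 : x 0 + Complex.I * x 1 = 0 := congrFun hx 0
  have h1 : (1/2) * (x 0 - Complex.I * x 1) = 0 := congrFun hx 1
  have h2 : x 2 = 0 := congrFun hx 2
  have h3 : x 0 = 0 := by linear_combination (1/2) * h0 + h1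
  have h4 : x 1 = 0 := by
    have : Complex.I * x 1 = 0 := by linear_combination h0 - h3
    rcases mul_eq_zero.1 this with h | h
    · exact absurd h Complex.I_ne_zero
    · exact h
  ext k
  fin_cases k
  · exact h3
  · exact h4
  · exact h2

lemma eval_ph (x : Fin 3 → ℂ) (G : S) : eval x (ph G) = eval (lam x) G := by
  have h : ((aeval x : S →ₐ[ℂ] ℂ).comp ph) = aeval (lam x) := by
    apply MvPolynomial.algHom_ext
    intro k
    fin_cases k
    · show aeval x (ph (X 0)) = aeval (lam x) (X 0 : S)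
      rw [ph0]
      simp [lam]
    · show aeval x (ph (X 1)) = aeval (lam x) (X 1 : S)
      rw [ph1]
      simp [lam]
    · show aeval x (ph (X 2)) = aeval (lam x) (X 2 : S)
      rw [ph2]
      simp [lam]
  have h2 := DFunLike.congr_fun h G
  simpa [MvPolynomial.coe_aeval_eq_eval] using h2

lemma eig (F : S) (x : Fin 3 → ℂ) (h : IsEig (ph F) x) :
    eval (lam x) (E0 F) = 0 ∧ eval (lam x) (E1 F) = 0 ∧ eval (lam x) (E2 F) = 0 := by
  rw [← eval_ph, ← eval_ph, ← eval_ph]
  have g : ∀ i j : Fin 3, eval x (X i * pderiv j (ph F) - X j * pderiv i (ph F)) = 0 := by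
    intro i j
    rw [map_sub, map_mul, map_mul, eval_X, eval_X, h i j, sub_self]
  have g01 := g 0 1
  have g02 := g 0 2
  have g12 := g 1 2
  rw [m01, map_mul, eval_C] at g01
  rw [m02, map_add, map_mul, eval_C] at g02
  rw [m12, map_mul, map_neg, map_sub, map_mul, eval_C, eval_C] at g12
  have hI := Complex.I_mul_I
  refine ⟨?_, ?_, ?_⟩
  · linear_combination (-Complex.I) * g01 + eval x (ph (E0 F)) * hI
  · linear_combination g02 + Complex.I * g12 +
      ((1/2) * eval x (ph (E1 F)) - eval x (ph (E2 F))) * hI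
  · linear_combination (1/2) * g02 - (1/2) * Complex.I * g12 -
      (1/2) * ((1/2) * eval x (ph (E1 F)) - eval x (ph (E2 F))) * hI

lemma colon_mem (F x : S) (hx : x ∈ Ideal.span {E0 F, E1 F, E2 F}) :
    X 0 * x ∈ Ideal.span {E0 F, E1 F} := by
  have k0 : E0 F ∈ (Ideal.span {E0 F, E1 F} : Ideal S) := Ideal.subset_span (by simp)
  have k1 : E1 F ∈ (Ideal.span {E0 F, E1 F} : Ideal S) := Ideal.subset_span (by simp)
  refine Submodule.span_induction (p := fun x _ => X 0 * x ∈ (Ideal.span {E0 F, E1 F} : Ideal S))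
    ?_ ?_ ?_ ?_ hx
  · intro y hy
    simp only [Set.mem_insert_iff, Set.mem_singleton_iff] at hy
    rcases hy with rfl | rfl | rfl
    · exact Ideal.mul_mem_left _ _ k0
    · exact Ideal.mul_mem_left _ _ k1
    · have : X 0 * E2 F = X 1 * E1 F - X 2 * E0 F := by
        unfold E0 E1 E2
        ring
      rw [this]
      exact Ideal.sub_mem _ (Ideal.mul_mem_left _ _ k1) (Ideal.mul_mem_left _ _ k0)
  · rw [mul_zero]
    exact Ideal.zero_mem _
  · intro y z _ _ hy hz
    rw [mul_add]
    exact Ideal.add_mem _ hy hz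
  · intro a y _ hy
    rw [smul_eq_mul, mul_left_comm]
    exact Ideal.mul_mem_left _ _ hy

lemma span_le3 (F : S) : (Ideal.span {E0 F, E1 F} : Ideal S) ≤ Ideal.span {E0 F, E1 F, E2 F} := by
  refine Ideal.span_mono ?_
  intro x hx
  rcases hx with h | h
  · exact Or.inl h
  · exact Or.inr (Or.inl h)

end ModTra

open ModTra ModLen in
theorem tra : StmTRA := by
  intro d m ⟨F, hF, hfin, hP, hlen⟩
  refine ⟨ph F, ?_, ?_, ww, ww_ne, ?_⟩
  · have := hF.aeval gu (n := 1) (fun i => by
      fin_cases i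
      · exact (isHomogeneous_X ℂ 0).add (isHomogeneous_C_mul_X _ _)
      · exact ((isHomogeneous_X ℂ 0).sub (isHomogeneous_C_mul_X _ _)).C_mul _
      · exact isHomogeneous_X ℂ 2)
    rwa [one_mul] at this
  · refine Set.Finite.subset (hfin.preimage
      ((Projectivization.map_injective lam lam_inj).injOn)) ?_
    intro p hp
    have h1 := eig F p.rep hp
    have hne : lam p.rep ≠ 0 := fun h => p.rep_nonzero (lam_inj (by rw [h, map_zero]))
    have h2 : Projectivization.map lam lam_inj p = Projectivization.mk ℂ (lam p.rep) hne := by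
      conv_lhs => rw [← p.mk_rep]
      rw [Projectivization.map_mk]
    obtain ⟨a, ha⟩ := Projectivization.exists_smul_eq_mk_rep ℂ (lam p.rep) hne
    show _ ∧ _ ∧ _
    rw [h2, ← ha]
    obtain ⟨k0, k1, k2⟩ := homE F d hF
    have hs : a • lam p.rep = (a : ℂ) • lam p.rep := rfl
    rw [hs, eval_smul_hom _ _ k0, eval_smul_hom _ _ k1, eval_smul_hom _ _ k2, h1.1, h1.2.1, h1.2.2]
    simp
  · haveI := hP
    have hprime : (pointIdeal ww).IsPrime := by
      rw [point_eq]
      exact Ideal.map_isPrime_of_equiv (sig : S ≃+* S)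
    haveI := hprime
    refine ⟨hprime, ?_⟩
    have h1 := locLength_map (sig : S ≃+* S) P0 (pointIdeal ww) (fun x => by
      rw [point_eq]
      constructor
      · intro hx
        exact Ideal.mem_map_of_mem _ hx
      · intro hx
        obtain ⟨y, hy, hxy⟩ := (Ideal.mem_map_of_equiv (sig : S ≃+* S) _).1 hx
        rwa [← (sig : S ≃+* S).injective hxy]) _ _ (ideal_eq F)
    rw [h1]
    have h2 := locLength_congr P0 (Ideal.span {E0 F, E1 F}) (Ideal.span {E0 F, E1 F, E2 F})
      (span_le3 F) (X 0) X0_not (fun x hx => colon_mem F x hx)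
    rw [← h2]
    exact hlen

end H28.EG
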