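import Pool.Agent.T6.H28.EG.Defs5
import Pool.Agent.T6.H28.EG.TRA
import Pool.Agent.T6.H28.EG.KEY
import Pool.Agent.T6.H28.EG.ONE
import Pool.Agent.T6.H28.EG.ADD
import Pool.Agent.T6.H28.EG.LIN

/-! Project EG (`MP_3fe32a_ag`), module M1: a non-reduced finite eigenscheme with a component of degree 1. -/

set_option autoImplicit false

open MvPolynomial

namespace H28.EG

namespace ModM1

/-- the form `v^d + y^d` -/
noncomputable def F (d : ℕ) : S := X 1 ^ d + X 2 ^ d

lemma F_hom (d : ℕ) : (F d).IsHomogeneous d := by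
  have h1 := (isHomogeneous_X ℂ (1 : Fin 3)).pow d
  have h2 := (isHomogeneous_X ℂ (2 : Fin 3)).pow d
  rw [one_mul] at h1 h2
  exact h1.add h2

lemma F_d0 (e : ℕ) : pderiv 0 (F (e + 1)) = 0 := by
  unfold F
  simp [pderiv_pow, pderiv_X]

lemma F_d1 (e : ℕ) : pderiv 1 (F (e + 1)) = C ((e : ℂ) + 1) * X 1 ^ e := by
  unfold F
  simp [pderiv_pow, pderiv_X]

lemma F_d2 (e : ℕ) : pderiv 2 (F (e + 1)) = C ((e : ℂ) + 1) * X 2 ^ e := by
  unfold F
  simp [pderiv_pow, pderiv_X]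

lemma e0 (e : ℕ) : E0 (F (e + 1)) = -(C ((e : ℂ) + 1) * X 1 ^ (e + 1)) := by
  unfold E0
  rw [F_d0, F_d1]
  ring

lemma e1 (e : ℕ) : E1 (F (e + 1)) =
    C ((e : ℂ) + 1) * (X 0 * X 2 ^ e) - C ((e : ℂ) + 1) * (X 2 * X 1 ^ e) := by
  unfold E1
  rw [F_d2, F_d1]
  ring

lemma e2 (e : ℕ) : E2 (F (e + 1)) = C ((e : ℂ) + 1) * (X 1 * X 2 ^ e) := by
  unfold E2
  rw [F_d2, F_d0]
  ring

lemma L0 : L 0 = (X 1 : S) := by
  unfold L
  simp

lemma e0' (e : ℕ) : E0 (F (e + 1)) =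
    C (-((e : ℂ) + 1)) * X 0 ^ 0 * ((List.replicate (e + 1) (0 : ℂ)).map L).prod := by
  rw [e0, List.map_replicate, List.prod_replicate, L0, C_neg]
  ring

lemma ce (e : ℕ) : ((e : ℂ) + 1) ≠ 0 := by exact_mod_cast Nat.succ_ne_zero e

lemma ord (e : ℕ) : OrdIs 0 (e + 1) (E1 (F (e + 1 + 1))) := by
  refine ⟨C (((e + 1 : ℕ) : ℂ) + 1) * X 0, -(C (((e + 1 : ℕ) : ℂ) + 1) * (X 2 * X 1 ^ e)), ?_, ?_⟩
  · rw [e1, L0]
    ring
  · have := ce (e + 1)
    simpa using this

/-- the point `(0:0:1)` -/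
noncomputable def wz : Fin 3 → ℂ := ![0, 0, 1]

lemma wz_ne : wz ≠ 0 := by
  intro h
  have := congrFun h 2
  simp [wz] at this

lemma X0_mem : (X 0 : S) ∈ pointIdeal wz := by
  refine Ideal.subset_span ⟨2, 0, ?_⟩
  simp [wz]

lemma X1_mem : (X 1 : S) ∈ pointIdeal wz := by
  refine Ideal.subset_span ⟨2, 1, ?_⟩
  simp [wz]

lemma pt_le : pointIdeal wz ≤ Ideal.span {(X 0 : S), X 1} := by
  have k0 : (X 0 : S) ∈ (Ideal.span {(X 0 : S), X 1} : Ideal S) := Ideal.subset_span (by simp)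
  have k1 : (X 1 : S) ∈ (Ideal.span {(X 0 : S), X 1} : Ideal S) := Ideal.subset_span (by simp)
  unfold pointIdeal
  rw [Ideal.span_le]
  rintro g ⟨i, j, rfl⟩
  show C (wz i) * X j - C (wz j) * X i ∈ (Ideal.span {(X 0 : S), X 1} : Ideal S)
  have hj : ∀ i j : Fin 3, C (wz i) * (X j : S) ∈ (Ideal.span {(X 0 : S), X 1} : Ideal S) ∨
      j = 2 := by
    intro i j
    fin_cases j
    · exact Or.inl (Ideal.mul_mem_left _ _ k0)
    · exact Or.inl (Ideal.mul_mem_left _ _ k1)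
    · exact Or.inr rfl
  rcases hj i j with h1 | h1 <;> rcases hj j i with h2 | h2
  · exact Ideal.sub_mem _ h1 h2
  · subst h2
    refine Ideal.sub_mem _ h1 ?_
    fin_cases j
    · simp [wz]
    · simp [wz]
    · have h3 := h1
      simpa [wz] using h3
  · subst h1
    refine Ideal.sub_mem _ ?_ h2
    fin_cases i
    · simp [wz]
    · simp [wz]
    · simpa [wz] using h2
  · subst h1 h2
    simp

lemma pt_eval (x : S) (hx : x ∈ pointIdeal wz) : eval wz x = 0 := by
  have := pt_le hx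
  rw [Ideal.mem_span_pair] at this
  obtain ⟨a, b, rfl⟩ := this
  simp [wz]

lemma pt_prime : (pointIdeal wz).IsPrime := by
  apply ONE.prime_of (pointIdeal wz) ![0, 0, X 2]
  · intro i
    fin_cases i
    · simpa using X0_mem
    · simpa using X1_mem
    · simp
  · refine pt_le.trans ?_
    rw [Ideal.span_le]
    intro p hp
    simp only [Set.mem_insert_iff, Set.mem_singleton_iff] at hp
    rcases hp with rfl | rfl
    · simp [RingHom.mem_ker]
    · simp [RingHom.mem_ker]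

lemma len_one (P : Ideal S) [hP : P.IsPrime] : locLength P P = 1 := by
  unfold locLength
  rw [Localization.AtPrime.map_eq_maximalIdeal, Module.length_eq_one_iff, isSimpleModule_iff_isCoatom]
  exact (IsLocalRing.maximalIdeal.isMaximal _).out

end ModM1

open ModTra ModLen ModM1 in
theorem m1_of (hA : StmADD) (hL : StmLIN) : StmM1 := by
  intro d hd
  obtain ⟨e, rfl⟩ : ∃ e, d = e + 1 + 1 := ⟨d - 2, by omega⟩
  have he : 1 ≤ e := by omega
  have hO : StmONE := one hA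
  have hF := F_hom (e + 1 + 1)
  have hndvd := ModKEY.not_dvd hO.2.1 0 (e + 1) _ (ord e)
  have hfin : {p : Projectivization ℂ (Fin 3 → ℂ) | eval p.rep (E0 (F (e + 1 + 1))) = 0 ∧
      eval p.rep (E1 (F (e + 1 + 1))) = 0 ∧ eval p.rep (E2 (F (e + 1 + 1))) = 0}.Finite := by
    refine (hL (L 0) (E1 (F (e + 1 + 1))) _ (Or.inr ⟨0, rfl⟩) (ModKEY.E1_hom _ _ hF)
      hndvd).subset ?_
    rintro p ⟨h0, h1, -⟩
    refine ⟨?_, h1⟩
    rw [ModM1.e0, map_neg, map_mul, eval_C, neg_eq_zero] at h0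
    rcases mul_eq_zero.1 h0 with h | h
    · exact absurd h (ce _)
    · rw [map_pow] at h
      rw [L0]
      exact eq_zero_of_pow_eq_zero h
  refine ⟨ph (F (e + 1 + 1)), ?_, ?_, ⟨wz, wz_ne, pt_prime, ?_⟩, ⟨ww, ww_ne, ?_⟩⟩
  · have := hF.aeval gu (n := 1) (fun i => by
      fin_cases i
      · exact (isHomogeneous_X ℂ 0).add (isHomogeneous_C_mul_X _ _)
      · exact ((isHomogeneous_X ℂ 0).sub (isHomogeneous_C_mul_X _ _)).C_mul _
      · exact isHomogeneous_X ℂ 2)
    rwa [one_mul] at this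
  · refine Set.Finite.subset (hfin.preimage
      ((Projectivization.map_injective lam lam_inj).injOn)) ?_
    intro p hp
    have h1 := eig (F (e + 1 + 1)) p.rep hp
    have hne : lam p.rep ≠ 0 := fun h => p.rep_nonzero (lam_inj (by rw [h, map_zero]))
    have h2 : Projectivization.map lam lam_inj p = Projectivization.mk ℂ (lam p.rep) hne := by
      conv_lhs => rw [← p.mk_rep]
      rw [Projectivization.map_mk]
    obtain ⟨a, ha⟩ := Projectivization.exists_smul_eq_mk_rep ℂ (lam p.rep) hne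
    show _ ∧ _ ∧ _
    rw [h2, ← ha]
    obtain ⟨k0, k1, k2⟩ := homE (F (e + 1 + 1)) _ hF
    have hs : a • lam p.rep = (a : ℂ) • lam p.rep := rfl
    rw [hs, eval_smul_hom _ _ k0, eval_smul_hom _ _ k1, eval_smul_hom _ _ k2, h1.1, h1.2.1, h1.2.2]
    simp
  · -- the reduced point
    haveI := pt_prime
    set I := eigenIdeal (ph (F (e + 1 + 1))) with hI
    have hIe := ideal_eq (F (e + 1 + 1))
    have hs : ∀ G : S, ((sig : S ≃+* S) : S →+* S) G = ph G := fun _ => rfl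
    have m1 : ph (E1 (F (e + 1 + 1))) ∈ I := by
      rw [hI, hIe, ← hs]
      exact Ideal.mem_map_of_mem _ (Ideal.subset_span (by simp))
    have m2 : ph (E2 (F (e + 1 + 1))) ∈ I := by
      rw [hI, hIe, ← hs]
      exact Ideal.mem_map_of_mem _ (Ideal.subset_span (by simp))
    have p0 : ph (X 0) ∈ pointIdeal wz := by
      rw [ph0]
      exact Ideal.add_mem _ X0_mem (Ideal.mul_mem_left _ _ X1_mem)
    have p1 : ph (X 1) ∈ pointIdeal wz := by
      rw [ph1]
      exact Ideal.mul_mem_left _ _ (Ideal.sub_mem _ X0_mem (Ideal.mul_mem_left _ _ X1_mem))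
    have hIP : I ≤ pointIdeal wz := by
      rw [hI, hIe, Ideal.map_span, Ideal.span_le]
      rintro x ⟨y, hy, rfl⟩
      show ph y ∈ pointIdeal wz
      simp only [Set.mem_insert_iff, Set.mem_singleton_iff] at hy
      rcases hy with rfl | rfl | rfl
      · rw [ModM1.e0, map_neg, map_mul, map_pow, pow_succ]
        exact Ideal.neg_mem_iff _ |>.2 (Ideal.mul_mem_left _ _ (Ideal.mul_mem_left _ _ p1))
      · rw [ModM1.e1, map_sub, map_mul, map_mul, map_mul, map_mul, map_pow, map_pow, pow_succ (ph (X 1))]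
        exact Ideal.sub_mem _ (Ideal.mul_mem_left _ _ (Ideal.mul_mem_right _ _ p0))
          (Ideal.mul_mem_left _ _ (Ideal.mul_mem_left _ _ (Ideal.mul_mem_left _ _ p1)))
      · rw [ModM1.e2, map_mul, map_mul]
        exact Ideal.mul_mem_left _ _ (Ideal.mul_mem_right _ _ p1)
    obtain ⟨c, hc⟩ : ∃ c : ℂ, c * (((e + 1 : ℕ) : ℂ) + 1) = 1 := ⟨_, inv_mul_cancel₀ (ce _)⟩
    have hcC : (C c : S) * C (((e + 1 : ℕ) : ℂ) + 1) = 1 := by rw [← C_mul, hc, C_1]
    have q1 : X 2 ^ (e + 1) * ph (X 1) ∈ I := by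
      have := I.mul_mem_left (C c) m2
      rw [ModM1.e2, map_mul, map_mul, map_pow, phC, ph2] at this
      have e' : C c * (C (((e + 1 : ℕ) : ℂ) + 1) * (ph (X 1) * X 2 ^ (e + 1))) =
          X 2 ^ (e + 1) * ph (X 1) := by
        linear_combination (X 2 ^ (e + 1) * ph (X 1)) * hcC
      rwa [e'] at this
    have r1 : X 2 ^ (2 * (e + 1)) * ph (X 1) ∈ I := by
      have := I.mul_mem_left (X 2 ^ (e + 1)) q1
      have e' : (X 2 : S) ^ (e + 1) * (X 2 ^ (e + 1) * ph (X 1)) =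
          X 2 ^ (2 * (e + 1)) * ph (X 1) := by ring
      rwa [e'] at this
    have r0 : X 2 ^ (2 * (e + 1)) * ph (X 0) ∈ I := by
      have h1 := I.mul_mem_left (C c * X 2 ^ (e + 1)) m1
      have h2 := I.mul_mem_left (X 2 * ph (X 1) ^ e) q1
      have h3 := I.add_mem h1 h2
      rw [ModM1.e1, map_sub, map_mul, map_mul, map_mul, map_mul, map_pow, map_pow, phC, ph2] at h3
      have e' : C c * X 2 ^ (e + 1) * (C (((e + 1 : ℕ) : ℂ) + 1) * (ph (X 0) * X 2 ^ (e + 1)) -
          C (((e + 1 : ℕ) : ℂ) + 1) * (X 2 * ph (X 1) ^ (e + 1))) +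
          X 2 * ph (X 1) ^ e * (X 2 ^ (e + 1) * ph (X 1)) = X 2 ^ (2 * (e + 1)) * ph (X 0) := by
        linear_combination (X 2 ^ (e + 1) * (ph (X 0) * X 2 ^ (e + 1)) -
          X 2 ^ (e + 1) * (X 2 * ph (X 1) ^ (e + 1))) * hcC
      rwa [e'] at h3
    have s0 : X 2 ^ (2 * (e + 1)) * X 0 ∈ I := by
      have := I.add_mem (I.mul_mem_left (C (1/2)) r0) r1
      have e' : C (1/2) * (X 2 ^ (2 * (e + 1)) * ph (X 0)) + X 2 ^ (2 * (e + 1)) * ph (X 1) =
          X 2 ^ (2 * (e + 1)) * X 0 := by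
        rw [ph0, ph1]
        linear_combination (X 2 ^ (2 * (e + 1)) * X 0 : S) * h2
      rwa [e'] at this
    have s1 : X 2 ^ (2 * (e + 1)) * X 1 ∈ I := by
      have := I.mul_mem_left (-C Complex.I) (I.sub_mem (I.mul_mem_left (C (1/2)) r0) r1)
      have e' : -C Complex.I * (C (1/2) * (X 2 ^ (2 * (e + 1)) * ph (X 0)) -
          X 2 ^ (2 * (e + 1)) * ph (X 1)) = X 2 ^ (2 * (e + 1)) * X 1 := by
        rw [ph0, ph1]
        linear_combination (-(X 2 ^ (2 * (e + 1)) * X 1 : S) * (C (1/2) * 2)) * hI2 +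
          (X 2 ^ (2 * (e + 1)) * X 1 : S) * h2
      rwa [e'] at this
    have hu : (X 2 : S) ^ (2 * (e + 1)) ∉ pointIdeal wz := by
      intro h
      have := pt_eval _ h
      simp [wz] at this
    have hc2 := locLength_congr (pointIdeal wz) I (pointIdeal wz) hIP _ hu (fun x hx => by
      have hx' := pt_le hx
      rw [Ideal.mem_span_pair] at hx'
      obtain ⟨a, b, rfl⟩ := hx'
      have e' : (X 2 : S) ^ (2 * (e + 1)) * (a * X 0 + b * X 1) =
          a * (X 2 ^ (2 * (e + 1)) * X 0) + b * (X 2 ^ (2 * (e + 1)) * X 1) := by ring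
      rw [e']
      exact I.add_mem (I.mul_mem_left _ s0) (I.mul_mem_left _ s1))
    rw [hc2, len_one]
    rfl
  · -- the non-reduced point
    haveI := hO.1
    have hprime : (pointIdeal ww).IsPrime := by
      rw [point_eq]
      exact Ideal.map_isPrime_of_equiv (sig : S ≃+* S)
    haveI := hprime
    refine ⟨hprime, ?_⟩
    have h1 := locLength_map (sig : S ≃+* S) P0 (pointIdeal ww) (fun x => by
      rw [point_eq]
      constructor
      · intro hx
        exact Ideal.mem_map_of_mem _ hx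
      · intro hx
        obtain ⟨y, hy, hxy⟩ := (Ideal.mem_map_of_equiv (sig : S ≃+* S) _).1 hx
        rwa [← (sig : S ≃+* S).injective hxy]) _ _ (ideal_eq (F (e + 1 + 1)))
    rw [h1]
    have h2 := locLength_congr P0 (Ideal.span {E0 (F (e + 1 + 1)), E1 (F (e + 1 + 1))})
      (Ideal.span {E0 (F (e + 1 + 1)), E1 (F (e + 1 + 1)), E2 (F (e + 1 + 1))})
      (span_le3 _) (X 0) X0_not (fun x hx => colon_mem _ x hx)
    rw [← h2]
    have h3 := ModKEY.len hA hO hO.1 (-(((e + 1 : ℕ) : ℂ) + 1)) (neg_ne_zero.2 (ce _)) 0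
      (fun _ => e + 1) (E1 (F (e + 1 + 1))) (List.replicate (e + 1 + 1) (0 : ℂ)) (fun ρ hρ => by
        rw [List.eq_of_mem_replicate hρ]
        exact ord e)
    rw [← e0'] at h3
    rw [h3]
    have h4 : 2 ≤ ((List.replicate (e + 1 + 1) (0 : ℂ)).map (fun _ => e + 1)).sum := by
      rw [List.map_replicate, List.sum_replicate]
      simp only [smul_eq_mul]
      nlinarith
    exact_mod_cast h4

theorem m1 : StmM1 := m1_of add lin

end H28.EG
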