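import Pool.Agent.T6.H28.EG.Defs

/-! Project EG (helper28), module SMA: small `m`. -/

open MvPolynomial

namespace H28.EG

namespace ModSMA

/-- the form -/
noncomputable def FF (k m e : ℕ) : S :=
  X 0 ^ k * X 1 ^ (m + 2) + X 0 ^ (e + 1) * X 2 ^ 2 + X 2 ^ (e + 3)

lemma d0 (k m e : ℕ) : pderiv 0 (FF k m e) =
    C (k : ℂ) * X 0 ^ (k - 1) * X 1 ^ (m + 2) + C ((e : ℂ) + 1) * X 0 ^ e * X 2 ^ 2 := by
  unfold FF
  simp [Derivation.leibniz, Derivation.leibniz_pow, pderiv_X_self, pderiv_X_of_ne]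
  ring

lemma d1 (k m e : ℕ) : pderiv 1 (FF k m e) =
    C ((m : ℂ) + 2) * X 0 ^ k * X 1 ^ (m + 1) := by
  have h2 : (C 2 : S) = 2 := map_ofNat C 2
  unfold FF
  simp [Derivation.leibniz, Derivation.leibniz_pow, pderiv_X_self, pderiv_X_of_ne]
  try rw [h2]
  ring

lemma d2 (k m e : ℕ) : pderiv 2 (FF k m e) =
    C 2 * X 0 ^ (e + 1) * X 2 + C ((e : ℂ) + 3) * X 2 ^ (e + 2) := by
  have h2 : (C 2 : S) = 2 := map_ofNat C 2
  have h3 : (C 3 : S) = 3 := map_ofNat C 3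
  unfold FF
  simp [Derivation.leibniz, Derivation.leibniz_pow, pderiv_X_self, pderiv_X_of_ne]
  try rw [h2]
  try rw [h3]
  ring

/-- unit at the point -/
noncomputable def UU (k m e : ℕ) : S :=
  C 2 * X 0 ^ (e + 2) + C ((e : ℂ) + 3) * X 0 * X 2 ^ (e + 1)
    - C ((m : ℂ) + 2) * X 0 ^ k * X 1 ^ (m + 1)

lemma E0_eq (k m e : ℕ) : E0 (FF k m e) =
    C ((k : ℂ) - m - 2) * X 0 ^ k * X 1 ^ (m + 2) + C ((e : ℂ) + 1) * X 0 ^ (e + 1) * X 2 * X 2 := by
  unfold E0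
  rw [d0, d1]
  rcases k with _ | k
  · simp only [map_sub, map_add, Nat.cast_zero, map_zero]
    ring
  · rw [Nat.add_sub_cancel]
    simp only [map_sub, map_add]
    ring

lemma E1_eq (k m e : ℕ) : E1 (FF k m e) = UU k m e * X 2 := by
  unfold E1 UU
  rw [d1, d2]
  ring

lemma hom {k m e : ℕ} (h : m + k = e + 1) : (FF k m e).IsHomogeneous (e + 3) := by
  unfold FF
  have h1 : ((X 0 ^ k * X 1 ^ (m + 2) : S)).IsHomogeneous (e + 3) := by
    have := (isHomogeneous_X_pow (R := ℂ) (0 : Fin 3) k).mul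
      (isHomogeneous_X_pow (R := ℂ) (1 : Fin 3) (m + 2))
    rwa [show k + (m + 2) = e + 3 by omega] at this
  have h2 : ((X 0 ^ (e + 1) * X 2 ^ 2 : S)).IsHomogeneous (e + 3) :=
    (isHomogeneous_X_pow (R := ℂ) (0 : Fin 3) (e + 1)).mul
      (isHomogeneous_X_pow (R := ℂ) (2 : Fin 3) 2)
  exact (h1.add h2).add (isHomogeneous_X_pow _ _)

lemma E2_hom {k m e : ℕ} (h : m + k = e + 1) : (E2 (FF k m e)).IsHomogeneous (1 + (e + 2)) := by
  unfold E2
  have hF := hom h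
  have h1 : (pderiv 2 (FF k m e)).IsHomogeneous (e + 2) := hF.pderiv
  have h2 : (pderiv 0 (FF k m e)).IsHomogeneous (e + 2) := hF.pderiv
  exact ((isHomogeneous_X ℂ 1).mul h1).sub ((isHomogeneous_X ℂ 2).mul h2)

lemma E2_eval (k m e : ℕ) : eval ![0, 1, 1] (E2 (FF k m e)) ≠ 0 := by
  unfold E2
  rw [d0, d2]
  have h3 : (e : ℂ) + 3 ≠ 0 := by exact_mod_cast (by omega : e + 3 ≠ 0)
  have h2 : (e : ℂ) + 2 ≠ 0 := by exact_mod_cast (by omega : e + 2 ≠ 0)
  rcases k with _ | _ | k <;> rcases e with _ | e <;> simp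
  all_goals first
    | (push_cast at h2 h3; norm_num; done)
    | (push_cast at h2 h3; intro h; apply h2; linear_combination h)
    | (push_cast at h2 h3; intro h; apply h3; linear_combination h)

lemma X0_ndvd (k m e : ℕ) : ¬ (X 0 : S) ∣ E2 (FF k m e) := by
  rintro ⟨g, hg⟩
  apply E2_eval k m e
  rw [hg]
  simp

lemma mem_P0 {g : S} (h : g ∈ P0) : eval ![1, 0, 0] g = 0 := by
  unfold P0 at h
  rw [Ideal.mem_span_pair] at h
  obtain ⟨a, b, h⟩ := h
  rw [← h]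
  simp

lemma len_zero (h : P0.IsPrime) (g : S) (I : Ideal S) (hg : eval ![1, 0, 0] g ≠ 0) (hI : g ∈ I) :
    @locLength P0 h I = 0 := by
  unfold locLength
  have h1 : g ∉ P0 := fun hc => hg (mem_P0 hc)
  have h2 : IsUnit (algebraMap S (Localization.AtPrime P0) g) :=
    IsLocalization.map_units (Localization.AtPrime P0) (⟨g, h1⟩ : P0.primeCompl)
  have h3 : I.map (algebraMap S (Localization.AtPrime P0)) = ⊤ :=
    Ideal.eq_top_of_isUnit_mem _ (Ideal.mem_map_of_mem _ hI) h2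
  rw [Module.length_eq_zero_iff, h3]
  exact Ideal.Quotient.subsingleton_iff.2 rfl

lemma X1_mem : (X 1 : S) ∈ P0 := Ideal.subset_span (by simp)
lemma X2_mem : (X 2 : S) ∈ P0 := Ideal.subset_span (by simp)

lemma len_pow (hA : StmADD) (hO : StmONE) (h : P0.IsPrime) (c : ℂ) (hc : c ≠ 0) (k : ℕ) :
    ∀ j : ℕ, @locLength P0 h (Ideal.span {C c * X 0 ^ k * X 1 ^ j, X 2}) = j := by
  intro j
  induction j with
  | zero =>
    rw [Nat.cast_zero]
    apply len_zero h (C c * X 0 ^ k * X 1 ^ 0) _ (by simpa using hc)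
    exact Ideal.subset_span (by simp)
  | succ j ih =>
    have h1 : ¬ (X 1 : S) ∣ X 2 := by
      rintro ⟨g, hg⟩
      have := congrArg (eval ![0, 0, 1]) hg
      simp at this
    have h2 := hA P0 h (C c * X 0 ^ k * X 1 ^ j) (X 1) (X 2) X_prime X1_mem h1
    have e : C c * X 0 ^ k * X 1 ^ (j + 1) = (C c * X 0 ^ k * X 1 ^ j) * (X 1 : S) := by ring
    have h3 : @locLength P0 h (Ideal.span {X 1, X 2}) = 1 := by
      have h4 := hO.2.2 h 0 1 (X 2) ⟨1, 0, by simp, by simp⟩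
      have e2 : L 0 = (X 1 : S) := by unfold L; simp
      rw [e2] at h4
      simpa using h4
    rw [e, h2, ih, h3]
    push_cast
    rfl

lemma len_main (hA : StmADD) (hO : StmONE) (h : P0.IsPrime) {k m e : ℕ} (hkm : k ≠ m + 2) :
    @locLength P0 h (Ideal.span {E0 (FF k m e), E1 (FF k m e)}) = ((m + 2 : ℕ) : ℕ∞) := by
  have hc : (k : ℂ) - m - 2 ≠ 0 := by
    intro h0
    apply hkm
    have : (k : ℂ) = ((m + 2 : ℕ) : ℂ) := by push_cast; linear_combination h0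
    exact_mod_cast this
  have h1 : ¬ (X 2 : S) ∣ E0 (FF k m e) := by
    rintro ⟨g, hg⟩
    have := congrArg (eval ![1, 1, 0]) hg
    rw [E0_eq] at this
    simp at this
    exact hc (by linear_combination this)
  have h2 := hA P0 h (UU k m e) (X 2) (E0 (FF k m e)) X_prime X2_mem h1
  rw [Set.pair_comm, E1_eq, h2]
  have h3 : @locLength P0 h (Ideal.span {UU k m e, E0 (FF k m e)}) = 0 := by
    apply len_zero h (UU k m e) _ _ (Ideal.subset_span (by simp))
    unfold UU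
    simp
  have h4 : (Ideal.span {X 2, E0 (FF k m e)} : Ideal S) =
      Ideal.span {C ((k : ℂ) - m - 2) * X 0 ^ k * X 1 ^ (m + 2), X 2} := by
    rw [E0_eq]
    apply le_antisymm
    · rw [Ideal.span_le]
      rintro x (rfl | rfl)
      · exact Ideal.subset_span (by simp)
      · exact Ideal.add_mem _ (Ideal.subset_span (by simp))
          (Ideal.mul_mem_left _ _ (Ideal.subset_span (by simp)))
    · rw [Ideal.span_le]
      rintro x (rfl | rfl)
      · have h5 : C ((e : ℂ) + 1) * X 0 ^ (e + 1) * X 2 * X 2 ∈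
            (Ideal.span {X 2, C ((k : ℂ) - m - 2) * X 0 ^ k * X 1 ^ (m + 2) +
              C ((e : ℂ) + 1) * X 0 ^ (e + 1) * X 2 * X 2} : Ideal S) :=
          Ideal.mul_mem_left _ _ (Ideal.subset_span (by simp))
        have h6 : C ((k : ℂ) - m - 2) * X 0 ^ k * X 1 ^ (m + 2) +
              C ((e : ℂ) + 1) * X 0 ^ (e + 1) * X 2 * X 2 ∈
            (Ideal.span {X 2, C ((k : ℂ) - m - 2) * X 0 ^ k * X 1 ^ (m + 2) +
              C ((e : ℂ) + 1) * X 0 ^ (e + 1) * X 2 * X 2} : Ideal S) :=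
          Ideal.subset_span (by simp)
        have h7 := Ideal.sub_mem _ h6 h5
        rwa [add_sub_cancel_right] at h7
      · exact Ideal.subset_span (by simp)
  rw [h3, h4, len_pow hA hO h _ hc, zero_add]

/-- affine points -/
lemma one_ne (v y : ℂ) : (![1, v, y] : Fin 3 → ℂ) ≠ 0 := fun h => by
  have := congrFun h 0
  simp at this

noncomputable def pt (q : ℂ × ℂ) : Projectivization ℂ (Fin 3 → ℂ) :=
  Projectivization.mk ℂ ![1, q.1, q.2] (one_ne q.1 q.2)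

lemma eq_pt (p : Projectivization ℂ (Fin 3 → ℂ)) (h : p.rep 0 ≠ 0) :
    p = pt (p.rep 1 / p.rep 0, p.rep 2 / p.rep 0) := by
  conv_lhs => rw [← p.mk_rep]
  unfold pt
  rw [Projectivization.mk_eq_mk_iff']
  refine ⟨p.rep 0, ?_⟩
  funext i
  fin_cases i
  · simp
  · simp; field_simp
  · simp; field_simp

/-- the resultant -/
noncomputable def RR (m e : ℕ) (c : ℂ) : Polynomial ℂ :=
  Polynomial.C (((e : ℂ) + 3) ^ 2 * c ^ (e + 1)) * Polynomial.X ^ ((m + 2) * (e + 1)) -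
    (Polynomial.C ((m : ℂ) + 2) * Polynomial.X ^ (m + 1) - Polynomial.C 2) ^ 2

lemma RR_ne (m e : ℕ) (c : ℂ) : RR m e c ≠ 0 := by
  intro h
  have := congrArg (Polynomial.eval 0) h
  unfold RR at this
  simp at this

lemma fin_aff (m e : ℕ) (c : ℂ) :
    {q : ℂ × ℂ | (RR m e c).eval q.1 = 0 ∧ q.2 ^ 2 = c * q.1 ^ (m + 2)}.Finite := by
  have h1 : {v : ℂ | (RR m e c).eval v = 0}.Finite := by
    apply (Polynomial.finite_setOf_isRoot (RR_ne m e c)).subset
    intro v hv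
    exact hv
  have h2 : ∀ v : ℂ, {y : ℂ | y ^ 2 = c * v ^ (m + 2)}.Finite := by
    intro v
    have h3 : (Polynomial.X ^ 2 - Polynomial.C (c * v ^ (m + 2)) : Polynomial ℂ) ≠ 0 :=
      Polynomial.X_pow_sub_C_ne_zero (by norm_num) _
    apply (Polynomial.finite_setOf_isRoot h3).subset
    intro y hy
    simp only [Set.mem_setOf_eq, Polynomial.IsRoot.def] at hy ⊢
    simp [hy]
  refine ((h1.biUnion fun v _ => ((Set.finite_singleton v).prod (h2 v)))).subset ?_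
  rintro ⟨v, y⟩ ⟨hv, hy⟩
  simp only [Set.mem_iUnion]
  exact ⟨v, hv, by simp, hy⟩

lemma affine {k m e : ℕ} (h : m + k = e + 1) (hkm : k ≠ m + 2) {u v y : ℂ} (hu : u ≠ 0)
    (h0 : eval ![u, v, y] (E0 (FF k m e)) = 0) (h1 : eval ![u, v, y] (E1 (FF k m e)) = 0) :
    (v / u = 0 ∧ y / u = 0) ∨
      ((RR m e (-((k : ℂ) - m - 2) / ((e : ℂ) + 1))).eval (v / u) = 0 ∧
        (y / u) ^ 2 = -((k : ℂ) - m - 2) / ((e : ℂ) + 1) * (v / u) ^ (m + 2)) := by
  have hc : (k : ℂ) - m - 2 ≠ 0 := by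
    intro h0
    apply hkm
    have : (k : ℂ) = ((m + 2 : ℕ) : ℂ) := by push_cast; linear_combination h0
    exact_mod_cast this
  have he : (e : ℂ) + 1 ≠ 0 := by exact_mod_cast (by omega : e + 1 ≠ 0)
  rw [E0_eq] at h0
  rw [E1_eq] at h1
  unfold UU at h1
  simp at h0 h1
  obtain ⟨a, ha⟩ : ∃ a, a = v / u := ⟨_, rfl⟩
  obtain ⟨b, hb⟩ : ∃ b, b = y / u := ⟨_, rfl⟩
  have hv : v = a * u := by rw [ha]; field_simp
  have hy : y = b * u := by rw [hb]; field_simp
  rw [← ha, ← hb]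
  -- first equation
  have f0 : ((k : ℂ) - m - 2) * a ^ (m + 2) + ((e : ℂ) + 1) * b ^ 2 = 0 := by
    have e1 : u ^ (e + 3) * (((k : ℂ) - m - 2) * a ^ (m + 2) + ((e : ℂ) + 1) * b ^ 2) = 0 := by
      have e2 : u ^ (e + 3) = u ^ k * u ^ (m + 2) := by
        rw [← pow_add]; congr 1; omega
      rw [mul_add]
      nth_rewrite 1 [e2]
      rw [hv, hy] at h0
      linear_combination h0
    exact (mul_eq_zero.1 e1).resolve_left (pow_ne_zero _ hu)
  have f1 : b ^ 2 = -((k : ℂ) - m - 2) / ((e : ℂ) + 1) * a ^ (m + 2) := by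
    field_simp
    linear_combination f0
  rcases h1 with h1 | h1
  · right
    refine ⟨?_, f1⟩
    have f2 : 2 + ((e : ℂ) + 3) * b ^ (e + 1) - ((m : ℂ) + 2) * a ^ (m + 1) = 0 := by
      have e1 : u ^ (e + 2) * (2 + ((e : ℂ) + 3) * b ^ (e + 1) - ((m : ℂ) + 2) * a ^ (m + 1)) = 0 := by
        have e2 : u ^ (e + 2) * a ^ (m + 1) = u ^ k * v ^ (m + 1) := by
          rw [hv, mul_pow]
          have : u ^ (e + 2) = u ^ k * u ^ (m + 1) := by
            rw [← pow_add]; congr 1; omega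
          rw [this]; ring
        have e3 : u ^ (e + 2) * b ^ (e + 1) = u * y ^ (e + 1) := by
          rw [hy, mul_pow]; ring
        linear_combination h1 + ((e : ℂ) + 3) * e3 - ((m : ℂ) + 2) * e2
      exact (mul_eq_zero.1 e1).resolve_left (pow_ne_zero _ hu)
    unfold RR
    simp only [Polynomial.eval_sub, Polynomial.eval_mul, Polynomial.eval_C, Polynomial.eval_pow,
      Polynomial.eval_X]
    have f3 : ((m : ℂ) + 2) * a ^ (m + 1) - 2 = ((e : ℂ) + 3) * b ^ (e + 1) := by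
      linear_combination -f2
    rw [f3, mul_pow, ← pow_mul, mul_comm (e + 1) 2, pow_mul b, f1, mul_pow, ← pow_mul]
    ring
  · left
    have hb0 : b = 0 := by
      rw [hy] at h1
      exact (mul_eq_zero.1 h1).resolve_right hu
    rw [hb0] at f0
    have f4 : ((k : ℂ) - m - 2) * a ^ (m + 2) = 0 := by linear_combination f0
    have f5 := (mul_eq_zero.1 f4).resolve_left hc
    exact ⟨pow_eq_zero_iff (by omega) |>.1 f5, hb0⟩

lemma finite {k m e : ℕ} (hL : StmLIN) (h : m + k = e + 1) (hkm : k ≠ m + 2) :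
    {p : Projectivization ℂ (Fin 3 → ℂ) | eval p.rep (E0 (FF k m e)) = 0 ∧
      eval p.rep (E1 (FF k m e)) = 0 ∧ eval p.rep (E2 (FF k m e)) = 0}.Finite := by
  have h1 := hL (X 0) (E2 (FF k m e)) _ (Or.inl rfl) (E2_hom h) (X0_ndvd k m e)
  have h2 := (fin_aff m e (-((k : ℂ) - m - 2) / ((e : ℂ) + 1))).image pt
  refine ((h1.union h2).union (Set.finite_singleton (pt (0, 0)))).subset ?_
  rintro p ⟨g0, g1, g2⟩
  by_cases hp : p.rep 0 = 0
  · left; left
    exact ⟨by simpa using hp, g2⟩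
  · have er : p.rep = ![p.rep 0, p.rep 1, p.rep 2] := by
      funext i; fin_cases i <;> rfl
    rw [er] at g0 g1
    rcases affine h hkm hp g0 g1 with ⟨a1, a2⟩ | ⟨a1, a2⟩
    · right
      rw [Set.mem_singleton_iff, eq_pt p hp, a1, a2]
    · left; right
      exact ⟨(p.rep 1 / p.rep 0, p.rep 2 / p.rep 0), ⟨a1, a2⟩, (eq_pt p hp).symm⟩

end ModSMA

open ModSMA in
theorem sma (hA : StmADD) (hO : StmONE) (hL : StmLIN) : StmSMA := by
  intro d m hd hm hmd h2
  obtain ⟨e, rfl⟩ : ∃ e, d = e + 3 := ⟨d - 3, by omega⟩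
  obtain ⟨m', rfl⟩ : ∃ m', m = m' + 2 := ⟨m - 2, by omega⟩
  obtain ⟨k, hk⟩ : ∃ k, m' + k = e + 1 := ⟨e + 1 - m', by omega⟩
  have hkm : k ≠ m' + 2 := by omega
  exact ⟨FF k m' e, hom hk, finite hL hk hkm, hO.1, len_main hA hO hO.1 hkm⟩

end H28.EG
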