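import Pool.Agent.T6.H28.EG.Defs4
import Pool.Agent.T6.H28.EG.SMH

/-! Project EG, module SMQ: `4 ≤ m < d`. -/

open MvPolynomial

namespace H28.EG
namespace SMQ

/-- the form, `m = n + 4`, `d = n + k + 5` -/
noncomputable def F (n k : ℕ) : S :=
  2 * (X 0 ^ (n + k + 3) * (X 1 * X 2)) + X 0 ^ (n + k + 2) * X 2 ^ 3
    + 2 * (X 0 ^ (k + 1) * X 2 ^ (n + 4)) + 2 * X 2 ^ (n + k + 5)

lemma two_mul_hom {p : S} {n : ℕ} (h : p.IsHomogeneous n) : (2 * p).IsHomogeneous n := by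
  rw [two_mul]
  exact h.add h

lemma F_hom (n k : ℕ) : (F n k).IsHomogeneous (n + k + 5) := by
  unfold F
  have h1 := (isHomogeneous_X_pow (R := ℂ) (0 : Fin 3) (n + k + 3)).mul
    ((isHomogeneous_X ℂ (1 : Fin 3)).mul (isHomogeneous_X ℂ (2 : Fin 3)))
  have h2 := (isHomogeneous_X_pow (R := ℂ) (0 : Fin 3) (n + k + 2)).mul
    (isHomogeneous_X_pow (R := ℂ) (2 : Fin 3) 3)
  have h3 := (isHomogeneous_X_pow (R := ℂ) (0 : Fin 3) (k + 1)).mul
    (isHomogeneous_X_pow (R := ℂ) (2 : Fin 3) (n + 4))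
  have h4 := isHomogeneous_X_pow (R := ℂ) (2 : Fin 3) (n + k + 5)
  have e3 : k + 1 + (n + 4) = n + k + 5 := by ring
  rw [e3] at h3
  exact (((two_mul_hom h1).add h2).add (two_mul_hom h3)).add (two_mul_hom h4)

lemma pd2 (i : Fin 3) (p : S) : pderiv i (2 * p) = 2 * pderiv i p := by
  rw [two_mul, map_add, two_mul]

lemma d0 (n k : ℕ) : pderiv 0 (F n k) = 2 * ((n : S) + (k : S) + 3) * X 0 ^ (n + k + 2) * X 1 * X 2
    + ((n : S) + (k : S) + 2) * X 0 ^ (n + k + 1) * X 2 ^ 3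
    + 2 * ((k : S) + 1) * X 0 ^ k * X 2 ^ (n + 4) := by
  unfold F
  rw [map_add, map_add, map_add, pd2, pd2, pd2, Derivation.leibniz, Derivation.leibniz,
    Derivation.leibniz, Derivation.leibniz, SMH.pd 0 0 (n + k + 2), SMH.pd 0 0 (n + k + 1),
    SMH.pd 0 0 k, SMH.pd 0 2 2, SMH.pd 0 2 (n + 3), SMH.pd 0 2 (n + k + 4), pderiv_X_self,
    pderiv_X_of_ne (by decide : (1 : Fin 3) ≠ 0), pderiv_X_of_ne (by decide : (2 : Fin 3) ≠ 0)]
  simp only [smul_eq_mul]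
  push_cast
  ring

lemma d1 (n k : ℕ) : pderiv 1 (F n k) = 2 * X 0 ^ (n + k + 3) * X 2 := by
  unfold F
  rw [map_add, map_add, map_add, pd2, pd2, pd2, Derivation.leibniz, Derivation.leibniz,
    Derivation.leibniz, Derivation.leibniz, SMH.pd 1 0 (n + k + 2), SMH.pd 1 0 (n + k + 1),
    SMH.pd 1 0 k, SMH.pd 1 2 2, SMH.pd 1 2 (n + 3), SMH.pd 1 2 (n + k + 4), pderiv_X_self,
    pderiv_X_of_ne (by decide : (0 : Fin 3) ≠ 1), pderiv_X_of_ne (by decide : (2 : Fin 3) ≠ 1)]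
  simp only [smul_eq_mul]
  push_cast
  ring

lemma d2 (n k : ℕ) : pderiv 2 (F n k) = 2 * X 0 ^ (n + k + 3) * X 1
    + 3 * X 0 ^ (n + k + 2) * X 2 ^ 2 + 2 * ((n : S) + 4) * X 0 ^ (k + 1) * X 2 ^ (n + 3)
    + 2 * ((n : S) + (k : S) + 5) * X 2 ^ (n + k + 4) := by
  unfold F
  rw [map_add, map_add, map_add, pd2, pd2, pd2, Derivation.leibniz, Derivation.leibniz,
    Derivation.leibniz, Derivation.leibniz, SMH.pd 2 0 (n + k + 2), SMH.pd 2 0 (n + k + 1),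
    SMH.pd 2 0 k, SMH.pd 2 2 2, SMH.pd 2 2 (n + 3), SMH.pd 2 2 (n + k + 4), pderiv_X_self,
    pderiv_X_of_ne (by decide : (0 : Fin 3) ≠ 2), pderiv_X_of_ne (by decide : (1 : Fin 3) ≠ 2)]
  simp only [smul_eq_mul]
  push_cast
  ring

noncomputable def H (n k : ℕ) : S :=
  ((n : S) + (k : S) + 2) * X 0 ^ (n + k + 2) * X 2 * (2 * X 0 * X 1 + X 2 ^ 2)
    + 2 * ((k : S) + 1) * X 0 ^ (k + 1) * X 2 ^ (n + 4)

noncomputable def G (n k : ℕ) : S :=
  X 0 ^ (n + k + 3) * (2 * X 0 * X 1 + X 2 ^ 2) + 2 * ((n : S) + 4) * X 0 ^ (k + 2) * X 2 ^ (n + 3)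
    + 2 * ((n : S) + (k : S) + 5) * X 0 * X 2 ^ (n + k + 4)

lemma e0 (n k : ℕ) : E0 (F n k) = H n k := by
  unfold E0 H
  rw [d0, d1]
  ring

lemma e1 (n k : ℕ) : E1 (F n k) = G n k := by
  unfold E1 G
  rw [d2, d1]
  ring

lemma e2 (n k : ℕ) : E2 (F n k) = 2 * X 0 ^ (n + k + 3) * X 1 ^ 2
    + 3 * X 0 ^ (n + k + 2) * X 1 * X 2 ^ 2 + 2 * ((n : S) + 4) * X 0 ^ (k + 1) * X 1 * X 2 ^ (n + 3)
    + 2 * ((n : S) + (k : S) + 5) * X 1 * X 2 ^ (n + k + 4)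
    - 2 * ((n : S) + (k : S) + 3) * X 0 ^ (n + k + 2) * X 1 * X 2 ^ 2
    - ((n : S) + (k : S) + 2) * X 0 ^ (n + k + 1) * X 2 ^ 4
    - 2 * ((k : S) + 1) * X 0 ^ k * X 2 ^ (n + 5) := by
  unfold E2
  rw [d2, d0]
  ring

lemma c1_ne (n k : ℕ) : ((k : ℂ) + 1) - ((n : ℂ) + k + 2) * ((n : ℂ) + 4) ≠ 0 := by
  intro h
  have h1 : ((k + 1 : ℕ) : ℂ) = (((n + k + 2) * (n + 4) : ℕ) : ℂ) := by
    push_cast
    linear_combination h
  have h2 : k + 1 = (n + k + 2) * (n + 4) := by exact_mod_cast h1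
  nlinarith [Nat.zero_le n, Nat.zero_le k, Nat.zero_le (n * k), Nat.zero_le (n * n)]

lemma c5_ne (n k : ℕ) : ((n : ℂ) + k + 5) ≠ 0 := by
  have : ((n + k + 5 : ℕ) : ℂ) ≠ 0 := Nat.cast_ne_zero.mpr (by omega)
  push_cast at this
  exact this

noncomputable def W (n k : ℕ) : S :=
  2 * (((k : S) + 1) - ((n : S) + (k : S) + 2) * ((n : S) + 4)) * X 0 ^ (k + 2)
    - 2 * ((n : S) + (k : S) + 2) * ((n : S) + (k : S) + 5) * X 0 * X 2 ^ (k + 1)

lemma key (n k : ℕ) : H n k * X 0 = X 2 ^ (n + 4) * W n k + (((n : S) + (k : S) + 2) * X 2) * G n k := by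
  unfold H G W
  ring

lemma W_unit (n k : ℕ) : W n k ∉ P0 := by
  apply SMH.not_mem
  unfold W
  simp
  exact c1_ne n k

lemma G_ndvd (n k : ℕ) : ¬ (X 2 : S) ∣ G n k := by
  rintro ⟨q, hq⟩
  have := congrArg (eval (![1, 1, 0] : Fin 3 → ℂ)) hq
  simp [G] at this

lemma len_G (h : P0.IsPrime) (n k : ℕ) : locLength P0 (Ideal.span {X 2, G n k}) = 1 := by
  have h1 : Ideal.span {X 2, G n k} = Ideal.span {(X 2 : S), X 1 * (2 * X 0 ^ (n + k + 4))} := by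
    apply SMH.span_eq (X 2) _ _ (X 0 ^ (n + k + 3) * X 2
      + 2 * ((n : S) + 4) * X 0 ^ (k + 2) * X 2 ^ (n + 2)
      + 2 * ((n : S) + (k : S) + 5) * X 0 * X 2 ^ (n + k + 3))
    unfold G
    ring
  rw [h1, ONE.len_unit P0 h]
  · rw [Set.pair_comm]
    exact ONE.len_P P0 h
  · apply SMH.not_mem
    simp

lemma len_main (hA : StmADD) (h : P0.IsPrime) (n k : ℕ) :
    @locLength P0 h (Ideal.span {E0 (F n k), E1 (F n k)}) = (n + 4 : ℕ) := by
  have s1 : locLength P0 (Ideal.span {G n k, H n k * X 0})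
      = locLength P0 (Ideal.span {G n k, H n k}) := by
    apply ONE.len_unit P0 h
    apply SMH.not_mem
    simp
  have s2 : Ideal.span {G n k, H n k * X 0} = Ideal.span {G n k, X 2 ^ (n + 4) * W n k} :=
    SMH.span_eq (G n k) _ _ (((n : S) + (k : S) + 2) * X 2) (key n k)
  have s3 : locLength P0 (Ideal.span {G n k, X 2 ^ (n + 4) * W n k})
      = locLength P0 (Ideal.span {G n k, X 2 ^ (n + 4)}) :=
    ONE.len_unit P0 h _ _ _ (W_unit n k)
  rw [e0, e1, Set.pair_comm, ← s1, s2, s3, Set.pair_comm]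
  exact SMH.len_yG hA h (G n k) (G_ndvd n k) (len_G h n k) (n + 4)

noncomputable def Q (n k : ℕ) : Polynomial ℂ :=
  Polynomial.C (((k : ℂ) + 1) - ((n : ℂ) + k + 2) * ((n : ℂ) + 4))
    - Polynomial.C (((n : ℂ) + k + 2) * ((n : ℂ) + k + 5)) * Polynomial.X ^ (k + 1)

lemma Q_eval (n k : ℕ) (y : ℂ) : (Q n k).eval y =
    (((k : ℂ) + 1) - ((n : ℂ) + k + 2) * ((n : ℂ) + 4))
      - (((n : ℂ) + k + 2) * ((n : ℂ) + k + 5)) * y ^ (k + 1) := by
  simp [Q]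

lemma Q_ne (n k : ℕ) : Q n k ≠ 0 := by
  intro h
  have h1 := Q_eval n k 0
  rw [h] at h1
  simp at h1
  apply c1_ne n k
  linear_combination -h1

/-- the points with `u = 1` -/
noncomputable def gg (n k : ℕ) (y : ℂ) : Fin 3 → ℂ :=
  ![1, -(y ^ 2 + 2 * ((n : ℂ) + 4) * y ^ (n + 3) + 2 * ((n : ℂ) + k + 5) * y ^ (n + k + 4)) / 2, y]

lemma fin (n k : ℕ) : {p : Projectivization ℂ (Fin 3 → ℂ) | eval p.rep (E0 (F n k)) = 0 ∧
    eval p.rep (E1 (F n k)) = 0 ∧ eval p.rep (E2 (F n k)) = 0}.Finite := by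
  have hT : (({![0, 1, 0], ![0, 0, 1], ![0, 1, (n : ℂ) + 5]} : Set (Fin 3 → ℂ)) ∪
      gg n k '' ({0} ∪ {y | (Q n k).IsRoot y})).Finite :=
    (Set.toFinite _).union (((Set.finite_singleton 0).union
      (Polynomial.finite_setOf_isRoot (Q_ne n k))).image _)
  refine (hT.image SMH.toP).subset ?_
  rintro p ⟨h0, h1, h2⟩
  have hkey := congrArg (eval p.rep) (key n k)
  rw [e0] at h0
  rw [e1] at h1
  rw [e2] at h2
  rw [map_mul, map_add, map_mul, map_mul, h0, h1] at hkey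
  simp only [W, G, map_add, map_sub, map_mul, map_pow, eval_X, map_natCast, map_ofNat,
    map_one] at h1 h2 hkey
  obtain ⟨u, hu⟩ : ∃ u, p.rep 0 = u := ⟨_, rfl⟩
  obtain ⟨v, hv⟩ : ∃ v, p.rep 1 = v := ⟨_, rfl⟩
  obtain ⟨y, hy⟩ : ∃ y, p.rep 2 = y := ⟨_, rfl⟩
  rw [hu, hy] at hkey
  rw [hu, hv, hy] at h1 h2
  have hrep := SMH.rep_eq p.rep u v y hu hv hy
  by_cases hu0 : u = 0
  · subst hu0
    rcases k with _ | k
    · have h3 : y ^ (n + 4) * (((n : ℂ) + 5) * v - y) = 0 := by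
        rw [zero_pow (by omega), zero_pow (by omega), zero_pow (by omega), zero_pow (by omega)] at h2
        push_cast at h2
        linear_combination (1 / 2) * h2
      rcases mul_eq_zero.mp h3 with h3 | h3
      · have h3' := pow_eq_zero_iff (by omega) |>.mp h3
        refine ⟨![0, 1, 0], Or.inl (by simp), SMH.toP_eq p _ v ?_⟩
        rw [hrep, h3']
        simp
      · have h3' : y = v * ((n : ℂ) + 5) := by linear_combination -h3
        refine ⟨![0, 1, (n : ℂ) + 5], Or.inl (by simp), SMH.toP_eq p _ v ?_⟩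
        rw [hrep, h3']
        simp
    · have h3 : (((n : ℂ) + (k + 1 : ℕ) + 5) * v) * y ^ (n + (k + 1) + 4) = 0 := by
        rw [zero_pow (by omega), zero_pow (by omega), zero_pow (by omega), zero_pow (by omega),
          zero_pow (by omega)] at h2
        linear_combination (1 / 2) * h2
      rcases mul_eq_zero.mp h3 with h3 | h3
      · have hv0 : v = 0 := (mul_eq_zero.mp h3).resolve_left (c5_ne n (k + 1))
        refine ⟨![0, 0, 1], Or.inl (by simp), SMH.toP_eq p _ y ?_⟩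
        rw [hrep, hv0]
        simp
      · have h3' := pow_eq_zero_iff (by omega) |>.mp h3
        refine ⟨![0, 1, 0], Or.inl (by simp), SMH.toP_eq p _ v ?_⟩
        rw [hrep, h3']
        simp
  · obtain ⟨v', rfl⟩ : ∃ v', v = u * v' := ⟨v / u, by field_simp⟩
    obtain ⟨y', rfl⟩ : ∃ y', y = u * y' := ⟨y / u, by field_simp⟩
    have hB : 2 * v' + y' ^ 2 + 2 * ((n : ℂ) + 4) * y' ^ (n + 3)
        + 2 * ((n : ℂ) + k + 5) * y' ^ (n + k + 4) = 0 := by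
      have : u ^ (n + k + 5) * (2 * v' + y' ^ 2 + 2 * ((n : ℂ) + 4) * y' ^ (n + 3)
        + 2 * ((n : ℂ) + k + 5) * y' ^ (n + k + 4)) = 0 := by
        linear_combination h1
      exact (mul_eq_zero.mp this).resolve_left (pow_ne_zero _ hu0)
    have hC : y' ^ (n + 4) * (Q n k).eval y' = 0 := by
      have : (2 * u ^ (n + k + 6)) * (y' ^ (n + 4) * (Q n k).eval y') = 0 := by
        rw [Q_eval]
        linear_combination -hkey
      exact (mul_eq_zero.mp this).resolve_left (mul_ne_zero two_ne_zero (pow_ne_zero _ hu0))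
    have hv' : v' = -(y' ^ 2 + 2 * ((n : ℂ) + 4) * y' ^ (n + 3)
        + 2 * ((n : ℂ) + k + 5) * y' ^ (n + k + 4)) / 2 := by
      linear_combination (1 / 2) * hB
    refine ⟨gg n k y', Or.inr ⟨y', ?_, rfl⟩, SMH.toP_eq p _ u ?_⟩
    · rcases mul_eq_zero.mp hC with h | h
      · left
        exact pow_eq_zero_iff (by omega) |>.mp h
      · right
        exact h
    · rw [hrep, hv']
      simp [gg]

end SMQ

theorem smq (hA : StmADD) : StmSMQ := by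
  intro d m hm hd
  obtain ⟨n, rfl⟩ : ∃ n, m = n + 4 := ⟨m - 4, by omega⟩
  obtain ⟨k, rfl⟩ : ∃ k, d = n + k + 5 := ⟨d - (n + 5), by omega⟩
  exact ⟨SMQ.F n k, SMQ.F_hom n k, SMQ.fin n k, ONE.P0_prime, SMQ.len_main hA ONE.P0_prime n k⟩

end H28.EG
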