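import Pool.Agent.T6.H28.EG.Defs4
import Pool.Agent.T6.H28.EG.KY2
import Pool.Agent.T6.H28.EG.ONE
import Pool.Agent.T6.H28.EG.SMA

/-! Project EG, module SP1: `Good 4 2` and `Good 4 5`. -/

set_option autoImplicit false

open MvPolynomial

namespace H28.EG

namespace ModSP1

noncomputable def mon (c : ℂ) (i j k : ℕ) : S := C c * X 0 ^ i * X 1 ^ j * X 2 ^ k

theorem mon_hom (c : ℂ) (i j k n : ℕ) (h : i + j + k = n) : (mon c i j k).IsHomogeneous n := by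
  have := (((isHomogeneous_C (Fin 3) c).mul ((isHomogeneous_X ℂ (0 : Fin 3)).pow i)).mul
    ((isHomogeneous_X ℂ (1 : Fin 3)).pow j)).mul ((isHomogeneous_X ℂ (2 : Fin 3)).pow k)
  have e : 0 + 1 * i + 1 * j + 1 * k = n := by omega
  rw [e] at this
  exact this

theorem c2 : (C (2 : ℂ) : S) = 2 := map_ofNat C 2
theorem pdn (i : Fin 3) : pderiv i (2 : S) = 0 := by rw [← c2]; exact pderiv_C

/-! ### `Good 4 5` -/

noncomputable def F5 : S := mon 2 3 1 0 + mon 2 1 3 0 + mon 1 2 0 2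

theorem e0_5 : E0 F5 = 4 * X 0 ^ 3 * X 1 - 4 * X 0 * X 1 ^ 3 + 2 * X 0 ^ 2 * X 2 ^ 2 := by
  unfold E0 F5 mon
  simp [pderiv_X, Derivation.leibniz, Derivation.leibniz_pow, c2, pdn]
  ring

theorem e1_5 : E1 F5 = -6 * X 0 * X 1 ^ 2 * X 2 := by
  unfold E1 F5 mon
  simp [pderiv_X, Derivation.leibniz, Derivation.leibniz_pow, c2, pdn]
  ring

theorem e2_5 : E2 F5 = -4 * X 0 ^ 2 * X 1 * X 2 - 2 * X 1 ^ 3 * X 2 - 2 * X 0 * X 2 ^ 3 := by
  unfold E2 F5 mon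
  simp [pderiv_X, Derivation.leibniz, Derivation.leibniz_pow, c2, pdn]
  ring

theorem F5_hom : F5.IsHomogeneous 4 :=
  ((mon_hom _ _ _ _ _ (by norm_num)).add (mon_hom _ _ _ _ _ (by norm_num))).add
    (mon_hom _ _ _ _ _ (by norm_num))

/-! ### `Good 4 2` -/

noncomputable def F2 : S := mon 2 3 1 0 + mon 1 2 0 2 + mon 2 2 1 1 + mon 2 0 0 4

theorem e0_2 : E0 F2 = 4 * X 0 ^ 3 * X 1 + 2 * X 0 ^ 2 * X 2 ^ 2 + 2 * X 0 ^ 2 * X 1 * X 2 := by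
  unfold E0 F2 mon
  simp [pderiv_X, Derivation.leibniz, Derivation.leibniz_pow, c2, pdn]
  ring

theorem e1_2 : E1 F2 = 2 * X 0 ^ 3 * X 1 - 2 * X 0 ^ 2 * X 2 ^ 2 + 8 * X 0 * X 2 ^ 3 := by
  unfold E1 F2 mon
  simp [pderiv_X, Derivation.leibniz, Derivation.leibniz_pow, c2, pdn]
  ring

theorem e2_2 : E2 F2 = 2 * X 0 ^ 2 * X 1 ^ 2 - 4 * X 0 ^ 2 * X 1 * X 2 -
    4 * X 0 * X 1 * X 2 ^ 2 - 2 * X 0 * X 2 ^ 3 + 8 * X 1 * X 2 ^ 3 := by
  unfold E2 F2 mon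
  simp [pderiv_X, Derivation.leibniz, Derivation.leibniz_pow, c2, pdn]
  ring

theorem F2_hom : F2.IsHomogeneous 4 :=
  (((mon_hom _ _ _ _ _ (by norm_num)).add (mon_hom _ _ _ _ _ (by norm_num))).add
    (mon_hom _ _ _ _ _ (by norm_num))).add (mon_hom _ _ _ _ _ (by norm_num))

/-! ### lengths -/

theorem ordL_5 : OrdIs 0 2 (E0 F5) := by
  refine ⟨2 * X 0 ^ 2, 4 * X 0 ^ 3 - 4 * X 0 * X 1 ^ 2, ?_, ?_⟩
  · rw [e0_5]; unfold L; simp; ring
  · simp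

theorem ordY_5 : OrdY 1 (E0 F5) := by
  refine ⟨4 * X 0 ^ 3 - 4 * X 0 * X 1 ^ 2, 2 * X 0 ^ 2 * X 2, ?_, ?_⟩
  · rw [e0_5]; ring
  · simp

theorem ordY_2 : OrdY 1 (E1 F2) := by
  refine ⟨2 * X 0 ^ 3, - 2 * X 0 ^ 2 * X 2 + 8 * X 0 * X 2 ^ 2, ?_, ?_⟩
  · rw [e1_2]; ring
  · simp

theorem len5 (hA : StmADD) (hO : StmONE) (h : P0.IsPrime) :
    @locLength P0 h (Ideal.span {E0 F5, E1 F5}) = 5 := by
  have hL0 : L 0 = X 1 := by simp [L]
  have l1 := hO.2.2 h 0 2 (E0 F5) ordL_5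
  have n1 := ModKEY.not_dvd hO.2.1 0 2 (E0 F5) ordL_5
  have p1 := hO.2.1 0
  have m1 := ModKEY.L_mem 0
  rw [hL0] at l1 n1 p1 m1
  have l2 := ModKY2.len_Y hA hO h 1 (E0 F5) ordY_5
  have n2 := ModKY2.X2_not_dvd 1 (E0 F5) ordY_5
  have hz : @locLength P0 h (Ideal.span {-6 * X 0, E0 F5}) = 0 :=
    ModSMA.len_zero h (-6 * X 0) _ (by simp) (Ideal.subset_span (by simp))
  rw [Set.pair_comm, e1_5, hA P0 h (-6 * X 0 * X 1 ^ 2) (X 2) (E0 F5)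
    (X_prime (i := (2 : Fin 3)) (R := ℂ)) ModKY2.X2_mem n2, l2]
  have hsplit : (-6 * X 0 * X 1 ^ 2 : S) = (-6 * X 0 * X 1) * X 1 := by ring
  rw [hsplit, hA P0 h (-6 * X 0 * X 1) (X 1) (E0 F5) p1 m1 n1,
    hA P0 h (-6 * X 0) (X 1) (E0 F5) p1 m1 n1, l1, hz]
  norm_num

theorem len2 (hA : StmADD) (hO : StmONE) (h : P0.IsPrime) :
    @locLength P0 h (Ideal.span {E0 F2, E1 F2}) = 2 := by
  have l2 := ModKY2.len_Y hA hO h 1 (E1 F2) ordY_2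
  have n2 := ModKY2.X2_not_dvd 1 (E1 F2) ordY_2
  have hX0 : (X 0 : S) ∉ P0 := fun hc => by
    have := ModSMA.mem_P0 hc
    simp at this
  have hW : (6 * X 0 ^ 3 - 14 * X 0 ^ 2 * X 2 - 8 * X 0 * X 2 ^ 2 : S) ∉ P0 := fun hc => by
    have := ModSMA.mem_P0 hc
    simp at this
  rw [Set.pair_comm, ← ONE.len_unit P0 h (E1 F2) (X 0) (E0 F2) hX0]
  have hsp : (Ideal.span {E1 F2, E0 F2 * X 0} : Ideal S) =
      Ideal.span {E1 F2, X 2 * X 2 * (6 * X 0 ^ 3 - 14 * X 0 ^ 2 * X 2 - 8 * X 0 * X 2 ^ 2)} := by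
    have key : E0 F2 * X 0 = X 2 * X 2 * (6 * X 0 ^ 3 - 14 * X 0 ^ 2 * X 2 - 8 * X 0 * X 2 ^ 2) +
        E1 F2 * (2 * X 0 + X 2) := by
      rw [e0_2, e1_2]; ring
    rw [key]
    apply le_antisymm
    · rw [Ideal.span_le]
      rintro x (rfl | rfl)
      · exact Ideal.subset_span (by simp)
      · exact Ideal.mem_span_pair.mpr ⟨2 * X 0 + X 2, 1, by ring⟩
    · rw [Ideal.span_le]
      rintro x (rfl | rfl)
      · exact Ideal.subset_span (by simp)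
      · exact Ideal.mem_span_pair.mpr ⟨-(2 * X 0 + X 2), 1, by ring⟩
  rw [hsp, ONE.len_unit P0 h (E1 F2) _ (X 2 * X 2) hW, Set.pair_comm,
    hA P0 h (X 2) (X 2) (E1 F2) (X_prime (i := (2 : Fin 3)) (R := ℂ)) ModKY2.X2_mem n2, l2]
  norm_num

theorem E0_hom (F : S) (d : ℕ) (hF : F.IsHomogeneous d) : (E0 F).IsHomogeneous (1 + (d - 1)) :=
  ((isHomogeneous_X ℂ (0 : Fin 3)).mul hF.pderiv).sub ((isHomogeneous_X ℂ (1 : Fin 3)).mul hF.pderiv)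

theorem nd5 : ¬ (X 0 : S) ∣ E2 F5 := by
  rintro ⟨g, hg⟩
  rw [e2_5] at hg
  have h := congrArg (eval ![0, 1, 1]) hg
  simp at h

theorem nd2 : ¬ (X 0 : S) ∣ E2 F2 := by
  rintro ⟨g, hg⟩
  rw [e2_2] at hg
  have h := congrArg (eval ![0, 1, 1]) hg
  simp at h

theorem fin5 (hO : StmONE) (hL : StmLIN) :
    {p : Projectivization ℂ (Fin 3 → ℂ) | eval p.rep (E0 F5) = 0 ∧
      eval p.rep (E1 F5) = 0 ∧ eval p.rep (E2 F5) = 0}.Finite := by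
  have h1 := hL (X 0) (E2 F5) _ (Or.inl rfl) (ModKEY.E2_hom F5 4 F5_hom) nd5
  have h2 := hL (L 0) (E0 F5) _ (Or.inr ⟨0, rfl⟩) (E0_hom F5 4 F5_hom)
    (ModKEY.not_dvd hO.2.1 0 2 (E0 F5) ordL_5)
  have h3 := ModKY2.fin_line (E0 F5) _ (E0_hom F5 4 F5_hom) (ModKY2.X2_not_dvd 1 (E0 F5) ordY_5)
  refine ((h1.union h2).union h3).subset ?_
  rintro p ⟨g0, g1, g2⟩
  have hL0 : eval p.rep (L 0) = p.rep 1 := by simp [L]
  rw [e1_5] at g1
  simp at g1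
  rcases g1 with (h | h) | h
  · left; left; exact ⟨by simpa using h, g2⟩
  · left; right; exact ⟨by rw [hL0]; exact h, g0⟩
  · right; exact ⟨by simpa using h, g0⟩

noncomputable def PP : Polynomial ℂ :=
  Polynomial.C 6 * Polynomial.X ^ 2 - Polynomial.C 14 * Polynomial.X ^ 3 -
    Polynomial.C 8 * Polynomial.X ^ 4

theorem PP_ne : PP ≠ 0 := by
  intro h
  have := congrArg (Polynomial.eval 1) h
  unfold PP at this
  simp at this
  norm_num at this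

theorem fin2 (hL : StmLIN) :
    {p : Projectivization ℂ (Fin 3 → ℂ) | eval p.rep (E0 F2) = 0 ∧
      eval p.rep (E1 F2) = 0 ∧ eval p.rep (E2 F2) = 0}.Finite := by
  have h1 := hL (X 0) (E2 F2) _ (Or.inl rfl) (ModKEY.E2_hom F2 4 F2_hom) nd2
  have h2 : {y : ℂ | PP.eval y = 0}.Finite := by
    apply (Polynomial.finite_setOf_isRoot PP_ne).subset
    intro y hy
    exact hy
  have h3 := h2.image (fun y : ℂ => ModSMA.pt (y ^ 2 - 4 * y ^ 3, y))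
  refine (h1.union h3).subset ?_
  rintro p ⟨g0, g1, g2⟩
  by_cases hp : p.rep 0 = 0
  · left
    exact ⟨by simpa using hp, g2⟩
  · right
    rw [e0_2] at g0
    rw [e1_2] at g1
    simp at g0 g1
    set u := p.rep 0 with hu
    set v := p.rep 1 with hv
    set y := p.rep 2 with hy
    have k1 : v / u = (y / u) ^ 2 - 4 * (y / u) ^ 3 := by
      field_simp
      have : 2 * u * (u ^ 2 * v - (y ^ 2 * u - 4 * y ^ 3)) = 0 := by linear_combination g1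
      have h5 := (mul_eq_zero.mp this).resolve_left (mul_ne_zero two_ne_zero hp)
      linear_combination h5
    have k2 : PP.eval (y / u) = 0 := by
      unfold PP
      simp
      field_simp
      have : u * (y ^ 2 * (6 * u ^ 2 - 14 * u * y - 8 * y ^ 2)) = 0 := by
        linear_combination u * g0 - (2 * u + y) * g1
      have h5 := (mul_eq_zero.mp this).resolve_left hp
      linear_combination h5
    refine ⟨y / u, k2, ?_⟩
    simp only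
    rw [← k1]
    exact (ModSMA.eq_pt p hp).symm

end ModSP1

open ModSP1 in
theorem sp1 (hA : StmADD) (hO : StmONE) (hL : StmLIN) : StmSP1 :=
  ⟨⟨F2, F2_hom, fin2 hL, hO.1, len2 hA hO hO.1⟩,
    ⟨F5, F5_hom, fin5 hO hL, hO.1, len5 hA hO hO.1⟩⟩

end H28.EG
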