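import Pool.Agent.T6.H28.EG.Defs2

/-! Project EG (helper28), module SPC (helper12): the value `e² - e - 1`, `e = 2 k`. -/

set_option autoImplicit false

open MvPolynomial

namespace H28.EG

namespace ModSPC

/-- reduction modulo the line `v = ρ y` -/
theorem modL (ρ : ℂ) (H : S) :
    ∃ A : S, H = aeval (![X 0, C ρ * X 2, X 2] : Fin 3 → S) H + L ρ * A := by
  set I : Ideal S := Ideal.span {L ρ} with hI
  have h1 : (Ideal.Quotient.mkₐ ℂ I) =
      (Ideal.Quotient.mkₐ ℂ I).comp (aeval (![X 0, C ρ * X 2, X 2] : Fin 3 → S)) := by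
    apply MvPolynomial.algHom_ext
    intro i
    fin_cases i
    · simp
    · simp only [AlgHom.comp_apply, aeval_X, Ideal.Quotient.mkₐ_eq_mk]
      show Ideal.Quotient.mk I (X 1) = Ideal.Quotient.mk I (C ρ * X 2)
      rw [Ideal.Quotient.eq, hI, Ideal.mem_span_singleton]
      exact dvd_refl _
    · simp
  have h2 : Ideal.Quotient.mk I H =
      Ideal.Quotient.mk I (aeval (![X 0, C ρ * X 2, X 2] : Fin 3 → S) H) := by
    have := congrArg (fun f => f H) h1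
    simpa using this
  rw [Ideal.Quotient.eq, hI, Ideal.mem_span_singleton] at h2
  obtain ⟨A, hA⟩ := h2
  exact ⟨A, by rw [← hA]; ring⟩

/-- reduction modulo `y` -/
theorem modY (H : S) : ∃ A : S, H = aeval (![X 0, X 1, 0] : Fin 3 → S) H + X 2 * A := by
  set I : Ideal S := Ideal.span {X 2} with hI
  have h1 : (Ideal.Quotient.mkₐ ℂ I) =
      (Ideal.Quotient.mkₐ ℂ I).comp (aeval (![X 0, X 1, 0] : Fin 3 → S)) := by
    apply MvPolynomial.algHom_ext
    intro i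
    fin_cases i
    · simp
    · simp
    · simp only [AlgHom.comp_apply, aeval_X, Ideal.Quotient.mkₐ_eq_mk]
      show Ideal.Quotient.mk I (X 2) = Ideal.Quotient.mk I 0
      rw [Ideal.Quotient.eq, hI, Ideal.mem_span_singleton, sub_zero]
  have h2 : Ideal.Quotient.mk I H =
      Ideal.Quotient.mk I (aeval (![X 0, X 1, 0] : Fin 3 → S) H) := by
    have := congrArg (fun f => f H) h1
    simpa using this
  rw [Ideal.Quotient.eq, hI, Ideal.mem_span_singleton] at h2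
  obtain ⟨A, hA⟩ := h2
  exact ⟨A, by rw [← hA]; ring⟩

variable (j : ℕ)

noncomputable def GG : S := X 2 * X 1 ^ (j + 2) * (X 1 - X 2) ^ (j + 3)

noncomputable def FF : S := X 0 * GG j + X 2 ^ (2 * j + 7) + (X 0 * X 1) ^ 2 * X 2 ^ (2 * j + 3)

noncomputable def G1 : S := X 2 * (((j : S) + 2) * X 1 ^ (j + 1) * (X 1 - X 2) ^ (j + 3) +
  ((j : S) + 3) * X 1 ^ (j + 2) * (X 1 - X 2) ^ (j + 2))

noncomputable def G2 : S := X 1 ^ (j + 2) * (X 1 - X 2) ^ (j + 3) -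
  ((j : S) + 3) * X 2 * X 1 ^ (j + 2) * (X 1 - X 2) ^ (j + 2)

theorem p0G : pderiv 0 (GG j) = 0 := by
  unfold GG
  simp [pderiv_mul, pderiv_pow, pderiv_X]

theorem p1G : pderiv 1 (GG j) = G1 j := by
  unfold GG G1
  simp only [pderiv_mul, pderiv_pow, map_sub, pderiv_X]
  simp
  ring

theorem p2G : pderiv 2 (GG j) = G2 j := by
  unfold GG G2
  simp only [pderiv_mul, pderiv_pow, map_sub, pderiv_X]
  simp
  ring

theorem p0F : pderiv 0 (FF j) = GG j + 2 * X 0 * X 1 ^ 2 * X 2 ^ (2 * j + 3) := by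
  unfold FF
  simp only [map_add, pderiv_mul, pderiv_pow, pderiv_X, p0G]
  simp
  ring

theorem p1F : pderiv 1 (FF j) = X 0 * G1 j + 2 * X 0 ^ 2 * X 1 * X 2 ^ (2 * j + 3) := by
  unfold FF
  simp only [map_add, pderiv_mul, pderiv_pow, pderiv_X, p1G]
  simp
  ring

theorem p2F : pderiv 2 (FF j) = X 0 * G2 j + (2 * (j : S) + 7) * X 2 ^ (2 * j + 6) +
    (2 * (j : S) + 3) * X 0 ^ 2 * X 1 ^ 2 * X 2 ^ (2 * j + 2) := by
  unfold FF
  simp only [map_add, pderiv_mul, pderiv_pow, pderiv_X, p2G]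
  simp
  ring

theorem E1F : E1 (FF j) = X 0 * (X 0 * G2 j + (2 * (j : S) + 7) * X 2 ^ (2 * j + 6) +
    (2 * (j : S) + 3) * X 0 ^ 2 * X 1 ^ 2 * X 2 ^ (2 * j + 2)) -
    X 2 * (X 0 * G1 j + 2 * X 0 ^ 2 * X 1 * X 2 ^ (2 * j + 3)) := by
  unfold E1
  rw [p1F, p2F]

noncomputable def g1 (ρ : ℂ) : ℂ := ((j : ℂ) + 2) * ρ ^ (j + 1) * (ρ - 1) ^ (j + 3) +
  ((j : ℂ) + 3) * ρ ^ (j + 2) * (ρ - 1) ^ (j + 2)

noncomputable def g2 (ρ : ℂ) : ℂ := ρ ^ (j + 2) * (ρ - 1) ^ (j + 3) -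
  ((j : ℂ) + 3) * ρ ^ (j + 2) * (ρ - 1) ^ (j + 2)

theorem ev1 (ρ : ℂ) : aeval (![X 0, C ρ * X 2, X 2] : Fin 3 → S) (E1 (FF j)) =
    X 2 ^ (2 * j + 4) * (C ((2 * (j : ℂ) + 3) * ρ ^ 2) * X 0 ^ 3 +
      C (g2 j ρ - 2 * ρ) * X 0 ^ 2 * X 2 + C (2 * (j : ℂ) + 7 - g1 j ρ) * X 0 * X 2 ^ 2) := by
  rw [E1F]
  unfold G1 G2 g1 g2
  simp only [map_add, map_sub, map_mul, map_pow, aeval_X, map_natCast, map_ofNat, map_one,
    Matrix.cons_val_zero, Matrix.cons_val_one, Matrix.cons_val]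
  have e : C ρ * X 2 - X 2 = (C ρ - 1) * (X 2 : S) := by ring
  rw [e]
  simp only [mul_pow]
  ring

theorem ordne (ρ : ℂ) (hρ : ρ ≠ 0) : OrdIs ρ (2 * j + 4) (E1 (FF j)) := by
  obtain ⟨A, hA⟩ := modL ρ (E1 (FF j))
  rw [ev1] at hA
  refine ⟨_, A, hA, ?_⟩
  have h1 : (2 * (j : ℂ) + 3) ≠ 0 := by
    have : ((2 * j + 3 : ℕ) : ℂ) ≠ 0 := Nat.cast_ne_zero.2 (by omega)
    push_cast at this
    exact this
  simp [h1, hρ]

theorem ordzero : OrdIs 0 (2 * j + 6) (E1 (FF j)) := by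
  obtain ⟨A, hA⟩ := modL 0 (E1 (FF j))
  rw [ev1] at hA
  have a1 : g1 j 0 = 0 := by simp [g1]
  have a2 : g2 j 0 = 0 := by simp [g2]
  rw [a1, a2] at hA
  refine ⟨C (2 * (j : ℂ) + 7) * X 0, A, ?_, ?_⟩
  · conv_lhs => rw [hA]
    simp only [ne_eq, OfNat.ofNat_ne_zero, not_false_eq_true, zero_pow, mul_zero, sub_zero,
      map_zero, zero_mul, zero_add]
    ring
  · have h1 : (2 * (j : ℂ) + 7) ≠ 0 := by
      have : ((2 * j + 7 : ℕ) : ℂ) ≠ 0 := Nat.cast_ne_zero.2 (by omega)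
      push_cast at this
      exact this
    simpa using h1

theorem ordy : OrdY (2 * j + 5) (E1 (FF j)) := by
  obtain ⟨A, hA⟩ := modY (E1 (FF j))
  have h1 : aeval (![X 0, X 1, 0] : Fin 3 → S) (E1 (FF j)) = X 1 ^ (2 * j + 5) * X 0 ^ 2 := by
    rw [E1F]
    unfold G1 G2
    simp only [map_add, map_sub, map_mul, map_pow, aeval_X, map_natCast, map_ofNat, map_one,
      Matrix.cons_val_zero, Matrix.cons_val_one, Matrix.cons_val]
    simp
    ring
  rw [h1] at hA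
  refine ⟨_, A, hA, ?_⟩
  simp

noncomputable def rh : ℂ := ((j : ℂ) + 1) / (2 * (j : ℂ) + 4)

theorem den_ne : (2 * (j : ℂ) + 4) ≠ 0 := by
  have : ((2 * j + 4 : ℕ) : ℂ) ≠ 0 := Nat.cast_ne_zero.2 (by omega)
  push_cast at this
  exact this

theorem rh_ne : rh j ≠ 0 := by
  unfold rh
  apply div_ne_zero _ (den_ne j)
  have : ((j + 1 : ℕ) : ℂ) ≠ 0 := Nat.cast_ne_zero.2 (by omega)
  push_cast at this
  exact this

theorem E0F : E0 (FF j) = C (-(2 * (j : ℂ) + 4)) * X 0 ^ 1 *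
    ((List.replicate (j + 2) (0 : ℂ) ++ (List.replicate (j + 2) (1 : ℂ) ++ [rh j])).map L).prod *
      X 2 := by
  have hr : (2 * (j : S) + 4) * C (rh j) = (j : S) + 1 := by
    have h1 : (2 * (j : ℂ) + 4) * rh j = (j : ℂ) + 1 := by
      unfold rh
      field_simp [den_ne j]
    have h2 := congrArg (C (σ := Fin 3)) h1
    simp only [map_mul, map_add, map_natCast, map_one, map_ofNat] at h2
    exact h2
  have hL0 : L 0 = X 1 := by simp [L]
  have hL1 : L 1 = X 1 - X 2 := by simp [L]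
  have hLr : L (rh j) = X 1 - C (rh j) * X 2 := rfl
  unfold E0
  rw [p0F, p1F]
  simp only [List.map_append, List.map_replicate, List.prod_append, List.prod_replicate,
    List.map_cons, List.map_nil, List.prod_cons, List.prod_nil, hL0, hL1, hLr, pow_one, mul_one]
  have hc : C (-(2 * (j : ℂ) + 4)) = -(2 * (j : S) + 4) := by
    simp only [map_neg, map_mul, map_add, map_natCast, map_ofNat]
  rw [hc]
  unfold GG G1
  have p1 : (X 1 - X 2 : S) ^ (j + 3) = (X 1 - X 2) ^ (j + 2) * (X 1 - X 2) := pow_succ _ _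
  rw [p1]
  linear_combination (-(X 0 * X 2 ^ 2 * X 1 ^ (j + 2) * (X 1 - X 2 : S) ^ (j + 2))) * hr

theorem hom : (FF j).IsHomogeneous (2 * j + 7) := by
  have x0 := isHomogeneous_X ℂ (0 : Fin 3)
  have x1 := isHomogeneous_X ℂ (1 : Fin 3)
  have x2 := isHomogeneous_X ℂ (2 : Fin 3)
  have hG : (GG j).IsHomogeneous (1 + 1 * (j + 2) + 1 * (j + 3)) :=
    (x2.mul (x1.pow (j + 2))).mul ((x1.sub x2).pow (j + 3))
  have h1 : (X 0 * GG j : S).IsHomogeneous (1 + (1 + 1 * (j + 2) + 1 * (j + 3))) := x0.mul hG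
  have h2 : (X 2 ^ (2 * j + 7) : S).IsHomogeneous (1 * (2 * j + 7)) := x2.pow _
  have h3 : ((X 0 * X 1) ^ 2 * X 2 ^ (2 * j + 3) : S).IsHomogeneous
      ((1 + 1) * 2 + 1 * (2 * j + 3)) := ((x0.mul x1).pow 2).mul (x2.pow _)
  rw [show 1 + (1 + 1 * (j + 2) + 1 * (j + 3)) = 2 * j + 7 by ring] at h1
  rw [one_mul] at h2
  rw [show (1 + 1) * 2 + 1 * (2 * j + 3) = 2 * j + 7 by ring] at h3
  exact (h1.add h2).add h3

theorem notdvd : ¬ X 0 ∣ E2 (FF j) := by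
  rintro ⟨A, hA⟩
  have h1 := congrArg (eval (![0, 1, 1] : Fin 3 → ℂ)) hA
  unfold E2 at h1
  rw [p0F, p2F] at h1
  unfold GG G2 at h1
  simp at h1
  have : ((2 * j + 7 : ℕ) : ℂ) ≠ 0 := Nat.cast_ne_zero.2 (by omega)
  push_cast at this
  exact this h1

end ModSPC

open ModSPC in
theorem spc (h : StmKY2) : StmSPC := by
  intro k hk
  obtain ⟨j, rfl⟩ : ∃ j, k = j + 3 := ⟨k - 3, by omega⟩
  set o : ℂ → ℕ := fun z => if z = 0 then 2 * j + 6 else 2 * j + 4 with ho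
  have main := h (2 * j + 7) (FF j) (-(2 * (j : ℂ) + 4)) 1
    (List.replicate (j + 2) (0 : ℂ) ++ (List.replicate (j + 2) (1 : ℂ) ++ [rh j])) o (2 * j + 5)
    (hom j) (neg_ne_zero.2 (den_ne j)) (E0F j) ?_ (ordy j) (notdvd j)
  · have e1 : (List.map o (List.replicate (j + 2) (0 : ℂ) ++
        (List.replicate (j + 2) (1 : ℂ) ++ [rh j]))).sum =
        (j + 2) * (2 * j + 6) + ((j + 2) * (2 * j + 4) + (2 * j + 4)) := by
      simp only [List.map_append, List.map_replicate, List.sum_append, List.sum_replicate,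
        List.map_cons, List.map_nil, List.sum_cons, List.sum_nil, ho, if_true, smul_eq_mul,
        one_ne_zero, if_false, rh_ne j, add_zero]
    rw [e1] at main
    have e2 : 2 * (j + 3) + 1 = 2 * j + 7 := by ring
    have e3 : 4 * (j + 3) ^ 2 - 2 * (j + 3) - 1 =
        (j + 2) * (2 * j + 6) + ((j + 2) * (2 * j + 4) + (2 * j + 4)) + (2 * j + 5) := by
      have e4 : 4 * (j + 3) ^ 2 = ((j + 2) * (2 * j + 6) + ((j + 2) * (2 * j + 4) + (2 * j + 4)) +
        (2 * j + 5)) + 1 + 2 * (j + 3) := by ring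
      rw [e4, Nat.add_sub_cancel, Nat.add_sub_cancel]
    rw [e2, e3]
    exact main
  · intro ρ hρ
    by_cases h0 : ρ = 0
    · subst h0
      simp only [ho, if_true]
      exact ordzero j
    · simp only [ho, h0, if_false]
      exact ordne j ρ h0

end H28.EG
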