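import Pool.Agent.T6.H28.EG.Defs

/-! Project EG, module CVH: the covering, high range. -/

namespace H28.EG

theorem cvh : StmCVH := by
  intro e m he h1 h2 h3
  obtain ⟨t, t1, t2⟩ : ∃ t, t * (e + 1) ≤ m + e ∧ m + e < (t + 1) * (e + 1) := by
    refine ⟨(m + e) / (e + 1), Nat.div_mul_le_self _ _, ?_⟩
    have := Nat.div_add_mod (m + e) (e + 1)
    have h := Nat.mod_lt (m + e) (Nat.succ_pos e)
    nlinarith
  have t3 : m ≤ t * (e + 1) := by nlinarith
  have t4 : t + 1 ≤ e := by
    by_contra h
    have h' : e ≤ t := by omega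
    have : e * (e + 1) ≤ t * (e + 1) := Nat.mul_le_mul_right _ h'
    nlinarith
  have t5 : e + 4 ≤ 2 * t := by
    by_contra h
    have h' : 2 * t ≤ e + 3 := by omega
    have : 2 * t * (e + 1) ≤ (e + 3) * (e + 1) := Nat.mul_le_mul_right _ h'
    nlinarith
  obtain ⟨a, ha⟩ : ∃ a, e = a + t := ⟨e - t, by omega⟩
  have a1 : 1 ≤ a := by omega
  have a2 : 2 * a + 4 ≤ e := by omega
  obtain ⟨D, hD⟩ : ∃ D, m + D = (t + 1) * e := by
    refine ⟨(t + 1) * e - m, ?_⟩
    have : m ≤ (t + 1) * e := by nlinarith
    omega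
  have D1 : a ≤ D := by nlinarith
  have D2 : D ≤ a + e := by nlinarith
  have hs := Nat.div_add_mod D a
  have hK := Nat.mod_lt D a1
  generalize D / a = s at hs
  generalize D % a = K at hs hK
  have s1 : 1 ≤ s := by
    rcases Nat.eq_zero_or_pos s with h | h
    · subst h; simp at hs; omega
    · exact h
  have hsa : a * s ≤ a + e := by omega
  rcases Nat.eq_zero_or_pos K with hK0 | hK0
  · subst hK0
    have s2 : s ≤ t + 1 := by
      by_contra h
      have h' : t + 2 ≤ s := by omega
      have h4 : a * (t + 2) ≤ a * s := Nat.mul_le_mul_left _ h'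
      rcases Nat.eq_or_lt_of_le a1 with h5 | h5
      · subst h5
        have : D = e + 1 := by omega
        apply h3
        subst this
        have : t + 1 = e := by omega
        rw [this] at hD
        nlinarith
      · obtain ⟨c, rfl⟩ : ∃ c, a = c + 2 := ⟨a - 2, by omega⟩
        nlinarith
    refine ⟨t + 1, a, 0, t + 1 - s, s, 0, by omega, a1, s1, by omega, by omega, by omega, by omega,
      by omega, by omega, ?_⟩
    simp only [mul_zero, add_zero, Nat.zero_le, sup_of_le_left] at hs ⊢
    rw [mul_comm s a, hs, hD]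
  · have a3 : 2 ≤ a := by omega
    obtain ⟨c, rfl⟩ : ∃ c, a = c + 2 := ⟨a - 2, by omega⟩
    have b1 : s + 2 ≤ t := by
      by_contra h
      have h' : t ≤ s + 1 := by omega
      have h4 : (c + 2) * t ≤ (c + 2) * (s + 1) := Nat.mul_le_mul_left _ h'
      nlinarith
    have b2 : t - s ≠ c + 2 := by
      intro h
      have h' : t = s + c + 2 := by omega
      subst h'
      nlinarith
    refine ⟨t + 1, c + 2, t - s, 1, s, K, by omega, a1, s1, by omega, by omega, by omega, by omega,
      by omega, by omega, ?_⟩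
    rw [max_eq_left (by omega), ← hD]
    nlinarith

end H28.EG
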