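import Mathlib

/-! Project EG (`MP_3fe32a_ag`, ternary forms): definitions and module statements.
Variables of `S = ℂ[X0, X1, X2]`; in the isotropic coordinates they are `u, v, y`, with the
quadratic form `2uv + y²`. -/

open MvPolynomial

namespace H28.EG

abbrev S := MvPolynomial (Fin 3) ℂ

/-- ideal of the eigenscheme of `f` (orthonormal coordinates) -/
noncomputable def eigenIdeal (f : S) : Ideal S :=
  Ideal.span {g | ∃ i j, g = X i * pderiv j f - X j * pderiv i f}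

/-- homogeneous ideal of the point `[w]` -/
noncomputable def pointIdeal (w : Fin 3 → ℂ) : Ideal S :=
  Ideal.span {g | ∃ i j, g = C (w i) * X j - C (w j) * X i}

/-- length of the localisation of `S/I` at the prime ideal `P` -/
noncomputable def locLength (P : Ideal S) [P.IsPrime] (I : Ideal S) : ℕ∞ :=
  Module.length (Localization.AtPrime P)
    (Localization.AtPrime P ⧸ I.map (algebraMap S (Localization.AtPrime P)))

/-- `w` is an eigenvector of `f` -/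
def IsEig (f : S) (w : Fin 3 → ℂ) : Prop :=
  ∀ i j, w i * eval w (pderiv j f) = w j * eval w (pderiv i f)

/-- Some form of degree `d` in three variables has a finite eigenscheme with a component of
degree `m`. -/
def Occurs (d m : ℕ) : Prop :=
  ∃ f : S, f.IsHomogeneous d ∧
    {p : Projectivization ℂ (Fin 3 → ℂ) | IsEig f p.rep}.Finite ∧
    ∃ w : Fin 3 → ℂ, w ≠ 0 ∧ ∃ h : (pointIdeal w).IsPrime,
      @locLength (pointIdeal w) h (eigenIdeal f) = m

noncomputable def E0 (F : S) : S := X 0 * pderiv 0 F - X 1 * pderiv 1 F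
noncomputable def E1 (F : S) : S := X 0 * pderiv 2 F - X 2 * pderiv 1 F
noncomputable def E2 (F : S) : S := X 1 * pderiv 2 F - X 2 * pderiv 0 F

/-- ideal of the isotropic point `(1 : 0 : 0)` -/
noncomputable def P0 : Ideal S := Ideal.span {X 1, X 2}

/-- the same in isotropic coordinates -/
def Good (d m : ℕ) : Prop :=
  ∃ F : S, F.IsHomogeneous d ∧
    {p : Projectivization ℂ (Fin 3 → ℂ) | eval p.rep (E0 F) = 0 ∧ eval p.rep (E1 F) = 0 ∧
      eval p.rep (E2 F) = 0}.Finite ∧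
    ∃ h : P0.IsPrime, @locLength P0 h (Ideal.span {E0 F, E1 F}) = m

/-- the line `v = ρ y` -/
noncomputable def L (ρ : ℂ) : S := X 1 - C ρ * X 2

/-- `H` vanishes to order exactly `o` at `(1:0:0)` on the line `L ρ` -/
def OrdIs (ρ : ℂ) (o : ℕ) (H : S) : Prop :=
  ∃ W A : S, H = X 2 ^ o * W + L ρ * A ∧ eval ![1, 0, 0] W ≠ 0

/-! ### Module statements -/

/-- TRA: transport to orthonormal coordinates. `F(u,v,y)` with `u = (x0 + i x1)/√2`,
`v = (x0 - i x1)/√2`, `y = x2`. -/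
def StmTRA : Prop := ∀ d m, Good d m → Occurs d m

/-- ADD: additivity of the length. -/
def StmADD : Prop := ∀ (P : Ideal S) (_ : P.IsPrime) (a b h : S), Prime b → b ∈ P → ¬ b ∣ h →
  locLength P (Ideal.span {a * b, h}) =
    locLength P (Ideal.span {a, h}) + locLength P (Ideal.span {b, h})

/-- ONE: one line. -/
def StmONE : Prop := P0.IsPrime ∧ (∀ ρ, Prime (L ρ)) ∧
  ∀ (h : P0.IsPrime) (ρ : ℂ) (o : ℕ) (H : S), OrdIs ρ o H →
    @locLength P0 h (Ideal.span {L ρ, H}) = o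

/-- LIN: finitely many common zeros of a line and a form. -/
def StmLIN : Prop := ∀ (ℓ H : S) (n : ℕ), (ℓ = X 0 ∨ ∃ ρ, ℓ = L ρ) → H.IsHomogeneous n →
  ¬ ℓ ∣ H → {p : Projectivization ℂ (Fin 3 → ℂ) | eval p.rep ℓ = 0 ∧ eval p.rep H = 0}.Finite

/-- KEY: `E0 F` is a product of lines. -/
def StmKEY : Prop := ∀ (d : ℕ) (F : S) (c : ℂ) (a : ℕ) (rs : List ℂ) (o : ℂ → ℕ),
  F.IsHomogeneous d → c ≠ 0 → E0 F = C c * X 0 ^ a * (rs.map L).prod →
  (∀ ρ ∈ rs, OrdIs ρ (o ρ) (E1 F)) → ¬ X 0 ∣ E2 F → Good d ((rs.map o).sum)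

/-- admissible parameters, `e = d - 1` -/
def Fam (e m : ℕ) : Prop := ∃ g a b r s K : ℕ, a + g = e + 1 ∧ 1 ≤ a ∧ 1 ≤ s ∧ b + r + s = g ∧
  b ≠ 1 ∧ b ≠ a ∧ a ≠ g ∧ K ≠ a ∧ 2 * K ≤ e ∧ m + r * K + s * max a K = g * e

/-- FAM: the main family. -/
def StmFAM : Prop := ∀ e m : ℕ, 2 ≤ e → Fam e m → Good (e + 1) m

/-- TOP: the interval `[e², e² + e + 1]`. -/
def StmTOP : Prop := ∀ e m : ℕ, 2 ≤ e → e ^ 2 ≤ m → m ≤ e ^ 2 + e + 1 → Good (e + 1) m

/-- SMA: small `m`. -/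
def StmSMA : Prop := ∀ d m : ℕ, 3 ≤ d → 2 ≤ m → m ≤ d → d ≠ 2 * m → Good d m

/-- CVB: the covering for small `e`. -/
def StmCVB : Prop := ∀ e m : ℕ, 18 ≤ e → e < 100 → e + 2 ≤ m → m < e ^ 2 → m + e + 1 ≠ e ^ 2 →
  Fam e m

/-- CVH: the covering, high range. -/
def StmCVH : Prop := ∀ e m : ℕ, 100 ≤ e → e * (e + 5) ≤ 2 * m → m < e ^ 2 →
  m + e + 1 ≠ e ^ 2 → Fam e m

/-- CVM: the covering, middle range. -/
def StmCVM : Prop := ∀ e m : ℕ, 100 ≤ e → e * e ≤ 2 * m + 5 * e → 2 * m ≤ e * (e + 5) → Fam e m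

/-- CVL: the covering, low range. -/
def StmCVL : Prop := ∀ e m : ℕ, 100 ≤ e → e + 2 ≤ m → 2 * m + 5 * e ≤ e * e → Fam e m

end H28.EG
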