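import Pool.Agent.T6.H28.EG.Defs

/-! Project EG, three more statements. -/

open MvPolynomial

namespace H28.EG

/-- `H` vanishes to order exactly `o` at `(1:0:0)` on the line `y = 0` -/
def OrdY (o : ℕ) (H : S) : Prop :=
  ∃ W A : S, H = X 1 ^ o * W + X 2 * A ∧ eval ![1, 0, 0] W ≠ 0

/-- KY2: like KEY, with the line `y = 0` as one more factor of `E0 F`. -/
def StmKY2 : Prop := ∀ (d : ℕ) (F : S) (c : ℂ) (a : ℕ) (rs : List ℂ) (o : ℂ → ℕ) (oy : ℕ),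
  F.IsHomogeneous d → c ≠ 0 → E0 F = C c * X 0 ^ a * (rs.map L).prod * X 2 →
  (∀ ρ ∈ rs, OrdIs ρ (o ρ) (E1 F)) → OrdY oy (E1 F) → ¬ X 0 ∣ E2 F →
  Good d ((rs.map o).sum + oy)

/-- SPC: the value `e² - e - 1`, `e = 2 k`. -/
def StmSPC : Prop := ∀ k : ℕ, 3 ≤ k → Good (2 * k + 1) (4 * k ^ 2 - 2 * k - 1)

/-- SMH: the value `m = d / 2`. -/
def StmSMH : Prop := ∀ m : ℕ, 7 ≤ m → Good (2 * m) m

end H28.EG
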