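import Pool.Agent.T6.H28.EG.Defs2

/-! Project EG, third part. -/

open MvPolynomial

namespace H28.EG

/-- parameters of the family with a simple line `v = 0` -/
def FamB (e m : ℕ) : Prop := ∃ g a r s K : ℕ, a + g = e + 1 ∧ 2 ≤ a ∧ 1 ≤ s ∧ 1 + r + s = g ∧
  a ≠ g ∧ K ≠ a ∧ 2 * K ≤ e ∧ m + r * K + s * max a K + (a - 1) = g * e

/-- FAB: the family with `b = 1`. -/
def StmFAB : Prop := ∀ e m : ℕ, 2 ≤ e → FamB e m → Good (e + 1) m

/-- F49: one form of degree 12. -/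
def StmF49 : Prop := Good 12 49

/-- CVS: the covering for `10 ≤ e < 18`. -/
def StmCVS : Prop := ∀ e m : ℕ, 10 ≤ e → e < 18 → e + 2 ≤ m → m < e ^ 2 → m + e + 1 ≠ e ^ 2 →
  Fam e m ∨ FamB e m ∨ (e = 11 ∧ m = 49)

end H28.EG
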