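import Pool.Agent.T6.H28.EG.Defs3

/-! Project EG (`MP_3fe32a_ag`), module F49: a form of degree 12 with a component of degree 49. -/

set_option autoImplicit false

open MvPolynomial

namespace H28.EG

namespace ModF49

/-- restriction to the line `v = ρ y` -/
noncomputable def ph (ρ : ℂ) : S →ₐ[ℂ] S := aeval ![X 0, C ρ * X 2, X 2]

lemma ph0 (ρ : ℂ) : ph ρ (X 0) = X 0 := by simp [ph]
lemma ph1 (ρ : ℂ) : ph ρ (X 1) = C ρ * X 2 := by simp [ph]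
lemma ph2 (ρ : ℂ) : ph ρ (X 2) = X 2 := by simp [ph]
lemma phC (ρ a : ℂ) : ph ρ (C a) = C a := by simp [ph]

lemma L_dvd (ρ : ℂ) (H : S) : L ρ ∣ H - ph ρ H := by
  induction H using MvPolynomial.induction_on with
  | C a => rw [phC, sub_self]; exact dvd_zero _
  | add p q hp hq =>
    rw [map_add]
    have e : p + q - (ph ρ p + ph ρ q) = (p - ph ρ p) + (q - ph ρ q) := by ring
    rw [e]
    exact dvd_add hp hq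
  | mul_X p i hp =>
    rw [map_mul]
    have e : p * X i - ph ρ p * ph ρ (X i) = (p - ph ρ p) * X i + ph ρ p * (X i - ph ρ (X i)) := by
      ring
    rw [e]
    refine dvd_add (hp.mul_right _) (Dvd.dvd.mul_left ?_ _)
    fin_cases i
    · show L ρ ∣ X 0 - ph ρ (X 0)
      rw [ph0, sub_self]; exact dvd_zero _
    · show L ρ ∣ X 1 - ph ρ (X 1)
      rw [ph1]
      exact dvd_rfl
    · show L ρ ∣ X 2 - ph ρ (X 2)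
      rw [ph2, sub_self]; exact dvd_zero _

lemma ord_of {ρ : ℂ} {o : ℕ} {H W : S} (h : ph ρ H = X 2 ^ o * W)
    (hW : eval ![1, 0, 0] W ≠ 0) : OrdIs ρ o H := by
  obtain ⟨A, hA⟩ := L_dvd ρ H
  refine ⟨W, A, ?_, hW⟩
  rw [← h, ← hA]
  ring

/-- the form -/
noncomputable def F : S := X 0 ^ 6 * (X 2 * X 1 ^ 2 * (X 1 - X 2) ^ 2 * (C 4 * X 1 - C 9 * X 2))
  + X 2 ^ 12 + X 0 * X 1 * X 2 ^ 10

lemma F_hom : F.IsHomogeneous 12 := by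
  unfold F
  have hX : ∀ i : Fin 3, (X i : S).IsHomogeneous 1 := fun i => isHomogeneous_X ℂ i
  refine ((((hX 0).pow 6).mul ((((hX 2).mul ((hX 1).pow 2)).mul (((hX 1).sub (hX 2)).pow 2)).mul
    (((hX 1).C_mul 4).sub ((hX 2).C_mul 9)))).add ((hX 2).pow 12)).add
    (((hX 0).mul (hX 1)).mul ((hX 2).pow 10))

lemma F_exp : F = C 4 * (X 0 ^ 6 * (X 1 ^ 5 * X 2)) - C 17 * (X 0 ^ 6 * (X 1 ^ 4 * X 2 ^ 2))
    + C 22 * (X 0 ^ 6 * (X 1 ^ 3 * X 2 ^ 3)) - C 9 * (X 0 ^ 6 * (X 1 ^ 2 * X 2 ^ 4))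
    + X 2 ^ 12 + X 0 * X 1 * X 2 ^ 10 := by
  unfold F
  simp only [map_ofNat]
  ring

lemma F_d0 : pderiv 0 F = 6 * X 0 ^ 5 * (4 * X 1 ^ 5 * X 2 - 17 * X 1 ^ 4 * X 2 ^ 2
    + 22 * X 1 ^ 3 * X 2 ^ 3 - 9 * X 1 ^ 2 * X 2 ^ 4) + X 1 * X 2 ^ 10 := by
  rw [F_exp]
  simp only [map_add, map_sub, pderiv_C_mul]
  simp [pderiv_X, map_ofNat]
  ring

lemma F_d1 : pderiv 1 F = X 0 ^ 6 * (20 * X 1 ^ 4 * X 2 - 68 * X 1 ^ 3 * X 2 ^ 2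
    + 66 * X 1 ^ 2 * X 2 ^ 3 - 18 * X 1 * X 2 ^ 4) + X 0 * X 2 ^ 10 := by
  rw [F_exp]
  simp only [map_add, map_sub, pderiv_C_mul]
  simp [pderiv_X, map_ofNat]
  ring

lemma F_d2 : pderiv 2 F = X 0 ^ 6 * (4 * X 1 ^ 5 - 34 * X 1 ^ 4 * X 2
    + 66 * X 1 ^ 3 * X 2 ^ 2 - 36 * X 1 ^ 2 * X 2 ^ 3) + 12 * X 2 ^ 11
    + 10 * X 0 * X 1 * X 2 ^ 9 := by
  rw [F_exp]
  simp only [map_add, map_sub, pderiv_C_mul]
  simp [pderiv_X, map_ofNat]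
  ring

lemma e0 : E0 F = C 4 * X 0 ^ 6 * (([0, 0, 1, 6, 3 / 2] : List ℂ).map L).prod * X 2 := by
  unfold E0
  rw [F_d0, F_d1]
  have h32 : (2 : S) * C (3 / 2) = 3 := by
    have : (2 : S) = C 2 := (map_ofNat C 2).symm
    rw [this, ← C_mul, show (2 : ℂ) * (3 / 2) = 3 by norm_num]
    exact map_ofNat C 3
  simp only [L, List.map_cons, List.map_nil, List.prod_cons, List.prod_nil, C_0, C_1, map_ofNat]
  linear_combination (2 * X 0 ^ 6 * X 2 ^ 2 * X 1 ^ 2 * (X 1 - X 2) * (X 1 - 6 * X 2)) * h32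

lemma e1 : E1 F = X 0 ^ 7 * (4 * X 1 ^ 5 - 34 * X 1 ^ 4 * X 2
    + 66 * X 1 ^ 3 * X 2 ^ 2 - 36 * X 1 ^ 2 * X 2 ^ 3)
    - X 0 ^ 6 * X 2 * (20 * X 1 ^ 4 * X 2 - 68 * X 1 ^ 3 * X 2 ^ 2
      + 66 * X 1 ^ 2 * X 2 ^ 3 - 18 * X 1 * X 2 ^ 4)
    + 11 * X 0 * X 2 ^ 11 + 10 * X 0 ^ 2 * X 1 * X 2 ^ 9 := by
  unfold E1
  rw [F_d2, F_d1]
  ring

lemma e2 : E2 F = X 1 * (X 0 ^ 6 * (4 * X 1 ^ 5 - 34 * X 1 ^ 4 * X 2
    + 66 * X 1 ^ 3 * X 2 ^ 2 - 36 * X 1 ^ 2 * X 2 ^ 3))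
    - X 2 * (6 * X 0 ^ 5 * (4 * X 1 ^ 5 * X 2 - 17 * X 1 ^ 4 * X 2 ^ 2
    + 22 * X 1 ^ 3 * X 2 ^ 3 - 9 * X 1 ^ 2 * X 2 ^ 4))
    + 11 * X 1 * X 2 ^ 11 + 10 * X 0 * X 1 ^ 2 * X 2 ^ 9 := by
  unfold E2
  rw [F_d2, F_d0]
  ring

lemma phE (ρ : ℂ) : ph ρ (E1 F) = X 0 ^ 7 * X 2 ^ 5 *
      (C (2 * ρ ^ 2 * (ρ - 1) * (ρ - 6) * (2 * ρ - 3)))
    - X 0 ^ 6 * X 2 ^ 6 * C (20 * ρ ^ 4 - 68 * ρ ^ 3 + 66 * ρ ^ 2 - 18 * ρ)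
    + 11 * X 0 * X 2 ^ 11 + C (10 * ρ) * X 0 ^ 2 * X 2 ^ 10 := by
  rw [e1]
  simp only [map_add, map_sub, map_mul, map_pow, map_ofNat, ph0, ph1, ph2, map_one]
  ring

lemma o0 : OrdIs 0 11 (E1 F) := by
  refine ord_of (W := 11 * X 0) ?_ (by simp)
  rw [phE]
  simp
  ring

lemma o1 : OrdIs 1 10 (E1 F) := by
  refine ord_of (W := 11 * X 0 * X 2 + 10 * X 0 ^ 2) ?_ (by simp)
  rw [phE]
  norm_num
  simp only [map_ofNat]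
  ring

lemma o6 : OrdIs 6 6 (E1 F) := by
  refine ord_of (W := -(13500 * X 0 ^ 6) + 11 * X 0 * X 2 ^ 5 + 60 * X 0 ^ 2 * X 2 ^ 4) ?_
    (by simp)
  rw [phE]
  norm_num
  simp only [map_ofNat]
  ring

lemma o32 : OrdIs (3 / 2) 6 (E1 F) := by
  refine ord_of (W := C (27 / 4) * X 0 ^ 6 + 11 * X 0 * X 2 ^ 5 + 15 * X 0 ^ 2 * X 2 ^ 4) ?_
    (by simp)
  rw [phE]
  rw [show (2 * (3 / 2 : ℂ) ^ 2 * (3 / 2 - 1) * (3 / 2 - 6) * (2 * (3 / 2) - 3)) = 0 by norm_num,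
    show (20 * (3 / 2 : ℂ) ^ 4 - 68 * (3 / 2) ^ 3 + 66 * (3 / 2) ^ 2 - 18 * (3 / 2)) = -(27 / 4) by
      norm_num, show (10 * (3 / 2) : ℂ) = 15 by norm_num]
  simp only [map_neg, map_zero, map_ofNat]
  ring

lemma oy : OrdY 5 (E1 F) := by
  refine ⟨4 * X 0 ^ 7, X 0 ^ 7 * (- 34 * X 1 ^ 4
    + 66 * X 1 ^ 3 * X 2 - 36 * X 1 ^ 2 * X 2 ^ 2)
    - X 0 ^ 6 * (20 * X 1 ^ 4 * X 2 - 68 * X 1 ^ 3 * X 2 ^ 2
      + 66 * X 1 ^ 2 * X 2 ^ 3 - 18 * X 1 * X 2 ^ 4)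
    + 11 * X 0 * X 2 ^ 10 + 10 * X 0 ^ 2 * X 1 * X 2 ^ 8, ?_, by simp⟩
  rw [e1]
  ring

lemma ndvd : ¬ (X 0 : S) ∣ E2 F := by
  rintro ⟨A, hA⟩
  have h := congrArg (eval ![(0 : ℂ), 1, 1]) hA
  rw [e2] at h
  simp at h

end ModF49

open ModF49 in
theorem f49 (h : StmKY2) : StmF49 := by
  have key := h 12 F 4 6 [0, 0, 1, 6, 3 / 2]
    (fun ρ => if ρ = 0 then 11 else if ρ = 1 then 10 else 6) 5 F_hom (by norm_num) e0 ?_ oy ndvd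
  · have hs : (([0, 0, 1, 6, 3 / 2] : List ℂ).map
        (fun ρ => if ρ = 0 then 11 else if ρ = 1 then 10 else 6)).sum + 5 = 49 := by
      norm_num
    rw [hs] at key
    exact key
  · intro ρ hρ
    simp only [List.mem_cons, List.not_mem_nil, or_false] at hρ
    rcases hρ with rfl | rfl | rfl | rfl | rfl
    · simpa using o0
    · simpa using o0
    · simpa using o1
    · have h1 : (if (6 : ℂ) = 0 then 11 else if (6 : ℂ) = 1 then 10 else 6) = 6 := by norm_num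
      rw [h1]
      exact o6
    · have h1 : (if (3 / 2 : ℂ) = 0 then 11 else if (3 / 2 : ℂ) = 1 then 10 else 6) = 6 := by
        norm_num
      rw [h1]
      exact o32

end H28.EG
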