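import Pool.Agent.T6.H28.EG.Defs2

/-! Project EG: arithmetic assembly. -/

open MvPolynomial

namespace H28.EG

theorem fam_high (e m : ℕ) (he : 2 ≤ e) (h1 : e ^ 2 ≤ m + e) (h2 : m < e ^ 2) : Fam e m := by
  refine ⟨e, 1, 0, e - (e ^ 2 - m), e ^ 2 - m, 0, by omega, le_rfl, by omega, by omega, by omega,
    by omega, by omega, by omega, by omega, ?_⟩
  have : e * e = e ^ 2 := by ring
  rw [this]
  simp
  omega

theorem fam_exc (k : ℕ) (hk : 2 ≤ k) (m : ℕ) (h : m + (2 * k + 1) + 1 = (2 * k + 1) ^ 2) :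
    Fam (2 * k + 1) m := by
  refine ⟨2 * k + 1, 1, k, k, 1, 2, by omega, le_rfl, le_rfl, by omega, by omega, by omega,
    by omega, by omega, by omega, ?_⟩
  have : (2 * k + 1) * (2 * k + 1) = (2 * k + 1) ^ 2 := by ring
  rw [this, ← h]
  simp
  omega

theorem main (fam : StmFAM) (top : StmTOP) (sma : StmSMA) (cvb : StmCVB) (cvh : StmCVH)
    (cvm : StmCVM) (cvl : StmCVL) (spc : StmSPC) (smh : StmSMH) (d m : ℕ) (hd : 3 ≤ d)
    (hm : 2 ≤ m) (hm' : m ≤ d ^ 2 - d + 1) (h : 19 ≤ d ∨ (d - 1) * (d - 2) ≤ m) : Good d m := by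
  obtain ⟨e, rfl⟩ : ∃ e, d = e + 1 := ⟨d - 1, by omega⟩
  have he : 2 ≤ e := by omega
  have e1 : (e + 1) ^ 2 - (e + 1) + 1 = e ^ 2 + e + 1 := by
    have : (e + 1) ^ 2 = e ^ 2 + e + (e + 1) := by ring
    omega
  rw [e1] at hm'
  have e2 : (e + 1 - 1) * (e + 1 - 2) + e = e ^ 2 := by
    obtain ⟨k, rfl⟩ : ∃ k, e = k + 1 := ⟨e - 1, by omega⟩
    simp
    ring
  rcases le_or_gt (e ^ 2) m with h1 | h1
  · exact top e m he h1 hm'
  rcases le_or_gt (e ^ 2) (m + e) with h2 | h2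
  · exact fam e m he (fam_high e m he h2 h1)
  have hd : 18 ≤ e := by
    rcases h with h | h
    · omega
    · omega
  rcases le_or_gt m (e + 1) with h3 | h3
  · by_cases h4 : e + 1 = 2 * m
    · rw [h4]
      exact smh m (by omega)
    · exact sma (e + 1) m (by omega) hm h3 h4
  by_cases h5 : m + e + 1 = e ^ 2
  · rcases Nat.even_or_odd' e with ⟨k, hk | hk⟩
    · subst hk
      have := spc k (by omega)
      have h6 : m = 4 * k ^ 2 - 2 * k - 1 := by
        have : (2 * k) ^ 2 = 4 * k ^ 2 := by ring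
        omega
      rw [h6]
      exact this
    · subst hk
      exact fam _ m he (fam_exc k (by omega) m (by omega))
  rcases lt_or_ge e 100 with h6 | h6
  · exact fam e m he (cvb e m hd h6 (by omega) h1 h5)
  rcases le_or_gt (e * (e + 5)) (2 * m) with h7 | h7
  · exact fam e m he (cvh e m h6 h7 h1 h5)
  rcases le_or_gt (e * e) (2 * m + 5 * e) with h8 | h8
  · exact fam e m he (cvm e m h6 h8 h7.le)
  · exact fam e m he (cvl e m h6 (by omega) h8.le)

end H28.EG
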