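import Pool.Agent.T6.H28.EG.Defs4
import Pool.Agent.T6.H28.EG.Main

/-! Project EG: arithmetic assembly for all degrees. -/

open MvPolynomial

namespace H28.EG

/-- the case `d ≥ 11` -/
theorem main11 (fam : StmFAM) (fab : StmFAB) (top : StmTOP) (sma : StmSMA) (cvb : StmCVB)
    (cvh : StmCVH) (cvm : StmCVM) (cvl : StmCVL) (cvs : StmCVS) (spc : StmSPC) (smh : StmSMH)
    (c49 : FamB 11 49) (d m : ℕ) (hd : 11 ≤ d)
    (hm : 2 ≤ m) (hm' : m ≤ d ^ 2 - d + 1) : Good d m := by
  rcases le_or_gt 19 d with h19 | h19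
  · exact main fam top sma cvb cvh cvm cvl spc smh d m (by omega) hm hm' (Or.inl h19)
  by_cases hh : (d - 1) * (d - 2) ≤ m
  · exact main fam top sma cvb cvh cvm cvl spc smh d m (by omega) hm hm' (Or.inr hh)
  obtain ⟨e, rfl⟩ : ∃ e, d = e + 1 := ⟨d - 1, by omega⟩
  have he : 2 ≤ e := by omega
  have e2 : (e + 1 - 1) * (e + 1 - 2) + e = e ^ 2 := by
    obtain ⟨k, rfl⟩ : ∃ k, e = k + 1 := ⟨e - 1, by omega⟩
    simp
    ring
  have h1 : m + e < e ^ 2 := by omega
  rcases le_or_gt m (e + 1) with h3 | h3
  · by_cases h4 : e + 1 = 2 * m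
    · rcases le_or_gt 7 m with h5 | h5
      · rw [h4]
        exact smh m h5
      · have hm6 : m = 6 := by omega
        have he11 : e = 11 := by omega
        subst hm6 he11
        exact fam 11 6 (by omega) ⟨3, 9, 0, 0, 3, 0, by omega, by omega, by omega, by omega,
          by omega, by omega, by omega, by omega, by omega, by decide⟩
    · exact sma (e + 1) m (by omega) hm h3 h4
  by_cases h5 : m + e + 1 = e ^ 2
  · rcases Nat.even_or_odd' e with ⟨k, hk | hk⟩
    · subst hk
      have := spc k (by omega)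
      have h6 : m = 4 * k ^ 2 - 2 * k - 1 := by
        have : (2 * k) ^ 2 = 4 * k ^ 2 := by ring
        omega
      rw [h6]
      exact this
    · subst hk
      exact fam _ m he (fam_exc k (by omega) m (by omega))
  rcases cvs e m (by omega) (by omega) (by omega) (by omega) h5 with h | h | h
  · exact fam e m he h
  · exact fab e m he h
  · obtain ⟨rfl, rfl⟩ := h
    exact fab 11 49 he c49

theorem c49 : FamB 11 49 := ⟨7, 5, 2, 4, 2, by omega, by omega, by omega, by omega, by omega,
  by omega, by omega, by decide⟩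

/-- all degrees -/
theorem main3 (fam : StmFAM) (fab : StmFAB) (top : StmTOP) (sma : StmSMA) (cvb : StmCVB)
    (cvh : StmCVH) (cvm : StmCVM) (cvl : StmCVL) (cvs : StmCVS) (spc : StmSPC) (smh : StmSMH)
    (sp1 : StmSP1) (smq : StmSMQ) (f2g : StmF2G) (f67 : StmF67) (f68 : StmF68) (f85 : StmF85)
    (f88 : StmF88) (f94 : StmF94) (cvt : StmCVT) (d m : ℕ) (hd : 3 ≤ d)
    (hm : 2 ≤ m) (hm' : m ≤ d ^ 2 - d + 1) : Good d m := by
  rcases le_or_gt 11 d with h11 | h11
  · exact main11 fam fab top sma cvb cvh cvm cvl cvs spc smh c49 d m h11 hm hm'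
  by_cases hh : (d - 1) * (d - 2) ≤ m
  · exact main fam top sma cvb cvh cvm cvl spc smh d m (by omega) hm hm' (Or.inr hh)
  obtain ⟨e, rfl⟩ : ∃ e, d = e + 1 := ⟨d - 1, by omega⟩
  have he : 2 ≤ e := by omega
  have e2 : (e + 1 - 1) * (e + 1 - 2) + e = e ^ 2 := by
    obtain ⟨k, rfl⟩ : ∃ k, e = k + 1 := ⟨e - 1, by omega⟩
    simp
    ring
  have h1 : m + e < e ^ 2 := by omega
  rcases le_or_gt m (e + 1) with h3 | h3
  · by_cases h4 : e + 1 = 2 * m
    · rcases le_or_gt 4 m with h5 | h5
      · exact smq (e + 1) m h5 (by omega)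
      · have h6 : m = 2 ∨ m = 3 := by omega
        rcases h6 with rfl | rfl
        · have he3 : e = 3 := by omega
          subst he3
          exact sp1.1
        · have he5 : e = 5 := by omega
          subst he5
          exact fab 5 3 he ⟨2, 4, 0, 1, 0, by omega, by omega, by omega, by omega, by omega,
            by omega, by omega, by decide⟩
    · exact sma (e + 1) m (by omega) hm h3 h4
  rcases cvt e m he (by omega) (by omega) (by omega) with h | h | h
  · exact fam e m he h
  · exact fab e m he h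
  · simp only [List.mem_cons, Prod.mk.injEq, List.not_mem_nil, or_false] at h
    rcases h with h | h | h | h | h | h | h | h | h | h | h | h | h | h <;> obtain ⟨rfl, rfl⟩ := h
    · exact sp1.2
    · exact f2g.1
    · exact f67
    · exact f68.1
    · exact f68.2.1
    · exact f68.2.2
    · exact f2g.2.1
    · exact spc 3 (by omega)
    · exact f2g.2.2
    · exact f85.1
    · exact f85.2
    · exact f88.1
    · exact f88.2
    · exact f94

end H28.EG
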