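import Pool.Agent.T6.H28.EG.Defs4
import Pool.Agent.T6.H28.EG.SMH

/-! Project EG, module SMQ (helper89): `4 ≤ m < d`. -/

set_option autoImplicit false

open MvPolynomial

namespace H28.EG
namespace SMQb

open SMH (pd span_eq not_mem len_yG toP toP_eq rep_eq)

/-- the form, `m = n + 4`, `d = n + j + 5` -/
noncomputable def F (n j : ℕ) : S :=
  2 * (X 0 ^ (n + j + 3) * (X 1 * X 2)) + X 0 ^ (n + j + 2) * X 2 ^ 3
    + 2 * (X 0 ^ (j + 1) * X 2 ^ (n + 4)) + 2 * X 2 ^ (n + j + 5)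

lemma two_hom {P : S} {k : ℕ} (h : P.IsHomogeneous k) : (2 * P).IsHomogeneous k := by
  have : (2 : S) * P = P + P := by ring
  rw [this]
  exact h.add h

lemma F_hom (n j : ℕ) : (F n j).IsHomogeneous (n + j + 5) := by
  unfold F
  have h1 := (isHomogeneous_X_pow (R := ℂ) (0 : Fin 3) (n + j + 3)).mul
    ((isHomogeneous_X ℂ (1 : Fin 3)).mul (isHomogeneous_X ℂ (2 : Fin 3)))
  have h2 := (isHomogeneous_X_pow (R := ℂ) (0 : Fin 3) (n + j + 2)).mul
    (isHomogeneous_X_pow (R := ℂ) (2 : Fin 3) 3)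
  have h3 := (isHomogeneous_X_pow (R := ℂ) (0 : Fin 3) (j + 1)).mul
    (isHomogeneous_X_pow (R := ℂ) (2 : Fin 3) (n + 4))
  have h4 := isHomogeneous_X_pow (R := ℂ) (2 : Fin 3) (n + j + 5)
  have e1 : n + j + 3 + (1 + 1) = n + j + 5 := by ring
  have e2 : n + j + 2 + 3 = n + j + 5 := by ring
  have e3 : j + 1 + (n + 4) = n + j + 5 := by ring
  rw [e1] at h1
  rw [e2] at h2
  rw [e3] at h3
  exact (((two_hom h1).add h2).add (two_hom h3)).add (two_hom h4)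

lemma p2 (i : Fin 3) : pderiv i (2 : S) = 0 := by
  have : (2 : S) = C 2 := rfl
  rw [this, pderiv_C]

lemma d0 (n j : ℕ) : pderiv 0 (F n j) =
    2 * ((n : S) + (j : S) + 3) * X 0 ^ (n + j + 2) * X 1 * X 2
    + ((n : S) + (j : S) + 2) * X 0 ^ (n + j + 1) * X 2 ^ 3
    + 2 * ((j : S) + 1) * X 0 ^ j * X 2 ^ (n + 4) := by
  unfold F
  have n1 : pderiv (0 : Fin 3) (X 1 : S) = 0 := pderiv_X_of_ne (by decide)
  have n2 : pderiv (0 : Fin 3) (X 2 : S) = 0 := pderiv_X_of_ne (by decide)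
  have n0 : pderiv (0 : Fin 3) (X 0 : S) = 1 := pderiv_X_self 0
  simp only [map_add, Derivation.leibniz, pd 0 0 (n + j + 2), pd 0 0 (n + j + 1), pd 0 0 j,
    pd 0 2 2, pd 0 2 (n + 3), pd 0 2 (n + j + 4), p2, n0, n1, n2, smul_eq_mul]
  push_cast
  ring

lemma d1 (n j : ℕ) : pderiv 1 (F n j) = 2 * X 0 ^ (n + j + 3) * X 2 := by
  unfold F
  have n0 : pderiv (1 : Fin 3) (X 0 : S) = 0 := pderiv_X_of_ne (by decide)
  have n2 : pderiv (1 : Fin 3) (X 2 : S) = 0 := pderiv_X_of_ne (by decide)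
  have n1 : pderiv (1 : Fin 3) (X 1 : S) = 1 := pderiv_X_self 1
  simp only [map_add, Derivation.leibniz, pd 1 0 (n + j + 2), pd 1 0 (n + j + 1), pd 1 0 j,
    pd 1 2 2, pd 1 2 (n + 3), pd 1 2 (n + j + 4), p2, n0, n1, n2, smul_eq_mul]
  push_cast
  ring

lemma d2 (n j : ℕ) : pderiv 2 (F n j) = 2 * X 0 ^ (n + j + 3) * X 1
    + 3 * X 0 ^ (n + j + 2) * X 2 ^ 2
    + 2 * ((n : S) + 4) * X 0 ^ (j + 1) * X 2 ^ (n + 3)
    + 2 * ((n : S) + (j : S) + 5) * X 2 ^ (n + j + 4) := by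
  unfold F
  have n0 : pderiv (2 : Fin 3) (X 0 : S) = 0 := pderiv_X_of_ne (by decide)
  have n1 : pderiv (2 : Fin 3) (X 1 : S) = 0 := pderiv_X_of_ne (by decide)
  have n2 : pderiv (2 : Fin 3) (X 2 : S) = 1 := pderiv_X_self 2
  simp only [map_add, Derivation.leibniz, pd 2 0 (n + j + 2), pd 2 0 (n + j + 1), pd 2 0 j,
    pd 2 2 2, pd 2 2 (n + 3), pd 2 2 (n + j + 4), p2, n0, n1, n2, smul_eq_mul]
  push_cast
  ring

noncomputable def H (n j : ℕ) : S :=
  2 * ((n : S) + (j : S) + 2) * X 0 ^ (n + j + 3) * X 1 * X 2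
    + ((n : S) + (j : S) + 2) * X 0 ^ (n + j + 2) * X 2 ^ 3
    + 2 * ((j : S) + 1) * X 0 ^ (j + 1) * X 2 ^ (n + 4)

noncomputable def U (n j : ℕ) : S :=
  2 * X 0 ^ (n + j + 4) * X 1 + X 0 ^ (n + j + 3) * X 2 ^ 2
    + 2 * ((n : S) + 4) * X 0 ^ (j + 2) * X 2 ^ (n + 3)
    + 2 * ((n : S) + (j : S) + 5) * X 0 * X 2 ^ (n + j + 4)

noncomputable def W (n j : ℕ) : S :=
  (2 * ((j : S) + 1) - 2 * ((n : S) + 4) * ((n : S) + (j : S) + 2)) * X 0 ^ (j + 2)
    - 2 * ((n : S) + (j : S) + 5) * ((n : S) + (j : S) + 2) * X 0 * X 2 ^ (j + 1)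

lemma e0 (n j : ℕ) : E0 (F n j) = H n j := by
  unfold E0 H
  rw [d0, d1]
  ring

lemma e1 (n j : ℕ) : E1 (F n j) = U n j := by
  unfold E1 U
  rw [d2, d1]
  ring

lemma ident (n j : ℕ) : H n j * X 0 = X 2 ^ (n + 4) * W n j + (((n : S) + (j : S) + 2) * X 2) * U n j := by
  unfold H W U
  ring

lemma coef_ne (n j : ℕ) : (2 * ((j : ℂ) + 1) - 2 * ((n : ℂ) + 4) * ((n : ℂ) + j + 2)) ≠ 0 := by
  intro h
  have h1 : (2 * ((j : ℂ) + 1)) = 2 * ((n : ℂ) + 4) * ((n : ℂ) + j + 2) := by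
    linear_combination h
  have h2 : 2 * (j + 1) = 2 * (n + 4) * (n + j + 2) := by exact_mod_cast h1
  nlinarith [Nat.zero_le n, Nat.zero_le j, Nat.zero_le (n * j), Nat.zero_le (n * n)]

lemma U_ndvd (n j : ℕ) : ¬ (X 2 : S) ∣ U n j := by
  rintro ⟨q, hq⟩
  have := congrArg (eval (![1, 1, 0] : Fin 3 → ℂ)) hq
  simp [U] at this

lemma len_U (h : P0.IsPrime) (n j : ℕ) : locLength P0 (Ideal.span {X 2, U n j}) = 1 := by
  have h1 : Ideal.span {X 2, U n j} = Ideal.span {(X 2 : S), X 1 * (2 * X 0 ^ (n + j + 4))} := by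
    apply span_eq (X 2) _ _ (X 0 ^ (n + j + 3) * X 2
      + 2 * ((n : S) + 4) * X 0 ^ (j + 2) * X 2 ^ (n + 2)
      + 2 * ((n : S) + (j : S) + 5) * X 0 * X 2 ^ (n + j + 3))
    unfold U
    ring
  rw [h1, ONE.len_unit P0 h]
  · rw [Set.pair_comm]
    exact ONE.len_P P0 h
  · apply not_mem
    simp

lemma len_main (hA : StmADD) (h : P0.IsPrime) (n j : ℕ) :
    @locLength P0 h (Ideal.span {E0 (F n j), E1 (F n j)}) = (n + 4 : ℕ) := by
  rw [e0, e1, Set.pair_comm]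
  have s1 : locLength P0 (Ideal.span {U n j, H n j * X 0})
      = locLength P0 (Ideal.span {U n j, H n j}) := by
    apply ONE.len_unit P0 h
    apply not_mem
    simp
  have s2 : Ideal.span {U n j, H n j * X 0} = Ideal.span {U n j, X 2 ^ (n + 4) * W n j} := by
    apply span_eq (U n j) _ _ (((n : S) + (j : S) + 2) * X 2)
    exact ident n j
  have s3 : locLength P0 (Ideal.span {U n j, X 2 ^ (n + 4) * W n j})
      = locLength P0 (Ideal.span {U n j, X 2 ^ (n + 4)}) := by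
    apply ONE.len_unit P0 h
    apply not_mem
    unfold W
    have h2 := coef_ne n j
    simp
    intro h3
    apply h2
    linear_combination h3
  rw [← s1, s2, s3, Set.pair_comm]
  exact len_yG hA h (U n j) (U_ndvd n j) (len_U h n j) (n + 4)

noncomputable def Q (n j : ℕ) : Polynomial ℂ :=
  Polynomial.C (2 * ((j : ℂ) + 1) - 2 * ((n : ℂ) + 4) * ((n : ℂ) + j + 2))
    - Polynomial.C (2 * ((n : ℂ) + j + 5) * ((n : ℂ) + j + 2)) * Polynomial.X ^ (j + 1)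

lemma Q_eval (n j : ℕ) (y : ℂ) : (Q n j).eval y =
    (2 * ((j : ℂ) + 1) - 2 * ((n : ℂ) + 4) * ((n : ℂ) + j + 2))
    - (2 * ((n : ℂ) + j + 5) * ((n : ℂ) + j + 2)) * y ^ (j + 1) := by
  simp [Q]

lemma Q_ne (n j : ℕ) : Q n j ≠ 0 := by
  intro h
  have h1 := Q_eval n j 0
  rw [h] at h1
  have h2 := coef_ne n j
  simp at h1
  apply h2
  linear_combination -h1

/-- the points with `u = 1` -/
noncomputable def gg (n j : ℕ) (y : ℂ) : Fin 3 → ℂ :=
  ![1, -(y ^ 2 + 2 * ((n : ℂ) + 4) * y ^ (n + 3) + 2 * ((n : ℂ) + j + 5) * y ^ (n + j + 4)) / 2, y]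

lemma e2 (n j : ℕ) : E2 (F n j) = 2 * X 0 ^ (n + j + 3) * X 1 ^ 2
    + 3 * X 0 ^ (n + j + 2) * X 1 * X 2 ^ 2
    + 2 * ((n : S) + 4) * X 0 ^ (j + 1) * X 1 * X 2 ^ (n + 3)
    + 2 * ((n : S) + (j : S) + 5) * X 1 * X 2 ^ (n + j + 4)
    - 2 * ((n : S) + (j : S) + 3) * X 0 ^ (n + j + 2) * X 1 * X 2 ^ 2
    - ((n : S) + (j : S) + 2) * X 0 ^ (n + j + 1) * X 2 ^ 4
    - 2 * ((j : S) + 1) * X 0 ^ j * X 2 ^ (n + 5) := by
  unfold E2
  rw [d2, d0]
  ring

lemma fin (n j : ℕ) : {p : Projectivization ℂ (Fin 3 → ℂ) | eval p.rep (E0 (F n j)) = 0 ∧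
    eval p.rep (E1 (F n j)) = 0 ∧ eval p.rep (E2 (F n j)) = 0}.Finite := by
  have hT : (({![1, 0, 0], ![0, 1, 0], ![0, 0, 1], ![0, 1, (n : ℂ) + 5]} : Set (Fin 3 → ℂ)) ∪
      gg n j '' {y | (Q n j).IsRoot y}).Finite :=
    (Set.toFinite _).union ((Polynomial.finite_setOf_isRoot (Q_ne n j)).image _)
  refine (hT.image toP).subset ?_
  rintro p ⟨h0, h1, h2⟩
  rw [e0] at h0
  rw [e1] at h1
  rw [e2] at h2
  simp only [H, U, map_add, map_sub, map_mul, map_pow, eval_X, map_natCast, map_ofNat, map_one]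
    at h0 h1 h2
  obtain ⟨u, hu⟩ : ∃ u, p.rep 0 = u := ⟨_, rfl⟩
  obtain ⟨v, hv⟩ : ∃ v, p.rep 1 = v := ⟨_, rfl⟩
  obtain ⟨y, hy⟩ : ∃ y, p.rep 2 = y := ⟨_, rfl⟩
  rw [hu, hv, hy] at h0 h1 h2
  have hrep := rep_eq p.rep u v y hu hv hy
  by_cases hu0 : u = 0
  · subst hu0
    have h5 : ((n : ℂ) + j + 5) ≠ 0 := by
      have : ((n + j + 5 : ℕ) : ℂ) ≠ 0 := Nat.cast_ne_zero.mpr (by omega)
      push_cast at this
      exact this
    rcases j with _ | j
    · rw [zero_pow (by omega), zero_pow (by omega), zero_pow (by omega), zero_pow (by omega),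
        pow_zero] at h2
      have h3 : y ^ (n + 4) * (((n : ℂ) + 5) * v - y) = 0 := by
        push_cast at h2
        rw [Nat.add_zero] at h2
        linear_combination (1 / 2) * h2
      rcases mul_eq_zero.mp h3 with h3 | h3
      · have h3' := pow_eq_zero_iff (by omega) |>.mp h3
        refine ⟨![0, 1, 0], Or.inl (by simp), toP_eq p _ v ?_⟩
        rw [hrep, h3']
        simp
      · have h3' : y = v * ((n : ℂ) + 5) := by linear_combination -h3
        refine ⟨![0, 1, (n : ℂ) + 5], Or.inl (by simp), toP_eq p _ v ?_⟩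
        rw [hrep, h3']
        simp
    · rw [zero_pow (by omega), zero_pow (by omega), zero_pow (by omega), zero_pow (by omega),
        zero_pow (by omega)] at h2
      have h3 : ((n : ℂ) + ((j + 1 : ℕ) : ℂ) + 5) * (v * y ^ (n + (j + 1) + 4)) = 0 := by
        linear_combination (1 / 2) * h2
      rcases mul_eq_zero.mp ((mul_eq_zero.mp h3).resolve_left h5) with h3 | h3
      · refine ⟨![0, 0, 1], Or.inl (by simp), toP_eq p _ y ?_⟩
        rw [hrep, h3]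
        simp
      · have h3' := pow_eq_zero_iff (by omega) |>.mp h3
        refine ⟨![0, 1, 0], Or.inl (by simp), toP_eq p _ v ?_⟩
        rw [hrep, h3']
        simp
  · obtain ⟨v', rfl⟩ : ∃ v', v = u * v' := ⟨v / u, by field_simp⟩
    obtain ⟨y', rfl⟩ : ∃ y', y = u * y' := ⟨y / u, by field_simp⟩
    have hB : 2 * v' + y' ^ 2 + 2 * ((n : ℂ) + 4) * y' ^ (n + 3)
        + 2 * ((n : ℂ) + j + 5) * y' ^ (n + j + 4) = 0 := by
      have : u ^ (n + j + 5) * (2 * v' + y' ^ 2 + 2 * ((n : ℂ) + 4) * y' ^ (n + 3)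
        + 2 * ((n : ℂ) + j + 5) * y' ^ (n + j + 4)) = 0 := by
        linear_combination h1
      rcases mul_eq_zero.mp this with h | h
      · exact absurd (pow_eq_zero_iff (by omega) |>.mp h) hu0
      · exact h
    have hA : 2 * ((n : ℂ) + j + 2) * v' * y' + ((n : ℂ) + j + 2) * y' ^ 3
        + 2 * ((j : ℂ) + 1) * y' ^ (n + 4) = 0 := by
      have : u ^ (n + j + 5) * (2 * ((n : ℂ) + j + 2) * v' * y' + ((n : ℂ) + j + 2) * y' ^ 3
        + 2 * ((j : ℂ) + 1) * y' ^ (n + 4)) = 0 := by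
        linear_combination h0
      rcases mul_eq_zero.mp this with h | h
      · exact absurd (pow_eq_zero_iff (by omega) |>.mp h) hu0
      · exact h
    have hv' : v' = -(y' ^ 2 + 2 * ((n : ℂ) + 4) * y' ^ (n + 3)
        + 2 * ((n : ℂ) + j + 5) * y' ^ (n + j + 4)) / 2 := by
      linear_combination (1 / 2) * hB
    by_cases hy0 : y' = 0
    · subst hy0
      have hv0 : v' = 0 := by
        rw [hv', zero_pow (by omega), zero_pow (by omega), zero_pow (by omega)]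
        ring
      subst hv0
      refine ⟨![1, 0, 0], Or.inl (by simp), toP_eq p _ u ?_⟩
      rw [hrep]
      simp
    · have hQ : (Q n j).IsRoot y' := by
        rw [Polynomial.IsRoot, Q_eval]
        have : y' ^ (n + 4) * ((2 * ((j : ℂ) + 1) - 2 * ((n : ℂ) + 4) * ((n : ℂ) + j + 2))
            - (2 * ((n : ℂ) + j + 5) * ((n : ℂ) + j + 2)) * y' ^ (j + 1)) = 0 := by
          linear_combination hA - ((n : ℂ) + j + 2) * y' * hB
        rcases mul_eq_zero.mp this with h | h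
        · exact absurd (pow_eq_zero_iff (by omega) |>.mp h) hy0
        · exact h
      refine ⟨gg n j y', Or.inr ⟨y', hQ, rfl⟩, toP_eq p _ u ?_⟩
      rw [hrep, hv']
      simp [gg]

end SMQb

theorem smq (hA : StmADD) : StmSMQ := by
  intro d m hm hmd
  obtain ⟨n, rfl⟩ : ∃ n, m = n + 4 := ⟨m - 4, by omega⟩
  obtain ⟨j, rfl⟩ : ∃ j, d = n + j + 5 := ⟨d - (n + 5), by omega⟩
  exact ⟨SMQb.F n j, SMQb.F_hom n j, SMQb.fin n j, ONE.P0_prime, SMQb.len_main hA ONE.P0_prime n j⟩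

end H28.EG
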